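import Pool.Agent.Y853.HM.Lio1

set_option autoImplicit false

/-! One-sided bounds for the summatory function of the Liouville function. -/

namespace Pool.Agent.Y853.HML

open Filter Topology Set MeasureTheory
open Pool.Agent.W263.BSD
open Pool.Agent.Y853.HM (lint_exp zeta1_eq zeta1_real re_analytic lint_abs lint_of_abs pt pt_re pt_ne_one pt_ne_zero
  ee ee_norm ee_cont q q_mono q_nn q_ge q_le_sq q_key q_top q_div inv_top log_ge llog_nn llog_ge exp_le taylor pt_sub shift cv)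

/-- `L(e^v) e^{-v/2}` -/
noncomputable def f (v : ℝ) : ℝ := Lx (Real.exp v) * Real.exp (-(v / 2))

/-- the weighted integral -/
noncomputable def J (F : ℝ → ℂ) (δ : ℝ) : ℂ :=
  ∫ v in Ioi (0 : ℝ), ((g v * Real.exp (-((1 / 2 + δ) * v)) : ℝ) : ℂ) * F v

/-- the mean of `|f|` -/
noncomputable def N (δ : ℝ) : ℝ := δ * lap (fun v => |g v|) (1 / 2 + δ)

theorem J_le (F : ℝ → ℂ) {B : ℝ} (hB : ∀ v, ‖F v‖ ≤ B) {δ : ℝ} (hδ : 0 < δ)
    (h : LInt g (1 / 2 + δ)) : ‖(δ : ℂ) * J F δ‖ ≤ B * N δ := by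
  have hi : IntegrableOn (fun v => |g v| * Real.exp (-((1 / 2 + δ) * v))) (Ioi 0) := by
    have := h.norm
    refine this.congr (Eventually.of_forall fun v => ?_)
    simp only []
    rw [norm_mul, Real.norm_eq_abs, Real.norm_of_nonneg (Real.exp_pos _).le]
  rw [norm_mul, Complex.norm_of_nonneg hδ.le]
  have h1 : ‖J F δ‖ ≤ ∫ v in Ioi (0 : ℝ), B * (|g v| * Real.exp (-((1 / 2 + δ) * v))) := by
    unfold J
    refine norm_integral_le_of_norm_le (hi.const_mul B) (Eventually.of_forall fun v => ?_)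
    rw [norm_mul, Complex.norm_real, Real.norm_eq_abs, abs_mul, abs_of_pos (Real.exp_pos _), mul_comm]
    exact mul_le_mul_of_nonneg_right (hB v) (by positivity)
  rw [integral_const_mul] at h1
  unfold N lap
  calc δ * ‖J F δ‖ ≤ δ * (B * ∫ v in Ioi (0 : ℝ), |g v| * Real.exp (-((1 / 2 + δ) * v))) :=
        mul_le_mul_of_nonneg_left h1 hδ.le
    _ = _ := by ring

theorem J_ee (t δ : ℝ) : J (ee t) δ = lapC g (pt t + δ) := by
  unfold J lapC
  refine integral_congr_ae (Eventually.of_forall fun v => ?_)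
  simp only []
  unfold ee pt
  rw [Complex.ofReal_mul, mul_assoc, Complex.ofReal_exp, ← Complex.exp_add]
  congr 2
  push_cast
  ring

theorem ext_pt (h : ∀ w > (1 / 2 : ℝ), LInt g w) (t : ℝ) {δ : ℝ} (hδ : 0 < δ) :
    (pt t + δ) * riemannZeta₁ (pt t + δ) * lapC g (pt t + δ) = (pt t + δ - 1) * riemannZeta (2 * (pt t + δ)) := by
  refine g_ext le_rfl h ?_
  rw [Complex.add_re, pt_re, Complex.ofReal_re]
  linarith

theorem f_meas : Measurable f := g_meas.mul (by fun_prop)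

/-- the real Abel mean -/
noncomputable def ab (s δ : ℝ) : ℝ := δ * lap (fun v => max (s * g v) 0) (1 / 2 + δ)

theorem integrand (s δ v : ℝ) : max (s * f v) 0 * Real.exp (-(δ * v)) =
    max (s * g v) 0 * Real.exp (-((1 / 2 + δ) * v)) := by
  have h1 : s * f v = (s * g v) * Real.exp (-(v / 2)) := by
    unfold f g
    ring
  have h2 : max ((s * g v) * Real.exp (-(v / 2))) 0 = max (s * g v) 0 * Real.exp (-(v / 2)) := by
    rw [max_mul_of_nonneg _ _ (Real.exp_pos _).le, zero_mul]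
  rw [h1, h2, mul_assoc, ← Real.exp_add]
  congr 2
  ring

theorem integrand_meas (s δ : ℝ) : Measurable fun v => max (s * g v) 0 * Real.exp (-((1 / 2 + δ) * v)) :=
  ((g_meas.const_mul s).max measurable_const).mul (by fun_prop)

theorem integrand_nn (s δ v : ℝ) : 0 ≤ max (s * g v) 0 * Real.exp (-((1 / 2 + δ) * v)) :=
  mul_nonneg (le_max_right _ _) (Real.exp_pos _).le

theorem ab_nonneg {s δ : ℝ} (hδ : 0 < δ) : 0 ≤ ab s δ :=
  mul_nonneg hδ.le (lap_nonneg (fun _ _ => le_max_right _ _) _)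

theorem lint_neg {s : ℝ} (h : ∀ w > (1 / 2 : ℝ), LInt (fun v => max (s * g v) 0) w) :
    ∀ w > (1 / 2 : ℝ), LInt (fun v => max (-s * g v) 0) w := by
  have := other_side h
  simpa only [neg_mul] using this

theorem lint_g {s : ℝ} (hs : s = 1 ∨ s = -1) (h : ∀ w > (1 / 2 : ℝ), LInt (fun v => max (s * g v) 0) w) :
    ∀ w > (1 / 2 : ℝ), LInt g w := by
  intro w hw
  have h1 := other_side h w hw
  have h2 := lint_abs (f := fun v => s * g v) (h w hw) h1
  have h3 := lint_of_abs (g_meas.const_mul s) h2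
  have h4 := h3.const_mul s
  have e : (fun u => s * (s * g u)) = g := by
    funext u
    rcases hs with rfl | rfl <;> ring
  rw [e] at h4
  exact h4

theorem ab_add {s : ℝ} (hs : s = 1 ∨ s = -1) (h : ∀ w > (1 / 2 : ℝ), LInt (fun v => max (s * g v) 0) w)
    {δ : ℝ} (hδ : 0 < δ) : N δ = ab s δ + ab (-s) δ ∧ ab (-s) δ = ab s δ - s * (δ * lap g (1 / 2 + δ)) := by
  have h1 := h (1 / 2 + δ) (by linarith)
  have h2 := lint_neg h (1 / 2 + δ) (by linarith)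
  have h3 := lint_g hs h (1 / 2 + δ) (by linarith)
  constructor
  · unfold N ab
    rw [← mul_add, ← lap_add h1 h2]
    congr 2
    funext v
    show |g v| = max (s * g v) 0 + max (-s * g v) 0
    rcases hs with rfl | rfl <;> rcases le_total 0 (g v) with h4 | h4
    · rw [abs_of_nonneg h4, max_eq_left (by linarith), max_eq_right (by linarith)]; ring
    · rw [abs_of_nonpos h4, max_eq_right (by linarith), max_eq_left (by linarith)]; ring
    · rw [abs_of_nonneg h4, max_eq_right (by linarith), max_eq_left (by linarith)]; ring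
    · rw [abs_of_nonpos h4, max_eq_left (by linarith), max_eq_right (by linarith)]; ring
  · unfold ab
    have e : (fun v => max (-s * g v) 0) = fun v => max (s * g v) 0 - s * g v := by
      funext v
      rcases le_total 0 (s * g v) with h4 | h4
      · rw [max_eq_right (by linarith), max_eq_left h4, sub_self]
      · rw [max_eq_left (by linarith), max_eq_right h4, zero_sub]; ring
    rw [e, lap_sub h1 (h3.const_mul s), lap_const_mul]
    ring

theorem f_le {s : ℝ} (hs : s = 1 ∨ s = -1) (v : ℝ) : max (s * f v) 0 ≤ Real.exp (v / 2) := by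
  refine max_le ?_ (Real.exp_pos _).le
  have h1 : s * f v ≤ |f v| := by
    rcases hs with rfl | rfl
    · rw [one_mul]; exact le_abs_self _
    · rw [neg_one_mul]; exact neg_le_abs _
  refine h1.trans ?_
  have h2 := g_abs v
  have : |f v| = |g v| * Real.exp (-(v / 2)) := by
    unfold f g
    rw [abs_mul, abs_of_pos (Real.exp_pos _)]
  rw [this]
  calc |g v| * Real.exp (-(v / 2)) ≤ Real.exp v * Real.exp (-(v / 2)) :=
        mul_le_mul_of_nonneg_right h2 (Real.exp_pos _).le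
    _ = _ := by rw [← Real.exp_add]; congr 1; ring

/-- the Abel means under a one-sided pointwise bound -/
theorem ab_core {s B : ℝ} (hs : s = 1 ∨ s = -1) (hB : 0 < B) {v0 : ℝ} (hv0 : Real.exp 1 ≤ v0)
    (h : ∀ v, v0 ≤ v → s * f v ≤ B * q v) {δ : ℝ} (hδ : 0 < δ) (hD : Real.exp (Real.exp 1) ≤ δ⁻¹) :
    LInt (fun v => max (s * g v) 0) (1 / 2 + δ) ∧
    ab s δ ≤ Real.exp (v0 / 2) + B * q δ⁻¹ * (1 + 2 * (Real.log δ⁻¹)⁻¹ + 2 * (Real.log δ⁻¹)⁻¹ ^ 2) := by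
  set D : ℝ := δ⁻¹ with hDd
  set η : ℝ := (Real.log D)⁻¹ with hη
  set K : ℝ := Real.exp (v0 / 2) with hK
  have hK0 : 0 < K := Real.exp_pos _
  have hq := q_ge hD
  have hL : 1 ≤ Real.log D := log_ge (exp_le.trans hD)
  have hη0 : 0 ≤ η := by positivity
  have hvd : ∀ v : ℝ, v / D = δ * v := fun v => by rw [hDd, div_inv_eq_mul, mul_comm]
  obtain ⟨Ψ, hΨ⟩ : ∃ Ψ : ℝ → ℝ, Ψ = fun v => ((K + B * q D) * pk 0 v + (2 * B * q D * η * δ) * pk 1 v) +
      (2 * B * q D * η ^ 2 * δ ^ 2) * pk 2 v := ⟨_, rfl⟩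
  have hΨv : ∀ v, Ψ v = K + B * (q D * (1 + η * (v / D)) ^ 2) := by
    intro v
    rw [hΨ, hvd]
    simp only [pk, pow_zero, Nat.factorial_zero, Nat.cast_one, div_one, mul_one, pow_one, Nat.factorial_one,
      Nat.factorial_two, Nat.cast_ofNat]
    ring
  have hbound : ∀ v : ℝ, 0 < v → max (s * f v) 0 ≤ Ψ v := by
    intro v hv
    rw [hΨv]
    have h1 : 0 ≤ B * (q D * (1 + η * (v / D)) ^ 2) := by positivity
    rcases le_total v v0 with h2 | h2
    · have h3 := f_le hs v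
      have h4 : Real.exp (v / 2) ≤ K := Real.exp_le_exp.2 (by linarith)
      linarith
    · refine max_le ?_ (by positivity)
      have h3 := h v h2
      have h4 := mul_le_mul_of_nonneg_left (q_key hD (hv0.trans h2)) hB.le
      linarith
  have hi0 := (pk_LInt 0 hδ).const_mul (K + B * q D)
  have hi1 := (pk_LInt 1 hδ).const_mul (2 * B * q D * η * δ)
  have hi2 := (pk_LInt 2 hδ).const_mul (2 * B * q D * η ^ 2 * δ ^ 2)
  have hΨi : LInt Ψ δ := by
    rw [hΨ]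
    exact (hi0.add hi1).add hi2
  have hΨl : lap Ψ δ = (K + B * q D) * (1 / δ ^ (0 + 1)) + (2 * B * q D * η * δ) * (1 / δ ^ (1 + 1)) +
      (2 * B * q D * η ^ 2 * δ ^ 2) * (1 / δ ^ (2 + 1)) := by
    rw [hΨ]
    have e1 := lap_add (hi0.add hi1) hi2
    have e2 := lap_add hi0 hi1
    rw [lap_const_mul, pk_lap 2 hδ] at e1
    rw [lap_const_mul, lap_const_mul, pk_lap 0 hδ, pk_lap 1 hδ] at e2
    rw [e2] at e1
    exact e1
  have hi : IntegrableOn (fun v => max (s * f v) 0 * Real.exp (-(δ * v))) (Ioi 0) := by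
    refine Integrable.mono' hΨi ?_ ?_
    · simp only [integrand]
      exact (integrand_meas s δ).aestronglyMeasurable
    · filter_upwards [ae_restrict_mem measurableSet_Ioi] with v hv
      rw [Real.norm_of_nonneg (mul_nonneg (le_max_right _ _) (Real.exp_pos _).le)]
      exact mul_le_mul_of_nonneg_right (hbound v hv) (Real.exp_pos _).le
  have hi' := hi
  simp only [integrand] at hi'
  refine ⟨hi', ?_⟩
  have h5 : lap (fun v => max (s * g v) 0) (1 / 2 + δ) ≤ lap Ψ δ := by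
    unfold lap
    have e1 : ∫ u in Ioi (0 : ℝ), max (s * g u) 0 * Real.exp (-((1 / 2 + δ) * u)) =
        ∫ u in Ioi (0 : ℝ), max (s * f u) 0 * Real.exp (-(δ * u)) := by
      simp only [integrand]
    rw [e1]
    exact setIntegral_mono_on hi hΨi measurableSet_Ioi fun v hv =>
      mul_le_mul_of_nonneg_right (hbound v hv) (Real.exp_pos _).le
  unfold ab
  refine (mul_le_mul_of_nonneg_left h5 hδ.le).trans (le_of_eq ?_)
  rw [hΨl]
  field_simp
  ring

theorem ab_bound {s B : ℝ} (hs : s = 1 ∨ s = -1) (hB : 0 < B)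
    (h : ∀ᶠ x : ℝ in atTop, s * Lx x ≤ B * (Real.sqrt x * Real.log (Real.log (Real.log x)) ^ (5 / 4 : ℝ))) :
    (∀ w > (1 / 2 : ℝ), LInt (fun v => max (s * g v) 0) w) ∧
    ∀ ε : ℝ, 0 < ε → ∀ᶠ δ in 𝓝[>] (0 : ℝ), ab s δ ≤ (B + ε) * q δ⁻¹ := by
  have h1 : ∀ᶠ v : ℝ in atTop, s * f v ≤ B * q v := by
    filter_upwards [Real.tendsto_exp_atTop.eventually h] with v hv
    rw [Real.log_exp] at hv
    have h2 := mul_le_mul_of_nonneg_right hv (Real.exp_pos (-(v / 2))).le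
    have e1 : Real.sqrt (Real.exp v) = Real.exp (v / 2) := by
      rw [Real.sqrt_eq_iff_mul_self_eq (Real.exp_pos _).le (Real.exp_pos _).le, ← Real.exp_add]
      congr 1
      ring
    have e2 : Real.exp (v / 2) * Real.exp (-(v / 2)) = 1 := by
      rw [← Real.exp_add, add_neg_cancel, Real.exp_zero]
    rw [e1] at h2
    unfold f q
    calc s * (Lx (Real.exp v) * Real.exp (-(v / 2))) = s * Lx (Real.exp v) * Real.exp (-(v / 2)) := by ring
      _ ≤ B * (Real.exp (v / 2) * Real.log (Real.log v) ^ (5 / 4 : ℝ)) * Real.exp (-(v / 2)) := h2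
      _ = B * Real.log (Real.log v) ^ (5 / 4 : ℝ) * (Real.exp (v / 2) * Real.exp (-(v / 2))) := by ring
      _ = _ := by rw [e2, mul_one]
  obtain ⟨v1, hv1⟩ := eventually_atTop.1 h1
  set v0 : ℝ := max v1 (Real.exp 1) with hv0
  have hcore : ∀ {δ : ℝ}, 0 < δ → Real.exp (Real.exp 1) ≤ δ⁻¹ → _ := fun hδ hD =>
    ab_core hs hB (le_max_right _ _ : Real.exp 1 ≤ v0) (fun v hv => hv1 v ((le_max_left _ _).trans hv)) hδ hD
  have hevD : ∀ᶠ δ in 𝓝[>] (0 : ℝ), Real.exp (Real.exp 1) ≤ δ⁻¹ := inv_top.eventually_ge_atTop _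
  constructor
  · intro w hw
    have h2 : ∀ᶠ δ in 𝓝[>] (0 : ℝ), δ < w - 1 / 2 :=
      (eventually_lt_nhds (by linarith)).filter_mono nhdsWithin_le_nhds
    obtain ⟨δ, ⟨h3, h4⟩, h5⟩ := ((hevD.and h2).and self_mem_nhdsWithin).exists
    exact LInt.mono ((g_meas.const_mul s).max measurable_const) (hcore h5 h3).1 (by linarith)
  · intro ε hε
    have hlim : Tendsto (fun D : ℝ => Real.exp (v0 / 2) / q D + B * (2 * (Real.log D)⁻¹ + 2 * (Real.log D)⁻¹ ^ 2))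
        atTop (𝓝 (0 + B * (2 * 0 + 2 * 0 ^ 2))) := by
      have a1 : Tendsto (fun D : ℝ => Real.exp (v0 / 2) / q D) atTop (𝓝 0) := q_top.const_div_atTop _
      have a2 : Tendsto (fun D : ℝ => (Real.log D)⁻¹) atTop (𝓝 0) := tendsto_inv_atTop_zero.comp Real.tendsto_log_atTop
      exact a1.add (((a2.const_mul 2).add ((a2.pow 2).const_mul 2)).const_mul B)
    have hz : (0 : ℝ) + B * (2 * 0 + 2 * 0 ^ 2) = 0 := by ring
    rw [hz] at hlim
    filter_upwards [hevD, self_mem_nhdsWithin, (hlim.comp inv_top).eventually_lt_const hε] with δ h3 h4 h5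
    have hδ0 : (0 : ℝ) < δ := h4
    have h6 := (hcore hδ0 h3).2
    have hq := q_ge h3
    simp only [Function.comp_apply] at h5
    have h7 := mul_lt_mul_of_pos_right h5 (show 0 < q δ⁻¹ by linarith)
    rw [add_mul, div_mul_cancel₀ _ (by linarith)] at h7
    refine h6.trans ?_
    linarith

/-- the mean value is bounded -/
theorem mean_bdd (h : ∀ w > (1 / 2 : ℝ), LInt g w) :
    ∃ C : ℝ, ∀ᶠ δ : ℝ in 𝓝[>] (0 : ℝ), |δ * lap g (1 / 2 + δ)| ≤ C := by
  have hne : (2 : ℂ) * ((1 / 2 : ℝ) : ℂ) * riemannZeta₁ ((1 / 2 : ℝ) : ℂ) ≠ 0 :=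
    mul_ne_zero (by push_cast; norm_num) (zeta1_real (by norm_num))
  have hsh : Tendsto (fun δ : ℝ => ((1 / 2 + δ : ℝ) : ℂ)) (𝓝[>] 0) (𝓝 ((1 / 2 : ℝ) : ℂ)) := by
    have : Tendsto (fun δ : ℝ => ((1 / 2 + δ : ℝ) : ℂ)) (𝓝 0) (𝓝 ((1 / 2 + 0 : ℝ) : ℂ)) :=
      (Complex.continuous_ofReal.comp (continuous_const.add continuous_id)).tendsto 0
    rw [add_zero] at this
    exact this.mono_left nhdsWithin_le_nhds
  have hc := differentiable_riemannZeta₁.continuous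
  have h1 : Tendsto (fun δ : ℝ => (((1 / 2 + δ : ℝ) : ℂ) - 1) * riemannZeta₁ (2 * ((1 / 2 + δ : ℝ) : ℂ)) /
      (2 * ((1 / 2 + δ : ℝ) : ℂ) * riemannZeta₁ ((1 / 2 + δ : ℝ) : ℂ))) (𝓝[>] 0)
      (𝓝 ((((1 / 2 : ℝ) : ℂ) - 1) * riemannZeta₁ (2 * ((1 / 2 : ℝ) : ℂ)) /
      (2 * ((1 / 2 : ℝ) : ℂ) * riemannZeta₁ ((1 / 2 : ℝ) : ℂ)))) :=
    ((hsh.sub_const 1).mul ((hc.tendsto _).comp (hsh.const_mul 2))).div
      ((hsh.const_mul 2).mul ((hc.tendsto _).comp hsh)) hne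
  obtain ⟨C, hC⟩ : ∃ C : ℝ, C = ‖(((1 / 2 : ℝ) : ℂ) - 1) * riemannZeta₁ (2 * ((1 / 2 : ℝ) : ℂ)) /
      (2 * ((1 / 2 : ℝ) : ℂ) * riemannZeta₁ ((1 / 2 : ℝ) : ℂ))‖ := ⟨_, rfl⟩
  have h2 := h1.norm
  rw [← hC] at h2
  refine ⟨C + 1, ?_⟩
  filter_upwards [h2.eventually_lt_const (show C < C + 1 by linarith), self_mem_nhdsWithin] with δ h3 hδ
  have hδ0 : (0 : ℝ) < δ := hδ
  have hw0 : (0 : ℝ) < 1 / 2 + δ := by linarith
  have h4 := g_ext le_rfl h (z := ((1 / 2 + δ : ℝ) : ℂ)) (by rw [Complex.ofReal_re]; linarith)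
  have hz := zeta1_real hw0
  have hw0c : ((1 / 2 + δ : ℝ) : ℂ) ≠ 0 := by exact_mod_cast hw0.ne'
  have h2z : (2 : ℂ) * ((1 / 2 + δ : ℝ) : ℂ) ≠ 1 := by
    intro h5
    have : (2 : ℝ) * (1 / 2 + δ) = 1 := by exact_mod_cast h5
    linarith
  have h6 : riemannZeta₁ (2 * ((1 / 2 + δ : ℝ) : ℂ)) = (2 * δ : ℂ) * riemannZeta (2 * ((1 / 2 + δ : ℝ) : ℂ)) := by
    rw [zeta1_eq h2z]
    congr 1
    push_cast
    ring
  have h7 : ((δ * lap g (1 / 2 + δ) : ℝ) : ℂ) = (((1 / 2 + δ : ℝ) : ℂ) - 1) * riemannZeta₁ (2 * ((1 / 2 + δ : ℝ) : ℂ)) /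
      (2 * ((1 / 2 + δ : ℝ) : ℂ) * riemannZeta₁ ((1 / 2 + δ : ℝ) : ℂ)) := by
    rw [Complex.ofReal_mul, ← lapC_ofReal, eq_div_iff (mul_ne_zero (mul_ne_zero two_ne_zero hw0c) hz), h6]
    linear_combination (2 * (δ : ℂ)) * h4
  rw [← h7, Complex.norm_real, Real.norm_eq_abs] at h3
  exact h3.le

section
variable {s B : ℝ} (hs : s = 1 ∨ s = -1) (hB : 0 < B)
  (h : ∀ᶠ x : ℝ in atTop, s * Lx x ≤ B * (Real.sqrt x * Real.log (Real.log (Real.log x)) ^ (5 / 4 : ℝ)))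
include hs hB h

theorem N_bound {ε : ℝ} (hε : 0 < ε) : ∀ᶠ δ in 𝓝[>] (0 : ℝ), N δ ≤ (2 * B + ε) * q δ⁻¹ := by
  obtain ⟨hL, hb⟩ := ab_bound hs hB h
  obtain ⟨C, hC⟩ := mean_bdd (lint_g hs hL)
  filter_upwards [hC, hb (ε / 4) (by positivity), self_mem_nhdsWithin,
    inv_top.eventually_ge_atTop (Real.exp (Real.exp 1)),
    (q_top.comp inv_top).eventually_ge_atTop (C / (ε / 2))] with δ h3 h2 h4 hD hq2
  obtain ⟨h5, h6⟩ := ab_add hs hL (show 0 < δ from h4)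
  have h7 : |s * (δ * lap g (1 / 2 + δ))| ≤ C := by
    rw [abs_mul]
    rcases hs with rfl | rfl <;> simpa using h3
  have h8 := (abs_le.1 h7).1
  have hq := q_ge hD
  simp only [Function.comp_apply] at hq2
  rw [div_le_iff₀ (by positivity)] at hq2
  rw [h5, h6]
  nlinarith

theorem dN_lim : Tendsto (fun δ : ℝ => δ * N δ) (𝓝[>] 0) (𝓝 0) := by
  have h1 : Tendsto (fun δ : ℝ => (2 * B + 1) * (q δ⁻¹ / δ⁻¹)) (𝓝[>] 0) (𝓝 ((2 * B + 1) * 0)) :=
    (q_div.comp inv_top).const_mul _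
  rw [mul_zero] at h1
  refine squeeze_zero' ?_ ?_ h1
  · filter_upwards [self_mem_nhdsWithin] with δ hδ
    have hδ0 : (0 : ℝ) < δ := hδ
    have : 0 ≤ N δ := mul_nonneg hδ0.le (lap_nonneg (fun _ _ => abs_nonneg _) _)
    positivity
  · filter_upwards [self_mem_nhdsWithin, N_bound hs hB h one_pos] with δ hδ h2
    have hδ0 : (0 : ℝ) < δ := hδ
    rw [div_inv_eq_mul]
    have := mul_le_mul_of_nonneg_left h2 hδ0.le
    linarith

theorem fund (hg : ∀ w > (1 / 2 : ℝ), LInt g w) (t : ℝ) {δ : ℝ} (hδ : 0 < δ) :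
    ‖pt t + δ - 1‖ * ‖riemannZeta (2 * (pt t + δ))‖ * δ ≤ ‖pt t + δ‖ * ‖riemannZeta₁ (pt t + δ)‖ * N δ := by
  have h1 := J_le (ee t) (B := 1) (fun v => (ee_norm t v).le) hδ (hg _ (by linarith))
  rw [J_ee, one_mul, norm_mul, Complex.norm_of_nonneg hδ.le] at h1
  rw [← norm_mul, ← ext_pt hg t hδ, norm_mul, norm_mul]
  calc ‖pt t + ↑δ‖ * ‖riemannZeta₁ (pt t + ↑δ)‖ * ‖lapC g (pt t + ↑δ)‖ * δ
      = ‖pt t + ↑δ‖ * ‖riemannZeta₁ (pt t + ↑δ)‖ * (δ * ‖lapC g (pt t + ↑δ)‖) := by ring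
    _ ≤ _ := mul_le_mul_of_nonneg_left h1 (by positivity)

theorem simple_G (t : ℝ) (hz : riemannZeta (pt t) = 0) : deriv riemannZeta (pt t) ≠ 0 := by
  intro hd
  obtain ⟨hL, hb⟩ := ab_bound hs hB h
  have hg := lint_g hs hL
  have hR : 0 < ‖pt t‖ := norm_pos_iff.2 (pt_ne_zero t)
  have hdN := dN_lim hs hB h
  have hid : Tendsto (fun δ : ℝ => δ) (𝓝[>] 0) (𝓝 0) := tendsto_id.mono_left nhdsWithin_le_nhds
  have h2ne : 2 * pt t ≠ 1 := by
    intro h5
    have h6 : pt t = 1 / 2 := by rw [eq_div_iff two_ne_zero, mul_comm]; exact h5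
    rw [h6] at hz
    refine Pool.Agent.Y21.FW.real_ne (x := 1 / 2) (by norm_num) (by norm_num) ?_
    push_cast
    exact hz
  have h2z : riemannZeta (2 * pt t) ≠ 0 := riemannZeta_ne_zero_of_one_le_re (by
    simp only [Complex.mul_re, Complex.re_ofNat, Complex.im_ofNat, zero_mul, sub_zero, pt_re]
    norm_num)
  have hsh := shift t
  have hcz : Tendsto (fun δ : ℝ => riemannZeta (2 * (pt t + (δ : ℂ)))) (𝓝[>] 0) (𝓝 (riemannZeta (2 * pt t))) :=
    ((differentiableAt_riemannZeta h2ne).continuousAt.tendsto).comp (hsh.const_mul 2)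
  have h1 : Tendsto (fun δ : ℝ => (‖pt t‖ + δ) * (1100 * (‖pt t‖ + 2) ^ 2 * (δ * N δ))) (𝓝[>] 0)
      (𝓝 ((‖pt t‖ + 0) * (1100 * (‖pt t‖ + 2) ^ 2 * 0))) := (hid.const_add _).mul (hdN.const_mul _)
  have h2 : Tendsto (fun δ : ℝ => ‖pt t + (δ : ℂ) - 1‖ * ‖riemannZeta (2 * (pt t + (δ : ℂ)))‖) (𝓝[>] 0)
      (𝓝 (‖pt t - 1‖ * ‖riemannZeta (2 * pt t)‖)) := (hsh.sub_const 1).norm.mul hcz.norm
  rw [mul_zero, mul_zero] at h1
  have h3 : ∀ᶠ δ : ℝ in 𝓝[>] (0 : ℝ), ‖pt t + (δ : ℂ) - 1‖ * ‖riemannZeta (2 * (pt t + (δ : ℂ)))‖ ≤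
      (‖pt t‖ + δ) * (1100 * (‖pt t‖ + 2) ^ 2 * (δ * N δ)) := by
    have hsm : ∀ᶠ δ : ℝ in 𝓝[>] (0 : ℝ), δ < 1 / 20 :=
      (eventually_lt_nhds (by norm_num)).filter_mono nhdsWithin_le_nhds
    filter_upwards [self_mem_nhdsWithin, hsm] with δ hδ hδ1
    have hδ0 : (0 : ℝ) < δ := hδ
    have hN : 0 ≤ N δ := mul_nonneg hδ0.le (lap_nonneg (fun _ _ => abs_nonneg _) _)
    have a1 := fund hs hB h hg t hδ0
    have a2 := taylor t hδ0.le hδ1.le hz
    rw [hd, norm_zero, mul_zero, mul_zero, zero_add] at a2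
    have a4 : ‖pt t + (δ : ℂ)‖ ≤ ‖pt t‖ + δ := by
      have := norm_add_le (pt t) (δ : ℂ)
      rwa [Complex.norm_of_nonneg hδ0.le] at this
    have a5 : ‖pt t + (δ : ℂ)‖ * ‖riemannZeta₁ (pt t + δ)‖ * N δ ≤
        (‖pt t‖ + δ) * (1100 * (‖pt t‖ + 2) ^ 2 * δ ^ 2) * N δ := by gcongr
    refine le_of_mul_le_mul_right ((a1.trans a5).trans (le_of_eq ?_)) hδ0
    ring
  have h9 := le_of_tendsto_of_tendsto h2 h1 h3
  have : 0 < ‖pt t - 1‖ * ‖riemannZeta (2 * pt t)‖ :=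
    mul_pos (norm_pos_iff.2 (sub_ne_zero.2 (pt_ne_one t))) (norm_pos_iff.2 h2z)
  linarith

theorem zeros_G {ρ : ℂ} (h0 : riemannZeta ρ = 0) (h1 : 0 < ρ.re) (h2 : ρ.re < 1) :
    ρ.re = 1 / 2 ∧ deriv riemannZeta ρ ≠ 0 := by
  have hL := lint_g hs (ab_bound hs hB h).1
  have h3 := rh hL h0 h1 h2
  refine ⟨h3, ?_⟩
  have h4 := simple_G hs hB h ρ.im (by rw [Pool.Agent.Y853.HM.pt_of h3]; exact h0)
  rwa [Pool.Agent.Y853.HM.pt_of h3] at h4

theorem lower_G {ε : ℝ} (hε : 0 < ε) : ∀ᶠ δ : ℝ in 𝓝[>] (0 : ℝ), ∀ t : ℝ,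
    δ * ‖riemannZeta (2 * (pt t + δ))‖ ≤ (2 * B + ε) * q δ⁻¹ * ‖(pt t + δ) * riemannZeta (pt t + δ)‖ := by
  have hg := lint_g hs (ab_bound hs hB h).1
  have hsm : ∀ᶠ δ : ℝ in 𝓝[>] (0 : ℝ), δ < 1 / 2 :=
    (eventually_lt_nhds (by norm_num)).filter_mono nhdsWithin_le_nhds
  filter_upwards [self_mem_nhdsWithin, hsm, N_bound hs hB h hε] with δ hδ hδ1 hN t
  have hδ0 : (0 : ℝ) < δ := hδ
  have hne : pt t + (δ : ℂ) ≠ 1 := by
    intro h1
    have := congrArg Complex.re h1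
    rw [Complex.add_re, pt_re, Complex.ofReal_re, Complex.one_re] at this
    linarith
  have h0 : 0 < ‖pt t + (δ : ℂ) - 1‖ := norm_pos_iff.2 (sub_ne_zero.2 hne)
  have a1 := fund hs hB h hg t hδ0
  rw [zeta1_eq hne, norm_mul] at a1
  have a2 : ‖pt t + (δ : ℂ) - 1‖ * (δ * ‖riemannZeta (2 * (pt t + δ))‖) ≤ ‖pt t + (δ : ℂ) - 1‖ *
      (N δ * ‖(pt t + (δ : ℂ)) * riemannZeta (pt t + δ)‖) := by
    refine le_trans (le_of_eq ?_) (a1.trans (le_of_eq ?_))
    · ring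
    · rw [norm_mul]
      ring
  exact (le_of_mul_le_mul_left a2 h0).trans (mul_le_mul_of_nonneg_right hN (norm_nonneg _))

theorem mean_G {ε : ℝ} (hε : 0 < ε) : ∀ᶠ x : ℝ in atTop,
    ∫ u in (1 : ℝ)..x, |Lx u| * u ^ (-(3 / 2) : ℝ) ≤
      (2 * Real.exp 1 * B + ε) * (Real.log x * Real.log (Real.log (Real.log x)) ^ (5 / 4 : ℝ)) := by
  have hg := lint_g hs (ab_bound hs hB h).1
  have hε1 : 0 < ε / Real.exp 1 := by positivity
  have hinv : Tendsto (fun V : ℝ => V⁻¹) atTop (𝓝[>] 0) := tendsto_inv_atTop_nhdsGT_zero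
  have h1 : ∀ᶠ V : ℝ in atTop, ∫ v in Ioc 0 V, |f v| ≤ (2 * Real.exp 1 * B + ε) * (V * q V) := by
    filter_upwards [hinv.eventually (N_bound hs hB h hε1), eventually_gt_atTop 0] with V hN hV
    rw [inv_inv] at hN
    have hi : IntegrableOn (fun v => |g v| * Real.exp (-((1 / 2 + V⁻¹) * v))) (Ioi 0) := by
      have := (hg (1 / 2 + V⁻¹) (by have := inv_pos.2 hV; linarith)).norm
      refine this.congr (Eventually.of_forall fun v => ?_)
      simp only []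
      rw [norm_mul, Real.norm_eq_abs, Real.norm_of_nonneg (Real.exp_pos _).le]
    have hfe : ∀ v, |g v| * Real.exp (-((1 / 2 + V⁻¹) * v)) = |f v| * Real.exp (-(V⁻¹ * v)) := by
      intro v
      unfold f g
      rw [abs_mul, abs_of_pos (Real.exp_pos _), mul_assoc, ← Real.exp_add]
      congr 2
      ring
    have hNe : N V⁻¹ = V⁻¹ * ∫ v in Ioi (0 : ℝ), |f v| * Real.exp (-(V⁻¹ * v)) := by
      unfold N lap
      simp only [hfe]
    simp only [hfe] at hi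
    have h2 : ∫ v in Ioc 0 V, |f v| ≤ ∫ v in Ioc 0 V, Real.exp 1 * (|f v| * Real.exp (-(V⁻¹ * v))) := by
      refine integral_mono_of_nonneg (Eventually.of_forall fun v => abs_nonneg _)
        ((hi.mono_set Ioc_subset_Ioi_self).const_mul _) ?_
      filter_upwards [ae_restrict_mem measurableSet_Ioc] with v hv
      have h3 : 1 ≤ Real.exp 1 * Real.exp (-(V⁻¹ * v)) := by
        rw [← Real.exp_add]
        apply Real.one_le_exp
        have : V⁻¹ * v ≤ 1 := by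
          rw [inv_mul_le_iff₀ hV]
          linarith [hv.2]
        linarith
      have h4 := mul_le_mul_of_nonneg_left h3 (abs_nonneg (f v))
      linarith
    have h5 : ∫ v in Ioc 0 V, |f v| * Real.exp (-(V⁻¹ * v)) ≤
        ∫ v in Ioi (0 : ℝ), |f v| * Real.exp (-(V⁻¹ * v)) :=
      setIntegral_mono_set hi (Eventually.of_forall fun v => mul_nonneg (abs_nonneg _) (Real.exp_pos _).le)
        (Ioc_subset_Ioi_self).eventuallyLE
    rw [integral_const_mul] at h2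
    have h6 : ∫ v in Ioi (0 : ℝ), |f v| * Real.exp (-(V⁻¹ * v)) = V * N V⁻¹ := by
      rw [hNe]
      field_simp
    rw [h6] at h5
    have h7 : Real.exp 1 * (V * N V⁻¹) ≤ Real.exp 1 * (V * ((2 * B + ε / Real.exp 1) * q V)) := by
      gcongr
    calc ∫ v in Ioc 0 V, |f v| ≤ _ := h2
      _ ≤ Real.exp 1 * (V * N V⁻¹) := mul_le_mul_of_nonneg_left h5 (Real.exp_pos 1).le
      _ ≤ _ := h7
      _ = _ := by
        field_simp
  filter_upwards [Real.tendsto_log_atTop.eventually h1, eventually_gt_atTop 1] with x hx hx1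
  have hl : 0 < Real.log x := Real.log_pos hx1
  rw [cv one_pos hx1.le, Real.log_one, intervalIntegral.integral_of_le hl.le]
  refine le_trans (le_of_eq ?_) hx
  refine setIntegral_congr_fun measurableSet_Ioc fun v _ => ?_
  show Real.exp v * (|Lx (Real.exp v)| * (Real.exp v) ^ (-(3 / 2) : ℝ)) = |f v|
  unfold f
  rw [← Real.exp_mul, abs_mul, abs_of_pos (Real.exp_pos _), mul_left_comm, ← Real.exp_add]
  congr 2
  ring

end

end Pool.Agent.Y853.HML
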