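import Pool.Agent.Y853.HM.Low
import Pool.Agent.W120.WM.Lim

set_option autoImplicit false

/-! One-sided weak Mertens bounds: assembly. -/

namespace Pool.Agent.Y853.HM

open Filter Topology Set MeasureTheory
open Pool.Agent.W263.BSD Pool.Agent.W120.WM
open Pool.Agent.H295R2 (JW)

/-- change of variables -/
theorem cv {a b : ℝ} (ha : 0 < a) (hab : a ≤ b) (g : ℝ → ℝ) :
    ∫ x in a..b, g x = ∫ u in (Real.log a)..(Real.log b), Real.exp u * g (Real.exp u) := by
  have hb : 0 < b := by linarith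
  have hl : Real.log a ≤ Real.log b := Real.log_le_log ha hab
  rw [intervalIntegral.integral_of_le hab, intervalIntegral.integral_of_le hl]
  have h := integral_image_eq_integral_abs_deriv_smul (s := Ioc (Real.log a) (Real.log b))
    (f := Real.exp) (f' := Real.exp) measurableSet_Ioc
    (fun x _ => (Real.hasDerivAt_exp x).hasDerivWithinAt) (Real.exp_injective.injOn) g
  have himg : Real.exp '' Ioc (Real.log a) (Real.log b) = Ioc a b := by
    ext y
    simp only [mem_image, mem_Ioc]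
    constructor
    · rintro ⟨x, ⟨h1, h2⟩, rfl⟩
      exact ⟨(Real.log_lt_iff_lt_exp ha).1 h1, (Real.le_log_iff_exp_le hb).1 h2⟩
    · rintro ⟨h1, h2⟩
      have hy : 0 < y := ha.trans h1
      exact ⟨Real.log y, ⟨Real.log_lt_log ha h1, Real.log_le_log hy h2⟩, Real.exp_log hy⟩
  rw [himg] at h
  rw [h]
  apply setIntegral_congr_fun measurableSet_Ioc
  intro u _
  simp only []
  rw [abs_of_pos (Real.exp_pos u), smul_eq_mul]

theorem cv_sq (φ : ℝ → ℝ) (hφ : ∀ c x : ℝ, 0 < c → φ (x * c) = φ x * c) {w : ℝ} (hw : 0 < w) :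
    ∫ u in (1 : ℝ)..(Real.exp w), (φ (Mx u) / u) ^ 2 = ∫ v in Ioc 0 w, φ (f v) ^ 2 := by
  rw [cv one_pos (Real.one_le_exp hw.le), Real.log_one, Real.log_exp,
    intervalIntegral.integral_of_le hw.le]
  refine setIntegral_congr_fun measurableSet_Ioc fun v _ => ?_
  show Real.exp v * (φ (Mx (Real.exp v)) / Real.exp v) ^ 2 = φ (f v) ^ 2
  unfold f
  rw [hφ _ _ (Real.exp_pos _), div_pow, mul_pow, ← Real.exp_nat_mul, ← Real.exp_nat_mul]
  rw [show ((2 : ℕ) : ℝ) * (-(v / 2)) = -v by push_cast; ring, Real.exp_neg]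
  rw [show ((2 : ℕ) : ℝ) * v = v + v by push_cast; ring, Real.exp_add]
  have := (Real.exp_pos v).ne'
  field_simp

theorem f_sq (v : ℝ) : f v ^ 2 = ff v := by
  unfold f ff
  rw [mul_pow, ← Real.exp_nat_mul, show ((2 : ℕ) : ℝ) * (-(v / 2)) = -v by push_cast; ring]

theorem loc {k : ℝ → ℝ} (hk0 : ∀ v, 0 ≤ k v) (hkm : Measurable k) (hk : ∀ v, k v ≤ f v ^ 2) (V : ℝ) :
    IntegrableOn k (Ioc 0 V) := by
  refine (ff_int V).mono' hkm.aestronglyMeasurable (Eventually.of_forall fun v => ?_)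
  rw [Real.norm_of_nonneg (hk0 v), ← f_sq]
  exact hk v

theorem all_of_ev {k : ℝ → ℝ} (hk0 : ∀ v, 0 ≤ k v) (hloc : ∀ V : ℝ, IntegrableOn k (Ioc 0 V)) {C : ℝ}
    (hC : 0 < C) (h : ∀ᶠ w in atTop, ∫ v in Ioc (0 : ℝ) w, k v ≤ C * w) :
    ∃ D : ℝ, 0 ≤ D ∧ ∀ w : ℝ, 0 < w → ∫ v in Ioc 0 w, k v ≤ C * w + D := by
  obtain ⟨w0, hw0⟩ := eventually_atTop.1 h
  refine ⟨∫ v in Ioc 0 w0, k v, setIntegral_nonneg measurableSet_Ioc fun v _ => hk0 v, fun w hw => ?_⟩
  rcases le_total w0 w with h1 | h1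
  · have h2 := hw0 w h1
    have h3 : 0 ≤ ∫ v in Ioc 0 w0, k v := setIntegral_nonneg measurableSet_Ioc fun v _ => hk0 v
    linarith
  · have h3 : ∫ v in Ioc 0 w, k v ≤ ∫ v in Ioc 0 w0, k v :=
      setIntegral_mono_set (hloc w0) (Eventually.of_forall fun v => hk0 v)
        (Ioc_subset_Ioc_right h1).eventuallyLE
    have : 0 ≤ C * w := by positivity
    linarith

/-- each half of the weak Mertens bound -/
theorem half_sq {s C : ℝ} (hs : s = 1 ∨ s = -1) (hC : 0 < C)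
    (h : ∀ᶠ x : ℝ in atTop, ∫ u in (1 : ℝ)..x, (max (s * Mx u) 0 / u) ^ 2 ≤ C * Real.log x) :
    lowerMean s ≤ ENNReal.ofReal (Real.sqrt C) := by
  have hk : ∀ v, max (s * f v) 0 ^ 2 ≤ f v ^ 2 := by
    intro v
    rcases hs with rfl | rfl
    · rcases le_total 0 (f v) with h4 | h4
      · rw [max_eq_left (by linarith)]; nlinarith
      · rw [max_eq_right (by linarith)]; nlinarith
    · rcases le_total 0 (f v) with h4 | h4
      · rw [max_eq_right (by linarith)]; nlinarith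
      · rw [max_eq_left (by linarith)]; nlinarith
  have hkm : Measurable fun v => max (s * f v) 0 ^ 2 := ((f_meas.const_mul s).max measurable_const).pow_const 2
  have hloc := loc (fun v => sq_nonneg _) hkm hk
  have h1 : ∀ᶠ w : ℝ in atTop, ∫ v in Ioc (0 : ℝ) w, max (s * f v) 0 ^ 2 ≤ C * w := by
    filter_upwards [Real.tendsto_exp_atTop.eventually h, eventually_gt_atTop 0] with w hw hw0
    rw [Real.log_exp, cv_sq (fun x => max (s * x) 0) (fun c x hc => by
      rw [← mul_assoc, max_mul_of_nonneg _ _ hc.le, zero_mul]) hw0] at hw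
    exact hw
  obtain ⟨D, hD, h2⟩ := all_of_ev (fun v => sq_nonneg _) hloc hC h1
  refine ENNReal.le_of_forall_pos_le_add fun ε hε _ => ?_
  have h3 := sq_bound (p := fun v => max (s * f v) 0) (fun v => sq_nonneg _) hkm hloc (fun v => le_rfl)
    hC hD h2 (show (0 : ℝ) < ε by exact_mod_cast hε)
  rw [ENNReal.ofReal_add (Real.sqrt_nonneg _) (by positivity), ENNReal.ofReal_coe_nnreal] at h3
  exact liminf_le_of_frequently_le h3.frequently (by isBoundedDefault)

/-- one-sided bounds for the mean -/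
theorem half_L1 {s C : ℝ} (hs : s = 1 ∨ s = -1) (hC : 0 < C)
    (h : ∀ᶠ x : ℝ in atTop, ∫ u in (1 : ℝ)..x, max (s * Mx u) 0 * u ^ (-(3 / 2) : ℝ) ≤ C * Real.log x) :
    lowerMean s ≤ ENNReal.ofReal C := by
  have hk0 : ∀ v, 0 ≤ max (s * f v) 0 := fun v => le_max_right _ _
  have hkm : Measurable fun v => max (s * f v) 0 := (f_meas.const_mul s).max measurable_const
  have hloc : ∀ V : ℝ, IntegrableOn (fun v => max (s * f v) 0) (Ioc 0 V) := by
    intro V
    have h1 : IntegrableOn (fun v => ff v + 1) (Ioc 0 V) :=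
      (ff_int V).add (integrableOn_const (by simp))
    refine h1.mono' hkm.aestronglyMeasurable (Eventually.of_forall fun v => ?_)
    rw [Real.norm_of_nonneg (hk0 v), ← f_sq]
    refine max_le ?_ (by positivity)
    rcases hs with rfl | rfl
    · nlinarith [sq_nonneg (f v - 1)]
    · nlinarith [sq_nonneg (f v + 1)]
  have hcv : ∀ w : ℝ, 0 < w → ∫ u in (1 : ℝ)..(Real.exp w), max (s * Mx u) 0 * u ^ (-(3 / 2) : ℝ) =
      ∫ v in Ioc 0 w, max (s * f v) 0 := by
    intro w hw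
    rw [cv one_pos (Real.one_le_exp hw.le), Real.log_one, Real.log_exp,
      intervalIntegral.integral_of_le hw.le]
    refine setIntegral_congr_fun measurableSet_Ioc fun v _ => ?_
    show Real.exp v * (max (s * Mx (Real.exp v)) 0 * (Real.exp v) ^ (-(3 / 2) : ℝ)) = max (s * f v) 0
    unfold f
    rw [← mul_assoc s, ← Real.exp_mul]
    have h2 : max (s * Mx (Real.exp v) * Real.exp (-(v / 2))) 0 =
        max (s * Mx (Real.exp v)) 0 * Real.exp (-(v / 2)) := by
      rw [max_mul_of_nonneg _ _ (Real.exp_pos _).le, zero_mul]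
    rw [h2, mul_left_comm, ← Real.exp_add]
    congr 2
    ring
  have h1 : ∀ᶠ w : ℝ in atTop, ∫ v in Ioc (0 : ℝ) w, max (s * f v) 0 ≤ C * w := by
    filter_upwards [Real.tendsto_exp_atTop.eventually h, eventually_gt_atTop 0] with w hw hw0
    rw [Real.log_exp, hcv w hw0] at hw
    exact hw
  obtain ⟨D, hD, h2⟩ := all_of_ev hk0 hloc hC h1
  refine ENNReal.le_of_forall_pos_le_add fun ε hε _ => ?_
  have hε' : (0 : ℝ) < ε := by exact_mod_cast hε
  have hlim : Tendsto (fun δ : ℝ => C + δ * D) (𝓝[>] 0) (𝓝 (C + 0 * D)) := by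
    have : Continuous fun δ : ℝ => C + δ * D := by fun_prop
    exact (this.tendsto 0).mono_left nhdsWithin_le_nhds
  rw [zero_mul, add_zero] at hlim
  have h3 : ∀ᶠ δ in 𝓝[>] (0 : ℝ), abelMean s δ ≤ ENNReal.ofReal C + ε := by
    filter_upwards [self_mem_nhdsWithin, hlim.eventually_lt_const (show C < C + ε by linarith)] with δ hδ hδ2
    have hδ0 : 0 < δ := hδ
    unfold abelMean
    refine (mul_le_mul_right (abel_le hk0 hkm hloc hC hD h2 hδ0) _).trans ?_
    rw [← ENNReal.ofReal_mul hδ0.le, ← ENNReal.ofReal_coe_nnreal, ← ENNReal.ofReal_add hC.le hε'.le]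
    refine ENNReal.ofReal_le_ofReal ?_
    refine le_trans (le_of_eq ?_) hδ2.le
    field_simp
  exact liminf_le_of_frequently_le h3.frequently (by isBoundedDefault)

/-- the weak Mertens bound -/
theorem full_sq {C : ℝ} (hC : 0 < C)
    (h : ∀ᶠ x : ℝ in atTop, ∫ u in (1 : ℝ)..x, (Mx u / u) ^ 2 ≤ C * Real.log x) :
    lowerMean 1 ≤ ENNReal.ofReal (Real.sqrt C / 2) := by
  have hkm : Measurable fun v => f v ^ 2 := f_meas.pow_const 2
  have hloc := loc (k := fun v => f v ^ 2) (fun v => sq_nonneg _) hkm (fun v => le_rfl)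
  have h1 : ∀ᶠ w : ℝ in atTop, ∫ v in Ioc (0 : ℝ) w, f v ^ 2 ≤ C * w := by
    filter_upwards [Real.tendsto_exp_atTop.eventually h, eventually_gt_atTop 0] with w hw hw0
    rw [Real.log_exp, cv_sq (fun x => x) (fun c x hc => rfl) hw0] at hw
    exact hw
  have h1' : ∀ᶠ x : ℝ in atTop, ∫ u in (1 : ℝ)..x, (max (1 * Mx u) 0 / u) ^ 2 ≤ C * Real.log x := by
    filter_upwards [Real.tendsto_log_atTop.eventually h1, eventually_gt_atTop 1] with x hx hx0
    have hl : 0 < Real.log x := Real.log_pos hx0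
    have h3 := cv_sq (fun x => max (1 * x) 0) (fun c x hc => by
      rw [← mul_assoc, max_mul_of_nonneg _ _ hc.le, zero_mul]) hl
    rw [Real.exp_log (by linarith)] at h3
    rw [h3]
    refine le_trans ?_ hx
    have hkm2 : Measurable fun v => max (1 * f v) 0 ^ 2 := ((f_meas.const_mul 1).max measurable_const).pow_const 2
    have hk : ∀ v, max (1 * f v) 0 ^ 2 ≤ f v ^ 2 := by
      intro v
      rcases le_total 0 (f v) with h4 | h4
      · rw [max_eq_left (by linarith)]; nlinarith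
      · rw [max_eq_right (by linarith)]; nlinarith
    exact setIntegral_mono_on (loc (fun v => sq_nonneg _) hkm2 hk _) (hloc _) measurableSet_Ioc fun v _ => hk v
  have hne : lowerMean 1 ≠ ⊤ := ((half_sq (Or.inl rfl) hC h1').trans_lt ENNReal.ofReal_lt_top).ne
  have hL := lint_all hne
  have hz := zero_lim (lint_g (Or.inl rfl) hL)
  obtain ⟨D, hD, h2⟩ := all_of_ev (fun v => sq_nonneg _) hloc hC h1
  refine ENNReal.le_of_forall_pos_le_add fun ε hε _ => ?_
  have hε' : (0 : ℝ) < ε := by exact_mod_cast hε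
  have h3 := sq_bound (p := fun v => |f v|) (fun v => sq_nonneg _) hkm hloc (fun v => (sq_abs _).le) hC hD h2
    (show (0 : ℝ) < (ε : ℝ) by exact_mod_cast hε)
  have h4 : ∀ᶠ δ : ℝ in 𝓝[>] (0 : ℝ), |δ * lap g (1 / 2 + δ)| < (ε : ℝ) / 3 := by
    have := hz.abs
    rw [abs_zero] at this
    exact this.eventually_lt_const (by positivity)
  have h5 : ∀ᶠ δ in 𝓝[>] (0 : ℝ), abelMean 1 δ ≤ ENNReal.ofReal (Real.sqrt C / 2) + ε := by
    filter_upwards [h3, h4, self_mem_nhdsWithin] with δ h6 h7 hδ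
    have hδ0 : 0 < δ := hδ
    have h8 := hL (1 / 2 + δ) (by linarith)
    obtain ⟨h9, h10⟩ := ab_add (Or.inl rfl) hL hδ0
    have h11 := lint_g (Or.inl rfl) hL (1 / 2 + δ) (by linarith)
    have h12 : ENNReal.ofReal δ * ∫⁻ v in Ioi (0 : ℝ), ENNReal.ofReal (|f v| * Real.exp (-(δ * v))) =
        ENNReal.ofReal (N δ) := by
      unfold N lap
      rw [ENNReal.ofReal_mul hδ0.le]
      congr 1
      have hi : IntegrableOn (fun v => |g v| * Real.exp (-((1 / 2 + δ) * v))) (Ioi 0) := by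
        have := h11.norm
        refine this.congr (Eventually.of_forall fun v => ?_)
        simp only []
        rw [norm_mul, Real.norm_eq_abs, Real.norm_of_nonneg (Real.exp_pos _).le]
      rw [ofReal_integral_eq_lintegral_ofReal hi (Eventually.of_forall fun v => by positivity)]
      refine lintegral_congr fun v => ?_
      congr 1
      unfold f g
      rw [abs_mul, abs_of_pos (Real.exp_pos _), mul_assoc, ← Real.exp_add]
      congr 2
      ring
    rw [h12] at h6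
    have h13 : N δ ≤ Real.sqrt C + ε := by
      rwa [ENNReal.ofReal_le_ofReal_iff (by positivity)] at h6
    have h14 := (abs_lt.1 h7).2
    rw [abelMean_eq hδ0 h8, ← ENNReal.ofReal_coe_nnreal, ← ENNReal.ofReal_add (by positivity) hε'.le]
    refine ENNReal.ofReal_le_ofReal ?_
    rw [h9, h10] at h13
    linarith
  exact liminf_le_of_frequently_le h5.frequently (by isBoundedDefault)

/-- the positive ordinates of the zeros on the critical line -/
def Ord : Set ℝ := {y | 0 < y ∧ riemannZeta (pt y) = 0}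

theorem pt_of {ρ : ℂ} (h : ρ.re = 1 / 2) : pt ρ.im = ρ := by
  apply Complex.ext
  · rw [pt_re, h]
  · simp [pt]

section
variable (hA : lowerMean 1 ≠ ⊤)
include hA

theorem zeros_A {ρ : ℂ} (hρ : ρ ∈ NT) : ρ.re = 1 / 2 ∧ deriv riemannZeta ρ ≠ 0 := by
  have hL := lint_g (Or.inl rfl) (lint_all hA)
  have h1 := rh hL hρ.1 hρ.2.1 hρ.2.2
  refine ⟨h1, ?_⟩
  have h2 := simple hL (N_freq (Or.inl rfl) hA one_pos) ρ.im (by rw [pt_of h1]; exact hρ.1)
  rwa [pt_of h1] at h2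

theorem simple_A (t : ℝ) (h : riemannZeta (pt t) = 0) : deriv riemannZeta (pt t) ≠ 0 :=
  simple (lint_g (Or.inl rfl) (lint_all hA)) (N_freq (Or.inl rfl) hA one_pos) t h

theorem dual_A (T : Finset ℝ) (q : ℝ → ℂ) {B : ℝ} (hB : ∀ v, ‖∑ t ∈ T, q t * ee t v‖ ≤ B) :
    ‖∑ t ∈ T, q t * cf t‖ ≤ 2 * (lowerMean 1).toReal * B := by
  have hL := lint_g (Or.inl rfl) (lint_all hA)
  have h1 : HM (fun v => ∑ t ∈ T, q t * ee t v) (∑ t ∈ T, q t * cf t) :=
    HM.sum hL T fun t _ => (HM_ee hL t (simple_A hA t)).const_mul _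
  have h2 := h1.bound hL hB (fun ε hε => N_freq (Or.inl rfl) hA hε)
  linarith

theorem riesz_A {E : Finset ℝ} (hE : NoOdd (E : Set ℝ)) :
    ∑ y ∈ E, ‖cf y‖ ^ 2 ≤ 4 * Real.exp 1 * (lowerMean 1).toReal ^ 2 := by
  have hL := lint_g (Or.inl rfl) (lint_all hA)
  have h2 := riesz_sq hL (simple_A hA) hE (fun ε hε => N_freq (Or.inl rfl) hA hε)
  linarith

theorem cf_norm {y : ℝ} (h : riemannZeta (pt y) = 0) : ‖cf y‖ ^ 2 = 1 / ‖pt y * deriv riemannZeta (pt y)‖ ^ 2 := by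
  unfold cf
  rw [if_pos h, norm_div, norm_one, div_pow, one_pow]

theorem sum_A (hN : NoOdd Ord) (Z : Finset ℂ) (hZ : ∀ ρ ∈ Z, ρ ∈ NT) :
    ∑ ρ ∈ Z, 1 / ‖ρ * deriv riemannZeta ρ‖ ^ 2 ≤ 8 * Real.exp 1 * (lowerMean 1).toReal ^ 2 := by
  classical
  have hL := lint_g (Or.inl rfl) (lint_all hA)
  have hzero : riemannZeta (pt 0) ≠ 0 := by
    have := Pool.Agent.Y21.FW.real_ne (x := 1 / 2) (by norm_num) (by norm_num)
    unfold pt
    push_cast at this
    simpa using this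
  have hterm : ∀ ρ ∈ Z, 1 / ‖ρ * deriv riemannZeta ρ‖ ^ 2 = ‖cf ρ.im‖ ^ 2 ∧ ρ.im ≠ 0 ∧ riemannZeta (pt ρ.im) = 0 := by
    intro ρ hρ
    have h1 := zeros_A hA (hZ ρ hρ)
    have h2 := pt_of h1.1
    have h3 : riemannZeta (pt ρ.im) = 0 := by rw [h2]; exact (hZ ρ hρ).1
    refine ⟨?_, ?_, h3⟩
    · rw [cf_norm hA h3, h2]
    · intro h4
      rw [h4] at h3
      exact hzero h3
  have hinj : Set.InjOn Complex.im (Z : Set ℂ) := by
    intro a ha b hb hab
    apply Complex.ext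
    · rw [(zeros_A hA (hZ a ha)).1, (zeros_A hA (hZ b hb)).1]
    · exact hab
  set E : Finset ℝ := (Z.image Complex.im).filter (fun y => 0 < y) with hE
  set E' : Finset ℝ := ((Z.image Complex.im).filter (fun y => y < 0)).image (fun y => -y) with hE'
  have hm : ∀ y ∈ Z.image Complex.im, y ≠ 0 ∧ riemannZeta (pt y) = 0 := by
    intro y hy
    rw [Finset.mem_image] at hy
    obtain ⟨ρ, hρ, rfl⟩ := hy
    exact (hterm ρ hρ).2
  have hEs : (E : Set ℝ) ⊆ Ord := by
    intro y hy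
    have hy' : y ∈ E := hy
    rw [hE, Finset.mem_filter] at hy'
    exact ⟨hy'.2, (hm y hy'.1).2⟩
  have hE's : (E' : Set ℝ) ⊆ Ord := by
    intro y hy
    have hy' : y ∈ E' := hy
    rw [hE', Finset.mem_image] at hy'
    obtain ⟨x, hx, rfl⟩ := hy'
    rw [Finset.mem_filter] at hx
    refine ⟨by linarith [hx.2], ?_⟩
    have h1 := Pool.Agent.Y21.FW.zeta_conj_zero (pt_ne_one x) (hm x hx.1).2
    have h2 : (starRingEnd ℂ) (pt x) = pt (-x) := by
      apply Complex.ext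
      · simp [pt]
      · simp [pt]
    rwa [h2] at h1
  have hmono : ∀ {A B : Set ℝ}, A ⊆ B → NoOdd B → NoOdd A := fun hAB h S σ hS h1 h2 h3 =>
    h S σ (hS.trans hAB) h1 h2 h3
  have r1 := riesz_A hA (hmono hEs hN)
  have r2 := riesz_A hA (hmono hE's hN)
  have e1 : ∑ ρ ∈ Z, 1 / ‖ρ * deriv riemannZeta ρ‖ ^ 2 = ∑ y ∈ Z.image Complex.im, ‖cf y‖ ^ 2 := by
    rw [Finset.sum_image hinj]
    exact Finset.sum_congr rfl fun ρ hρ => (hterm ρ hρ).1
  have e2 : ∑ y ∈ Z.image Complex.im, ‖cf y‖ ^ 2 = (∑ y ∈ E, ‖cf y‖ ^ 2) +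
      ∑ y ∈ (Z.image Complex.im).filter (fun y => y < 0), ‖cf y‖ ^ 2 := by
    rw [← Finset.sum_filter_add_sum_filter_not (Z.image Complex.im) (fun y => 0 < y)]
    congr 1
    refine Finset.sum_congr ?_ fun _ _ => rfl
    ext y
    simp only [Finset.mem_filter]
    constructor
    · rintro ⟨h1, h2⟩
      exact ⟨h1, lt_of_le_of_ne (not_lt.1 h2) (hm y h1).1⟩
    · rintro ⟨h1, h2⟩
      exact ⟨h1, not_lt.2 h2.le⟩
  have e3 : ∑ y ∈ (Z.image Complex.im).filter (fun y => y < 0), ‖cf y‖ ^ 2 = ∑ y ∈ E', ‖cf y‖ ^ 2 := by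
    rw [hE', Finset.sum_image (fun a _ b _ hab => neg_injective hab)]
    refine Finset.sum_congr rfl fun y _ => ?_
    rw [cf_neg hL (simple_A hA), Complex.norm_conj]
  rw [e1, e2, e3]
  linarith

theorem ZC_A (hN : NoOdd Ord) : ZC ∧
    ∑' ρ : NT, 1 / ‖(ρ : ℂ) * deriv riemannZeta ρ‖ ^ 2 ≤ 8 * Real.exp 1 * (lowerMean 1).toReal ^ 2 := by
  have h3 : ∀ u : Finset NT, ∑ ρ ∈ u, 1 / ‖(ρ : ℂ) * deriv riemannZeta ρ‖ ^ 2 ≤
      8 * Real.exp 1 * (lowerMean 1).toReal ^ 2 := by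
    intro u
    have h4 := sum_A hA hN (u.map (Function.Embedding.subtype _)) (fun ρ hρ => by
      rw [Finset.mem_map] at hρ
      obtain ⟨ρ', -, rfl⟩ := hρ
      exact ρ'.2)
    rwa [Finset.sum_map] at h4
  exact ⟨⟨fun ρ hρ => zeros_A hA hρ, summable_of_sum_le (fun ρ => by positivity) h3⟩,
    Real.tsum_le_of_sum_le (fun ρ => by positivity) h3⟩

end

theorem limit_A (hA : lowerMean 1 ≠ ⊤) (hN : NoOdd Ord) : ∃ L : ℝ,
    Tendsto (fun x : ℝ => (∫ u in (1 : ℝ)..x, (Mx u / u) ^ 2) / Real.log x) atTop (𝓝 L) ∧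
    4 * (lowerMean 1).toReal ^ 2 ≤ L ∧ L ≤ 8 * Real.exp 1 * (lowerMean 1).toReal ^ 2 := by
  obtain ⟨h1, h2⟩ := ZC_A hA hN
  have h3 := (final3 1 one_pos le_rfl).1 h1
  simp only [sub_self, Real.rpow_zero, one_mul] at h3
  obtain ⟨L, hL⟩ : ∃ L : ℝ, L = ∑' ρ : NT, 1 / ‖(ρ : ℂ) * deriv riemannZeta ρ‖ ^ 2 := ⟨_, rfl⟩
  rw [← hL] at h2 h3
  have hL0 : 0 ≤ L := by
    rw [hL]
    exact tsum_nonneg fun ρ => by positivity
  have h3' : Tendsto (fun x : ℝ => (∫ u in (1 : ℝ)..x, (Mx u / u) ^ 2) / Real.log x) atTop (𝓝 L) := h3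
  refine ⟨L, h3', ?_, h2⟩
  refine le_of_forall_pos_le_add fun ε hε => ?_
  have h4 : ∀ᶠ x : ℝ in atTop, ∫ u in (1 : ℝ)..x, (Mx u / u) ^ 2 ≤ (L + ε) * Real.log x := by
    filter_upwards [h3'.eventually_lt_const (show L < L + ε by linarith), eventually_gt_atTop 1] with x hx hx1
    exact ((div_lt_iff₀ (Real.log_pos hx1)).1 hx).le
  have h5 := full_sq (show 0 < L + ε by linarith) h4
  have h6 := (ENNReal.toReal_mono ENNReal.ofReal_ne_top h5)
  rw [ENNReal.toReal_ofReal (by positivity)] at h6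
  have h7 : 0 ≤ (lowerMean 1).toReal := ENNReal.toReal_nonneg
  have h8 := Real.sq_sqrt (show 0 ≤ L + ε by linarith)
  nlinarith [Real.sqrt_nonneg (L + ε)]

/-- the weak Mertens hypothesis -/
def WM : Prop := ∃ C : ℝ, ∀ x : ℝ, 2 ≤ x → ∫ u in (1 : ℝ)..x, (Mx u / u) ^ 2 ≤ C * Real.log x

theorem WM_ne (h : WM) : lowerMean 1 ≠ ⊤ := by
  obtain ⟨C, hC⟩ := h
  have h1 : ∀ᶠ x : ℝ in atTop, ∫ u in (1 : ℝ)..x, (Mx u / u) ^ 2 ≤ (|C| + 1) * Real.log x := by
    filter_upwards [eventually_ge_atTop 2] with x hx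
    refine (hC x hx).trans ?_
    refine mul_le_mul_of_nonneg_right ?_ (Real.log_nonneg (by linarith))
    linarith [le_abs_self C]
  exact ((full_sq (by positivity) h1).trans_lt ENNReal.ofReal_lt_top).ne

/-- a half of the weak Mertens hypothesis -/
def Half (s : ℝ) : Prop := ∃ C : ℝ, ∀ x : ℝ, 2 ≤ x →
  ∫ u in (1 : ℝ)..x, (max (s * Mx u) 0 / u) ^ 2 ≤ C * Real.log x

theorem half_le {s : ℝ} (hs : s = 1 ∨ s = -1) {x : ℝ} (hx : 1 < x) :
    ∫ u in (1 : ℝ)..x, (max (s * Mx u) 0 / u) ^ 2 ≤ ∫ u in (1 : ℝ)..x, (Mx u / u) ^ 2 := by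
  have hl : 0 < Real.log x := Real.log_pos hx
  have h3 := cv_sq (fun x => max (s * x) 0) (fun c x hc => by
    rw [← mul_assoc, max_mul_of_nonneg _ _ hc.le, zero_mul]) hl
  have h4 := cv_sq (fun x => x) (fun c x hc => rfl) hl
  rw [Real.exp_log (by linarith)] at h3 h4
  rw [h3, h4]
  have hkm2 : Measurable fun v => max (s * f v) 0 ^ 2 := ((f_meas.const_mul s).max measurable_const).pow_const 2
  have hk : ∀ v, max (s * f v) 0 ^ 2 ≤ f v ^ 2 := by
    intro v
    rcases hs with rfl | rfl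
    · rcases le_total 0 (f v) with h4 | h4
      · rw [max_eq_left (by linarith)]; nlinarith
      · rw [max_eq_right (by linarith)]; nlinarith
    · rcases le_total 0 (f v) with h4 | h4
      · rw [max_eq_right (by linarith)]; nlinarith
      · rw [max_eq_left (by linarith)]; nlinarith
  exact setIntegral_mono_on (loc (fun v => sq_nonneg _) hkm2 hk _)
    (loc (fun v => sq_nonneg _) (f_meas.pow_const 2) (fun v => le_rfl) _) measurableSet_Ioc fun v _ => hk v

theorem WM_half (h : WM) {s : ℝ} (hs : s = 1 ∨ s = -1) : Half s := by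
  obtain ⟨C, hC⟩ := h
  exact ⟨C, fun x hx => (half_le hs (by linarith)).trans (hC x hx)⟩

theorem half_ne {s : ℝ} (hs : s = 1 ∨ s = -1) (h : Half s) : lowerMean 1 ≠ ⊤ := by
  obtain ⟨C, hC⟩ := h
  have h1 : ∀ᶠ x : ℝ in atTop, ∫ u in (1 : ℝ)..x, (max (s * Mx u) 0 / u) ^ 2 ≤ (|C| + 1) * Real.log x := by
    filter_upwards [eventually_ge_atTop 2] with x hx
    refine (hC x hx).trans ?_
    refine mul_le_mul_of_nonneg_right ?_ (Real.log_nonneg (by linarith))
    linarith [le_abs_self C]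
  have h2 := ((half_sq hs (by positivity) h1).trans_lt ENNReal.ofReal_lt_top).ne
  rcases hs with rfl | rfl
  · exact h2
  · rw [low_eq]; exact h2

theorem coef_A (hA : lowerMean 1 ≠ ⊤) {ρ : ℂ} (hρ : ρ ∈ NT) :
    1 / ‖ρ * deriv riemannZeta ρ‖ ≤ 2 * (lowerMean 1).toReal := by
  have h1 := zeros_A hA hρ
  have h2 := pt_of h1.1
  have h3 := dual_A hA {ρ.im} (fun _ => 1) (B := 1) (fun v => by
    rw [Finset.sum_singleton, one_mul, ee_norm])
  rw [Finset.sum_singleton, one_mul, mul_one] at h3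
  unfold cf at h3
  rw [if_pos (by rw [h2]; exact hρ.1), norm_div, norm_one, h2] at h3
  exact h3

theorem WM_of (hA : lowerMean 1 ≠ ⊤) (hN : NoOdd Ord) : WM := by
  obtain ⟨K, -, -, h⟩ := final2 sharpT
  exact (h.out 0 2).2 (ZC_A hA hN).1

theorem LI_NoOdd (h : LinearIndependent ℚ (fun y : Ord => (y : ℝ))) : NoOdd Ord := by
  classical
  intro S σ hS hσ _ h3 hz
  set τ : ℝ := ∑ y ∈ S, σ y * y with hτ
  have hzero : riemannZeta (pt 0) ≠ 0 := by
    have := Pool.Agent.Y21.FW.real_ne (x := 1 / 2) (by norm_num) (by norm_num)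
    unfold pt
    push_cast at this
    simpa using this
  have hτ0 : τ ≠ 0 := by
    intro h0
    rw [h0] at hz
    exact hzero hz
  obtain ⟨e, y', he, hy', hey⟩ : ∃ (e : ℚ) (y' : ℝ), (e = 1 ∨ e = -1) ∧ y' ∈ Ord ∧ (e : ℝ) * y' = τ := by
    rcases lt_or_gt_of_ne hτ0 with h4 | h4
    · refine ⟨-1, -τ, Or.inr rfl, ⟨by linarith, ?_⟩, by push_cast; ring⟩
      have h1 := Pool.Agent.Y21.FW.zeta_conj_zero (pt_ne_one τ) hz
      have h2 : (starRingEnd ℂ) (pt τ) = pt (-τ) := by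
        apply Complex.ext
        · simp [pt]
        · simp [pt]
      rwa [h2] at h1
    · exact ⟨1, τ, Or.inl rfl, ⟨h4, hz⟩, by push_cast; ring⟩
  obtain ⟨q, hq, hq0⟩ : ∃ q : ℝ → ℚ, (∀ y, (q y : ℝ) = σ y) ∧ ∀ y, q y ≠ 0 := by
    refine ⟨fun y => if σ y = 1 then 1 else -1, fun y => ?_, fun y => ?_⟩
    · show ((if σ y = 1 then (1 : ℚ) else -1 : ℚ) : ℝ) = σ y
      rcases hσ y with h5 | h5
      · rw [if_pos h5, h5]
        norm_num
      · have h6 : ¬ σ y = 1 := by rw [h5]; norm_num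
        rw [if_neg h6, h5]
        norm_num
    · by_cases h5 : σ y = 1
      · simp [h5]
      · simp [h5]
  set T : Finset ℝ := insert y' S with hT
  have hTO : ∀ y ∈ T, y ∈ Ord := by
    intro y hy
    rw [hT, Finset.mem_insert] at hy
    rcases hy with rfl | hy
    · exact hy'
    · exact hS hy
  have hsum : ∑ y ∈ T.subtype (fun y => y ∈ Ord), ((if (y : ℝ) ∈ S then q y else 0) - (if (y : ℝ) = y' then e else 0)) •
      (y : ℝ) = 0 := by
    rw [Finset.sum_subtype_of_mem (fun y : ℝ => ((if y ∈ S then q y else 0) - (if y = y' then e else 0)) • y) hTO]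
    simp only [Rat.smul_def, Rat.cast_sub, sub_mul]
    rw [Finset.sum_sub_distrib]
    have e1 : ∑ y ∈ T, ((if y ∈ S then q y else 0 : ℚ) : ℝ) * y = τ := by
      rw [hτ, ← Finset.sum_subset (Finset.subset_insert y' S)]
      · refine Finset.sum_congr rfl fun y hy => ?_
        rw [if_pos hy, hq]
      · intro y _ hy
        rw [if_neg hy]
        simp
    have e2 : ∑ y ∈ T, ((if y = y' then e else 0 : ℚ) : ℝ) * y = τ := by
      rw [Finset.sum_eq_single y']
      · rw [if_pos rfl, hey]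
      · intro y _ hy
        rw [if_neg hy]
        simp
      · intro hy
        exact absurd (Finset.mem_insert_self y' S) hy
    rw [e1, e2, sub_self]
  have hlin := linearIndependent_iff'.1 h _ (fun y : Ord =>
    ((if (y : ℝ) ∈ S then q y else 0) - (if (y : ℝ) = y' then e else 0))) hsum
  obtain ⟨y, hy, hne⟩ : ∃ y ∈ S, y ≠ y' := Finset.exists_mem_ne (by omega) y'
  have h6 := hlin ⟨y, hS hy⟩ (by
    rw [Finset.mem_subtype]
    exact Finset.mem_insert_of_mem hy)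
  simp only at h6
  rw [if_pos hy, if_neg hne, sub_zero] at h6
  exact hq0 y h6

end Pool.Agent.Y853.HM
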