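import Pool.Agent.Y853.HM.Low
import Pool.Agent.H382R2.Zeta2

set_option autoImplicit false

/-! Inequalities near the critical line. -/

namespace Pool.Agent.Y853.HM

open Filter Topology Set MeasureTheory
open Pool.Agent.W263.BSD Pool.Agent.W120.WM

theorem fund (h : ∀ w > (1 / 2 : ℝ), LInt g w) (t : ℝ) {δ : ℝ} (hδ : 0 < δ) :
    ‖pt t + δ - 1‖ * δ ≤ ‖pt t + δ‖ * ‖riemannZeta₁ (pt t + δ)‖ * N δ := by
  have h1 := J_le (ee t) (B := 1) (fun v => (ee_norm t v).le) hδ (h _ (by linarith))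
  rw [J_ee, one_mul, norm_mul, Complex.norm_of_nonneg hδ.le] at h1
  rw [← ext_pt h t hδ, norm_mul, norm_mul]
  calc ‖pt t + ↑δ‖ * ‖riemannZeta₁ (pt t + ↑δ)‖ * ‖lapC g (pt t + ↑δ)‖ * δ
      = ‖pt t + ↑δ‖ * ‖riemannZeta₁ (pt t + ↑δ)‖ * (δ * ‖lapC g (pt t + ↑δ)‖) := by ring
    _ ≤ _ := mul_le_mul_of_nonneg_left h1 (by positivity)

theorem pt_sub (t : ℝ) : ‖pt t - 1‖ = ‖pt t‖ := by
  have : pt t - 1 = -(starRingEnd ℂ) (pt t) := by
    apply Complex.ext
    · simp [pt]; norm_num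
    · simp [pt]
  rw [this, norm_neg, Complex.norm_conj]

theorem taylor (t : ℝ) {δ : ℝ} (h0 : 0 ≤ δ) (h1 : δ ≤ 1 / 20) (hz : riemannZeta (pt t) = 0) :
    ‖riemannZeta₁ (pt t + δ)‖ ≤ δ * (‖pt t‖ * ‖deriv riemannZeta (pt t)‖) + 1100 * (‖pt t‖ + 2) ^ 2 * δ ^ 2 := by
  set c : ℂ := pt t with hc
  set M : ℝ := 11 * (‖c‖ + 2) ^ 2 with hM
  have hM0 : 0 ≤ M := by positivity
  have hre : ∀ z : ℂ, ‖z - c‖ ≤ 3 / 10 → 1 / 10 ≤ z.re := by
    intro z hz
    have h2 := (Complex.abs_re_le_norm (z - c)).trans hz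
    rw [Complex.sub_re, hc, pt_re, abs_le] at h2
    linarith [h2.1]
  have b0 : ∀ z : ℂ, ‖z - c‖ ≤ 3 / 10 → ‖riemannZeta₁ z‖ ≤ M := by
    intro z hz
    refine (SG.z1_growth (hre z hz)).trans ?_
    have : ‖z‖ ≤ ‖c‖ + 3 / 10 := by
      calc ‖z‖ = ‖c + (z - c)‖ := by ring_nf
        _ ≤ ‖c‖ + ‖z - c‖ := norm_add_le _ _
        _ ≤ _ := by linarith
    rw [hM]
    have h5 : ‖z‖ + 1 ≤ ‖c‖ + 2 := by linarith
    gcongr
  have hd := differentiable_riemannZeta₁
  have b1 : ∀ z : ℂ, ‖z - c‖ ≤ 2 / 10 → ‖deriv riemannZeta₁ z‖ ≤ 10 * M := by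
    intro z hz
    have := Complex.norm_deriv_le_of_forall_mem_sphere_norm_le (c := z) (R := 1 / 10) (C := M)
      (f := riemannZeta₁) (by norm_num) hd.diffContOnCl (fun w hw => b0 w (by
        have h3 : ‖w - z‖ = 1 / 10 := by simpa [dist_eq_norm] using hw
        calc ‖w - c‖ = ‖(w - z) + (z - c)‖ := by ring_nf
          _ ≤ ‖w - z‖ + ‖z - c‖ := norm_add_le _ _
          _ ≤ 3 / 10 := by linarith))
    refine this.trans (le_of_eq ?_)
    rw [div_div_eq_mul_div, div_one]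
    ring
  have hd1 : Differentiable ℂ (deriv riemannZeta₁) := hd.deriv
  have b2 : ∀ z : ℂ, ‖z - c‖ ≤ 1 / 10 → ‖deriv (deriv riemannZeta₁) z‖ ≤ 100 * M := by
    intro z hz
    have := Complex.norm_deriv_le_of_forall_mem_sphere_norm_le (c := z) (R := 1 / 10) (C := 10 * M)
      (f := deriv riemannZeta₁) (by norm_num) hd1.diffContOnCl (fun w hw => b1 w (by
        have h3 : ‖w - z‖ = 1 / 10 := by simpa [dist_eq_norm] using hw
        calc ‖w - c‖ = ‖(w - z) + (z - c)‖ := by ring_nf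
          _ ≤ ‖w - z‖ + ‖z - c‖ := norm_add_le _ _
          _ ≤ 2 / 10 := by linarith))
    refine this.trans (le_of_eq ?_)
    rw [div_div_eq_mul_div, div_one]
    ring
  -- first mean value inequality
  have m1 : ∀ z : ℂ, ‖z - c‖ ≤ 1 / 10 → ‖deriv riemannZeta₁ z - deriv riemannZeta₁ c‖ ≤ 100 * M * ‖z - c‖ := by
    intro z hz
    have := Convex.norm_image_sub_le_of_norm_deriv_le (𝕜 := ℂ) (f := deriv riemannZeta₁) (s := Metric.closedBall c (1 / 10))
      (C := 100 * M) (x := c) (y := z) (fun w _ => hd1 w) (fun w hw => b2 w (by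
        simpa [dist_eq_norm] using hw)) (convex_closedBall _ _) (Metric.mem_closedBall_self (by norm_num))
      (by simpa [dist_eq_norm] using hz)
    exact this
  have m2 : ‖(riemannZeta₁ (c + δ) - deriv riemannZeta₁ c * (c + δ)) - (riemannZeta₁ c - deriv riemannZeta₁ c * c)‖ ≤
      100 * M * δ * ‖(c + δ) - c‖ := by
    have hder : ∀ w : ℂ, HasDerivAt (fun z => riemannZeta₁ z - deriv riemannZeta₁ c * z)
        (deriv riemannZeta₁ w - deriv riemannZeta₁ c) w := by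
      intro w
      have h5 := (hd w).hasDerivAt.fun_sub ((hasDerivAt_id w).const_mul (deriv riemannZeta₁ c))
      rw [mul_one] at h5
      exact h5
    exact Convex.norm_image_sub_le_of_norm_deriv_le (𝕜 := ℂ) (f := fun z => riemannZeta₁ z - deriv riemannZeta₁ c * z)
      (s := Metric.closedBall c δ) (C := 100 * M * δ) (x := c) (y := c + δ) (fun w _ => (hder w).differentiableAt)
      (fun w hw => by
        rw [(hder w).deriv]
        have h6 : ‖w - c‖ ≤ δ := by simpa [dist_eq_norm] using hw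
        exact (m1 w (by linarith)).trans (mul_le_mul_of_nonneg_left h6 (by positivity)))
      (convex_closedBall _ _) (Metric.mem_closedBall_self h0) (by
        simp [abs_of_nonneg h0])
  have hc0 : riemannZeta₁ c = 0 := by rw [zeta1_eq (pt_ne_one t), hz, mul_zero]
  have hdc : deriv riemannZeta₁ c = (c - 1) * deriv riemannZeta c := by
    have h1 : riemannZeta₁ =ᶠ[𝓝 c] fun s => (s - 1) * riemannZeta s := by
      filter_upwards [isOpen_ne.mem_nhds (pt_ne_one t)] with s hs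
      exact zeta1_eq hs
    rw [h1.deriv_eq]
    have h2 : HasDerivAt (fun s : ℂ => (s - 1) * riemannZeta s)
        (1 * riemannZeta c + (c - 1) * deriv riemannZeta c) c :=
      ((hasDerivAt_id c).sub_const 1).mul (differentiableAt_riemannZeta (pt_ne_one t)).hasDerivAt
    rw [h2.deriv, hz, mul_zero, zero_add]
  have e1 : (riemannZeta₁ (c + δ) - deriv riemannZeta₁ c * (c + δ)) - (riemannZeta₁ c - deriv riemannZeta₁ c * c) =
      riemannZeta₁ (c + δ) - δ * ((c - 1) * deriv riemannZeta c) := by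
    rw [hc0, hdc]
    ring
  rw [e1, add_sub_cancel_left, Complex.norm_of_nonneg h0] at m2
  have h7 : ‖riemannZeta₁ (c + δ)‖ ≤ ‖riemannZeta₁ (c + δ) - δ * ((c - 1) * deriv riemannZeta c)‖ +
      ‖(δ : ℂ) * ((c - 1) * deriv riemannZeta c)‖ := by
    have := norm_add_le (riemannZeta₁ (c + δ) - δ * ((c - 1) * deriv riemannZeta c))
      ((δ : ℂ) * ((c - 1) * deriv riemannZeta c))
    rwa [sub_add_cancel] at this
  rw [norm_mul (δ : ℂ), norm_mul, Complex.norm_of_nonneg h0, pt_sub] at h7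
  refine h7.trans ?_
  rw [add_comm]
  refine add_le_add le_rfl (m2.trans (le_of_eq ?_))
  rw [hM]
  ring

end Pool.Agent.Y853.HM
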