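import Pool.Agent.Y853.HM.Low
import Pool.Agent.W263.BSD.Asy

set_option autoImplicit false

/-! One-sided pointwise bounds and the Abel means. -/

namespace Pool.Agent.Y853.HM

open Filter Topology Set MeasureTheory
open Pool.Agent.W263.BSD Pool.Agent.W120.WM

/-- `(log log y)^{5/4}` -/
noncomputable def q (y : ℝ) : ℝ := Real.log (Real.log y) ^ (5 / 4 : ℝ)

theorem log_ge {y : ℝ} (h : Real.exp 1 ≤ y) : 1 ≤ Real.log y := by
  have := Real.log_le_log (Real.exp_pos 1) h
  rwa [Real.log_exp] at this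

theorem llog_nn {y : ℝ} (h : Real.exp 1 ≤ y) : 0 ≤ Real.log (Real.log y) := Real.log_nonneg (log_ge h)

theorem llog_ge {y : ℝ} (h : Real.exp (Real.exp 1) ≤ y) : 1 ≤ Real.log (Real.log y) := by
  have h1 := Real.log_le_log (Real.exp_pos _) h
  rw [Real.log_exp] at h1
  exact log_ge h1

theorem q_mono {x y : ℝ} (h : Real.exp 1 ≤ x) (hxy : x ≤ y) : q x ≤ q y := by
  unfold q
  have h1 := log_ge h
  have h0 : 0 < x := (Real.exp_pos 1).trans_le h
  refine Real.rpow_le_rpow (llog_nn h) ?_ (by norm_num)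
  exact Real.log_le_log (by linarith) (Real.log_le_log h0 hxy)

theorem q_nn {x : ℝ} (h : Real.exp 1 ≤ x) : 0 ≤ q x := Real.rpow_nonneg (llog_nn h) _

theorem q_ge {y : ℝ} (h : Real.exp (Real.exp 1) ≤ y) : 1 ≤ q y :=
  Real.one_le_rpow (llog_ge h) (by norm_num)

theorem q_le_sq {y : ℝ} (h : Real.exp 1 ≤ y) : q y ≤ Real.log y ^ 2 := by
  have h1 := log_ge h
  have h2 : Real.log (Real.log y) ≤ Real.log y := by
    have := Real.log_le_sub_one_of_pos (show 0 < Real.log y by linarith)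
    linarith
  unfold q
  calc Real.log (Real.log y) ^ (5 / 4 : ℝ) ≤ Real.log y ^ (5 / 4 : ℝ) :=
        Real.rpow_le_rpow (llog_nn h) h2 (by norm_num)
    _ ≤ Real.log y ^ (2 : ℝ) := Real.rpow_le_rpow_of_exponent_le h1 (by norm_num)
    _ = _ := Real.rpow_two _

theorem exp_le : Real.exp 1 ≤ Real.exp (Real.exp 1) := Real.exp_le_exp.2 (by
  have := Real.add_one_le_exp (1 : ℝ)
  linarith)

theorem q_key {D v : ℝ} (hD : Real.exp (Real.exp 1) ≤ D) (hv : Real.exp 1 ≤ v) :
    q v ≤ q D * (1 + (Real.log D)⁻¹ * (v / D)) ^ 2 := by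
  have hDe := exp_le.trans hD
  have hD0 : 0 < D := (Real.exp_pos 1).trans_le hDe
  have hv0 : 0 < v := (Real.exp_pos 1).trans_le hv
  have hL : 1 ≤ Real.log D := log_ge hDe
  have hL0 : 0 < Real.log D := by linarith
  have hb0 : 0 ≤ (Real.log D)⁻¹ * (v / D) := by positivity
  have hq := q_ge hD
  rcases le_total v D with h | h
  · refine (q_mono hv h).trans ?_
    refine le_mul_of_one_le_right (by linarith) ?_
    nlinarith
  · obtain ⟨b, hb⟩ : ∃ b, b = (Real.log D)⁻¹ * (v / D) := ⟨_, rfl⟩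
    rw [← hb] at hb0 ⊢
    have ha := llog_ge hD
    have h1 : Real.log v = Real.log D * (1 + Real.log (v / D) / Real.log D) := by
      rw [mul_add, mul_one, mul_div_cancel₀ _ hL0.ne', Real.log_div hv0.ne' hD0.ne']
      ring
    have h2 : 0 ≤ Real.log (v / D) := Real.log_nonneg ((one_le_div hD0).2 h)
    have h3 : Real.log (Real.log v) ≤ Real.log (Real.log D) + b := by
      rw [h1, Real.log_mul hL0.ne' (by positivity)]
      have h4 := Real.log_le_sub_one_of_pos (show 0 < 1 + Real.log (v / D) / Real.log D by positivity)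
      have h5 : Real.log (v / D) ≤ v / D := by
        have := Real.log_le_sub_one_of_pos (show 0 < v / D by positivity)
        linarith
      have h6 : Real.log (v / D) / Real.log D ≤ b := by
        rw [hb, div_eq_inv_mul]
        exact mul_le_mul_of_nonneg_left h5 (by positivity)
      linarith
    have h7 : Real.log (Real.log D) + b ≤ Real.log (Real.log D) * (1 + b) := by nlinarith
    unfold q
    calc Real.log (Real.log v) ^ (5 / 4 : ℝ) ≤ (Real.log (Real.log D) * (1 + b)) ^ (5 / 4 : ℝ) :=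
          Real.rpow_le_rpow (llog_nn hv) (h3.trans h7) (by norm_num)
      _ = Real.log (Real.log D) ^ (5 / 4 : ℝ) * (1 + b) ^ (5 / 4 : ℝ) :=
          Real.mul_rpow (by linarith) (by linarith)
      _ ≤ Real.log (Real.log D) ^ (5 / 4 : ℝ) * (1 + b) ^ (2 : ℝ) := by
          refine mul_le_mul_of_nonneg_left ?_ (Real.rpow_nonneg (by linarith) _)
          exact Real.rpow_le_rpow_of_exponent_le (by linarith) (by norm_num)
      _ = _ := by rw [Real.rpow_two]

theorem q_top : Tendsto q atTop atTop :=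
  (tendsto_rpow_atTop (by norm_num)).comp (Real.tendsto_log_atTop.comp Real.tendsto_log_atTop)

theorem f_le {s : ℝ} (hs : s = 1 ∨ s = -1) (v : ℝ) : max (s * f v) 0 ≤ Real.exp (v / 2) := by
  refine max_le ?_ (Real.exp_pos _).le
  have h1 : s * f v ≤ |f v| := by
    rcases hs with rfl | rfl
    · rw [one_mul]; exact le_abs_self _
    · rw [neg_one_mul]; exact neg_le_abs _
  refine h1.trans ?_
  have h2 := g_abs v
  have : |f v| = |g v| * Real.exp (-(v / 2)) := by
    unfold f g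
    rw [abs_mul, abs_of_pos (Real.exp_pos _)]
  rw [this]
  calc |g v| * Real.exp (-(v / 2)) ≤ Real.exp v * Real.exp (-(v / 2)) :=
        mul_le_mul_of_nonneg_right h2 (Real.exp_pos _).le
    _ = _ := by rw [← Real.exp_add]; congr 1; ring

/-- the Abel means under a one-sided pointwise bound -/
theorem ab_core {s B : ℝ} (hs : s = 1 ∨ s = -1) (hB : 0 < B) {v0 : ℝ} (hv0 : Real.exp 1 ≤ v0)
    (h : ∀ v, v0 ≤ v → s * f v ≤ B * q v) {δ : ℝ} (hδ : 0 < δ) (hD : Real.exp (Real.exp 1) ≤ δ⁻¹) :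
    LInt (fun v => max (s * g v) 0) (1 / 2 + δ) ∧
    ab s δ ≤ Real.exp (v0 / 2) + B * q δ⁻¹ * (1 + 2 * (Real.log δ⁻¹)⁻¹ + 2 * (Real.log δ⁻¹)⁻¹ ^ 2) := by
  set D : ℝ := δ⁻¹ with hDd
  set η : ℝ := (Real.log D)⁻¹ with hη
  set K : ℝ := Real.exp (v0 / 2) with hK
  have hK0 : 0 < K := Real.exp_pos _
  have hq := q_ge hD
  have hL : 1 ≤ Real.log D := log_ge (exp_le.trans hD)
  have hη0 : 0 ≤ η := by positivity
  have hvd : ∀ v : ℝ, v / D = δ * v := fun v => by rw [hDd, div_inv_eq_mul, mul_comm]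
  obtain ⟨Ψ, hΨ⟩ : ∃ Ψ : ℝ → ℝ, Ψ = fun v => ((K + B * q D) * pk 0 v + (2 * B * q D * η * δ) * pk 1 v) +
      (2 * B * q D * η ^ 2 * δ ^ 2) * pk 2 v := ⟨_, rfl⟩
  have hΨv : ∀ v, Ψ v = K + B * (q D * (1 + η * (v / D)) ^ 2) := by
    intro v
    rw [hΨ, hvd]
    simp only [pk, pow_zero, Nat.factorial_zero, Nat.cast_one, div_one, mul_one, pow_one, Nat.factorial_one,
      Nat.factorial_two, Nat.cast_ofNat]
    ring
  have hbound : ∀ v : ℝ, 0 < v → max (s * f v) 0 ≤ Ψ v := by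
    intro v hv
    rw [hΨv]
    have h1 : 0 ≤ B * (q D * (1 + η * (v / D)) ^ 2) := by positivity
    rcases le_total v v0 with h2 | h2
    · have h3 := f_le hs v
      have h4 : Real.exp (v / 2) ≤ K := Real.exp_le_exp.2 (by linarith)
      linarith
    · refine max_le ?_ (by positivity)
      have h3 := h v h2
      have h4 := mul_le_mul_of_nonneg_left (q_key hD (hv0.trans h2)) hB.le
      linarith
  have hi0 := (pk_LInt 0 hδ).const_mul (K + B * q D)
  have hi1 := (pk_LInt 1 hδ).const_mul (2 * B * q D * η * δ)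
  have hi2 := (pk_LInt 2 hδ).const_mul (2 * B * q D * η ^ 2 * δ ^ 2)
  have hΨi : LInt Ψ δ := by
    rw [hΨ]
    exact (hi0.add hi1).add hi2
  have hΨl : lap Ψ δ = (K + B * q D) * (1 / δ ^ (0 + 1)) + (2 * B * q D * η * δ) * (1 / δ ^ (1 + 1)) +
      (2 * B * q D * η ^ 2 * δ ^ 2) * (1 / δ ^ (2 + 1)) := by
    rw [hΨ]
    have e1 := lap_add (hi0.add hi1) hi2
    have e2 := lap_add hi0 hi1
    rw [lap_const_mul, pk_lap 2 hδ] at e1
    rw [lap_const_mul, lap_const_mul, pk_lap 0 hδ, pk_lap 1 hδ] at e2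
    rw [e2] at e1
    exact e1
  have hi : IntegrableOn (fun v => max (s * f v) 0 * Real.exp (-(δ * v))) (Ioi 0) := by
    refine Integrable.mono' hΨi ?_ ?_
    · simp only [integrand]
      exact (integrand_meas s δ).aestronglyMeasurable
    · filter_upwards [ae_restrict_mem measurableSet_Ioi] with v hv
      rw [Real.norm_of_nonneg (mul_nonneg (le_max_right _ _) (Real.exp_pos _).le)]
      exact mul_le_mul_of_nonneg_right (hbound v hv) (Real.exp_pos _).le
  have hi' := hi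
  simp only [integrand] at hi'
  refine ⟨hi', ?_⟩
  have h5 : lap (fun v => max (s * g v) 0) (1 / 2 + δ) ≤ lap Ψ δ := by
    unfold lap
    have e1 : ∫ u in Ioi (0 : ℝ), max (s * g u) 0 * Real.exp (-((1 / 2 + δ) * u)) =
        ∫ u in Ioi (0 : ℝ), max (s * f u) 0 * Real.exp (-(δ * u)) := by
      simp only [integrand]
    rw [e1]
    exact setIntegral_mono_on hi hΨi measurableSet_Ioi fun v hv =>
      mul_le_mul_of_nonneg_right (hbound v hv) (Real.exp_pos _).le
  unfold ab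
  refine (mul_le_mul_of_nonneg_left h5 hδ.le).trans (le_of_eq ?_)
  rw [hΨl]
  field_simp
  ring

theorem inv_top : Tendsto (fun δ : ℝ => δ⁻¹) (𝓝[>] 0) atTop := tendsto_inv_nhdsGT_zero

theorem ab_bound {s B : ℝ} (hs : s = 1 ∨ s = -1) (hB : 0 < B)
    (h : ∀ᶠ x : ℝ in atTop, s * Mx x ≤ B * (Real.sqrt x * Real.log (Real.log (Real.log x)) ^ (5 / 4 : ℝ))) :
    (∀ w > (1 / 2 : ℝ), LInt (fun v => max (s * g v) 0) w) ∧
    ∀ ε : ℝ, 0 < ε → ∀ᶠ δ in 𝓝[>] (0 : ℝ), ab s δ ≤ (B + ε) * q δ⁻¹ := by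
  have h1 : ∀ᶠ v : ℝ in atTop, s * f v ≤ B * q v := by
    filter_upwards [Real.tendsto_exp_atTop.eventually h] with v hv
    rw [Real.log_exp] at hv
    have h2 := mul_le_mul_of_nonneg_right hv (Real.exp_pos (-(v / 2))).le
    have e1 : Real.sqrt (Real.exp v) = Real.exp (v / 2) := by
      rw [Real.sqrt_eq_iff_mul_self_eq (Real.exp_pos _).le (Real.exp_pos _).le, ← Real.exp_add]
      congr 1
      ring
    have e2 : Real.exp (v / 2) * Real.exp (-(v / 2)) = 1 := by
      rw [← Real.exp_add, add_neg_cancel, Real.exp_zero]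
    rw [e1] at h2
    unfold f q
    calc s * (Mx (Real.exp v) * Real.exp (-(v / 2))) = s * Mx (Real.exp v) * Real.exp (-(v / 2)) := by ring
      _ ≤ B * (Real.exp (v / 2) * Real.log (Real.log v) ^ (5 / 4 : ℝ)) * Real.exp (-(v / 2)) := h2
      _ = B * Real.log (Real.log v) ^ (5 / 4 : ℝ) * (Real.exp (v / 2) * Real.exp (-(v / 2))) := by ring
      _ = _ := by rw [e2, mul_one]
  obtain ⟨v1, hv1⟩ := eventually_atTop.1 h1
  set v0 : ℝ := max v1 (Real.exp 1) with hv0
  have hcore : ∀ {δ : ℝ}, 0 < δ → Real.exp (Real.exp 1) ≤ δ⁻¹ → _ := fun hδ hD =>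
    ab_core hs hB (le_max_right _ _ : Real.exp 1 ≤ v0) (fun v hv => hv1 v ((le_max_left _ _).trans hv)) hδ hD
  have hevD : ∀ᶠ δ in 𝓝[>] (0 : ℝ), Real.exp (Real.exp 1) ≤ δ⁻¹ := inv_top.eventually_ge_atTop _
  constructor
  · intro w hw
    have h2 : ∀ᶠ δ in 𝓝[>] (0 : ℝ), δ < w - 1 / 2 :=
      (eventually_lt_nhds (by linarith)).filter_mono nhdsWithin_le_nhds
    obtain ⟨δ, ⟨h3, h4⟩, h5⟩ := ((hevD.and h2).and self_mem_nhdsWithin).exists
    exact LInt.mono ((g_meas.const_mul s).max measurable_const) (hcore h5 h3).1 (by linarith)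
  · intro ε hε
    have hlim : Tendsto (fun D : ℝ => Real.exp (v0 / 2) / q D + B * (2 * (Real.log D)⁻¹ + 2 * (Real.log D)⁻¹ ^ 2))
        atTop (𝓝 (0 + B * (2 * 0 + 2 * 0 ^ 2))) := by
      have a1 : Tendsto (fun D : ℝ => Real.exp (v0 / 2) / q D) atTop (𝓝 0) := q_top.const_div_atTop _
      have a2 : Tendsto (fun D : ℝ => (Real.log D)⁻¹) atTop (𝓝 0) := tendsto_inv_atTop_zero.comp Real.tendsto_log_atTop
      exact a1.add (((a2.const_mul 2).add ((a2.pow 2).const_mul 2)).const_mul B)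
    have hz : (0 : ℝ) + B * (2 * 0 + 2 * 0 ^ 2) = 0 := by ring
    rw [hz] at hlim
    filter_upwards [hevD, self_mem_nhdsWithin, (hlim.comp inv_top).eventually_lt_const hε] with δ h3 h4 h5
    have hδ0 : (0 : ℝ) < δ := h4
    have h6 := (hcore hδ0 h3).2
    have hq := q_ge h3
    simp only [Function.comp_apply] at h5
    have h7 := mul_lt_mul_of_pos_right h5 (show 0 < q δ⁻¹ by linarith)
    rw [add_mul, div_mul_cancel₀ _ (by linarith)] at h7
    refine h6.trans ?_
    linarith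

end Pool.Agent.Y853.HM
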