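import Pool.Agent.Y853.HM.Gon1
import Pool.Agent.Y853.HM.Gon2
import Pool.Agent.Y853.HM.Fin

set_option autoImplicit false

/-! One-sided bounds of Gonek's size: zeros, derivatives, means. -/

namespace Pool.Agent.Y853.HM

open Filter Topology Set MeasureTheory
open Pool.Agent.W263.BSD Pool.Agent.W120.WM

theorem q_div : Tendsto (fun D : ℝ => q D / D) atTop (𝓝 0) := by
  have h1 : Tendsto (fun D : ℝ => Real.log D ^ 2 / D) atTop (𝓝 0) :=
    (Real.isLittleO_pow_log_id_atTop (n := 2)).tendsto_div_nhds_zero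
  refine squeeze_zero' ?_ ?_ h1
  · filter_upwards [eventually_ge_atTop (Real.exp 1)] with D hD
    exact div_nonneg (q_nn hD) ((Real.exp_pos 1).le.trans hD)
  · filter_upwards [eventually_ge_atTop (Real.exp 1)] with D hD
    exact div_le_div_of_nonneg_right (q_le_sq hD) ((Real.exp_pos 1).le.trans hD)

theorem q_four : Tendsto (fun R : ℝ => q (R ^ 4) / q R) atTop (𝓝 1) := by
  have h1 : Tendsto (fun R : ℝ => (Real.log 4 / Real.log (Real.log R) + 1) ^ (5 / 4 : ℝ)) atTop (𝓝 1) := by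
    have h2 : Tendsto (fun R : ℝ => Real.log 4 / Real.log (Real.log R) + 1) atTop (𝓝 (0 + 1)) :=
      ((Real.tendsto_log_atTop.comp Real.tendsto_log_atTop).const_div_atTop _).add_const 1
    rw [zero_add] at h2
    have h3 := h2.rpow_const (p := (5 / 4 : ℝ)) (Or.inl one_ne_zero)
    rwa [Real.one_rpow] at h3
  refine h1.congr' ?_
  filter_upwards [eventually_ge_atTop (Real.exp (Real.exp 1))] with R hR
  have ha := llog_ge hR
  have hl := log_ge (exp_le.trans hR)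
  unfold q
  rw [← Real.div_rpow (by
    rw [Real.log_pow]
    refine Real.log_nonneg ?_
    push_cast
    linarith) (by linarith)]
  congr 1
  rw [Real.log_pow, Real.log_mul (by norm_num) (by linarith)]
  push_cast
  field_simp

section
variable {s B : ℝ} (hs : s = 1 ∨ s = -1) (hB : 0 < B)
  (h : ∀ᶠ x : ℝ in atTop, s * Mx x ≤ B * (Real.sqrt x * Real.log (Real.log (Real.log x)) ^ (5 / 4 : ℝ)))
include hs hB h

theorem N_bound {ε : ℝ} (hε : 0 < ε) : ∀ᶠ δ in 𝓝[>] (0 : ℝ), N δ ≤ (2 * B + ε) * q δ⁻¹ := by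
  obtain ⟨hL, hb⟩ := ab_bound hs hB h
  have hz := zero_lim (lint_g hs hL)
  have h1 : ∀ᶠ δ : ℝ in 𝓝[>] (0 : ℝ), |δ * lap g (1 / 2 + δ)| < ε / 2 := by
    have := hz.abs
    rw [abs_zero] at this
    exact this.eventually_lt_const (by positivity)
  filter_upwards [h1, hb (ε / 4) (by positivity), self_mem_nhdsWithin,
    inv_top.eventually_ge_atTop (Real.exp (Real.exp 1))] with δ h3 h2 h4 hD
  obtain ⟨h5, h6⟩ := ab_add hs hL (show 0 < δ from h4)
  have h7 : |s * (δ * lap g (1 / 2 + δ))| < ε / 2 := by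
    rw [abs_mul]
    rcases hs with rfl | rfl <;> simpa using h3
  have h8 := (abs_lt.1 h7).1
  have hq := q_ge hD
  rw [h5, h6]
  nlinarith

theorem dN_lim : Tendsto (fun δ : ℝ => δ * N δ) (𝓝[>] 0) (𝓝 0) := by
  have h1 : Tendsto (fun δ : ℝ => (2 * B + 1) * (q δ⁻¹ / δ⁻¹)) (𝓝[>] 0) (𝓝 ((2 * B + 1) * 0)) :=
    (q_div.comp inv_top).const_mul _
  rw [mul_zero] at h1
  refine squeeze_zero' ?_ ?_ h1
  · filter_upwards [self_mem_nhdsWithin] with δ hδ
    have hδ0 : (0 : ℝ) < δ := hδ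
    have : 0 ≤ N δ := mul_nonneg hδ0.le (lap_nonneg (fun _ _ => abs_nonneg _) _)
    positivity
  · filter_upwards [self_mem_nhdsWithin, N_bound hs hB h one_pos] with δ hδ h2
    have hδ0 : (0 : ℝ) < δ := hδ
    rw [div_inv_eq_mul]
    have := mul_le_mul_of_nonneg_left h2 hδ0.le
    linarith

theorem simple_G (t : ℝ) (hz : riemannZeta (pt t) = 0) : deriv riemannZeta (pt t) ≠ 0 := by
  intro hd
  obtain ⟨hL, hb⟩ := ab_bound hs hB h
  have hg := lint_g hs hL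
  have hR : 0 < ‖pt t‖ := norm_pos_iff.2 (pt_ne_zero t)
  have hdN := dN_lim hs hB h
  have hid : Tendsto (fun δ : ℝ => δ) (𝓝[>] 0) (𝓝 0) := tendsto_id.mono_left nhdsWithin_le_nhds
  have h1 : Tendsto (fun δ : ℝ => (‖pt t‖ + δ) * (1100 * (‖pt t‖ + 2) ^ 2 * (δ * N δ))) (𝓝[>] 0)
      (𝓝 ((‖pt t‖ + 0) * (1100 * (‖pt t‖ + 2) ^ 2 * 0))) := (hid.const_add _).mul (hdN.const_mul _)
  have h2 : Tendsto (fun δ : ℝ => ‖pt t‖ - δ) (𝓝[>] 0) (𝓝 (‖pt t‖ - 0)) := hid.const_sub _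
  rw [mul_zero, mul_zero] at h1
  rw [sub_zero] at h2
  have h3 : ∀ᶠ δ : ℝ in 𝓝[>] (0 : ℝ), ‖pt t‖ - δ ≤ (‖pt t‖ + δ) * (1100 * (‖pt t‖ + 2) ^ 2 * (δ * N δ)) := by
    have hsm : ∀ᶠ δ : ℝ in 𝓝[>] (0 : ℝ), δ < 1 / 20 :=
      (eventually_lt_nhds (by norm_num)).filter_mono nhdsWithin_le_nhds
    filter_upwards [self_mem_nhdsWithin, hsm] with δ hδ hδ1
    have hδ0 : (0 : ℝ) < δ := hδ
    have hN : 0 ≤ N δ := mul_nonneg hδ0.le (lap_nonneg (fun _ _ => abs_nonneg _) _)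
    have a1 := fund hg t hδ0
    have a2 := taylor t hδ0.le hδ1.le hz
    rw [hd, norm_zero, mul_zero, mul_zero, zero_add] at a2
    have a3 : ‖pt t‖ - δ ≤ ‖pt t + (δ : ℂ) - 1‖ := by
      have := norm_sub_norm_le (pt t - 1) (-(δ : ℂ))
      rw [norm_neg, Complex.norm_of_nonneg hδ0.le, pt_sub] at this
      refine this.trans (le_of_eq ?_)
      congr 1
      ring
    have a4 : ‖pt t + (δ : ℂ)‖ ≤ ‖pt t‖ + δ := by
      have := norm_add_le (pt t) (δ : ℂ)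
      rwa [Complex.norm_of_nonneg hδ0.le] at this
    have a5 : ‖pt t + (δ : ℂ)‖ * ‖riemannZeta₁ (pt t + δ)‖ * N δ ≤
        (‖pt t‖ + δ) * (1100 * (‖pt t‖ + 2) ^ 2 * δ ^ 2) * N δ := by gcongr
    have a6 : (‖pt t‖ - δ) * δ ≤ ((‖pt t‖ + δ) * (1100 * (‖pt t‖ + 2) ^ 2 * (δ * N δ))) * δ := by
      calc (‖pt t‖ - δ) * δ ≤ ‖pt t + (δ : ℂ) - 1‖ * δ := mul_le_mul_of_nonneg_right a3 hδ0.le
        _ ≤ _ := a1
        _ ≤ _ := a5
        _ = _ := by ring
    exact le_of_mul_le_mul_right a6 hδ0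
  have := le_of_tendsto_of_tendsto h2 h1 h3
  linarith

theorem zeros_G {ρ : ℂ} (hρ : ρ ∈ NT) : ρ.re = 1 / 2 ∧ deriv riemannZeta ρ ≠ 0 := by
  have hL := lint_g hs (ab_bound hs hB h).1
  have h1 := rh hL hρ.1 hρ.2.1 hρ.2.2
  refine ⟨h1, ?_⟩
  have h2 := simple_G hs hB h ρ.im (by rw [pt_of h1]; exact hρ.1)
  rwa [pt_of h1] at h2

theorem coef_G {ε : ℝ} (hε : 0 < ε) : ∀ᶠ R : ℝ in atTop, ∀ t : ℝ, riemannZeta (pt t) = 0 → ‖pt t‖ = R →
    1 / ‖pt t * deriv riemannZeta (pt t)‖ ≤ (2 * B + ε) * q R := by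
  have hg := lint_g hs (ab_bound hs hB h).1
  set ε₁ : ℝ := ε / 2 with hε₁
  have hε₁0 : 0 < ε₁ := by positivity
  obtain ⟨Θ, hΘ⟩ : ∃ Θ : ℝ → ℝ, Θ = fun R => (2 * B + ε₁) * q (R ^ 4) := ⟨_, rfl⟩
  obtain ⟨e1, he1⟩ : ∃ e1 : ℝ → ℝ, e1 = fun R => (R - (R ^ 4)⁻¹) / (R + (R ^ 4)⁻¹) -
    1100 * (R + 2) ^ 2 * (R ^ 4)⁻¹ * Θ R := ⟨_, rfl⟩
  have hpow : Tendsto (fun R : ℝ => R ^ 4) atTop atTop := tendsto_pow_atTop (by norm_num)
  have hinv : Tendsto (fun R : ℝ => (R ^ 4)⁻¹) atTop (𝓝[>] 0) := tendsto_inv_atTop_nhdsGT_zero.comp hpow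
  have hinv0 : Tendsto (fun R : ℝ => (R ^ 4)⁻¹) atTop (𝓝 0) := hinv.mono_right nhdsWithin_le_nhds
  have hi : Tendsto (fun R : ℝ => R⁻¹) atTop (𝓝 0) := tendsto_inv_atTop_zero
  have l1 : Tendsto (fun R : ℝ => (R - (R ^ 4)⁻¹) / (R + (R ^ 4)⁻¹)) atTop (𝓝 1) := by
    have : Tendsto (fun R : ℝ => (1 - (R ^ 4)⁻¹ * R⁻¹) / (1 + (R ^ 4)⁻¹ * R⁻¹)) atTop
        (𝓝 ((1 - 0 * 0) / (1 + 0 * 0))) :=
      ((hinv0.mul hi).const_sub 1).div ((hinv0.mul hi).const_add 1) (by norm_num)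
    rw [show ((1 : ℝ) - 0 * 0) / (1 + 0 * 0) = 1 by norm_num] at this
    refine this.congr' ?_
    filter_upwards [eventually_gt_atTop 0] with R hR
    field_simp
  have l2 : Tendsto (fun R : ℝ => q (R ^ 4) / R) atTop (𝓝 0) := by
    have := q_four.mul q_div
    rw [mul_zero] at this
    refine this.congr' ?_
    filter_upwards [eventually_ge_atTop (Real.exp (Real.exp 1))] with R hR
    have := q_ge hR
    rw [div_mul_div_comm, mul_comm (q R) R, mul_div_mul_right _ _ (by linarith)]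
  have l3 : Tendsto (fun R : ℝ => 1100 * (R + 2) ^ 2 * (R ^ 4)⁻¹ * Θ R) atTop (𝓝 0) := by
    have : Tendsto (fun R : ℝ => 1100 * (2 * B + ε₁) * (1 + 2 * R⁻¹) ^ 2 * R⁻¹ * (q (R ^ 4) / R)) atTop
        (𝓝 (1100 * (2 * B + ε₁) * (1 + 2 * 0) ^ 2 * 0 * 0)) :=
      (((((hi.const_mul 2).const_add 1).pow 2).const_mul _).mul hi).mul l2
    rw [mul_zero] at this
    refine this.congr' ?_
    filter_upwards [eventually_gt_atTop 0] with R hR
    rw [hΘ]
    field_simp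
  have l4 : Tendsto e1 atTop (𝓝 1) := by
    have := l1.sub l3
    rw [sub_zero] at this
    rw [he1]
    exact this
  have l5 : Tendsto (fun R : ℝ => (2 * B + ε₁) * (q (R ^ 4) / q R) / e1 R) atTop (𝓝 ((2 * B + ε₁) * 1 / 1)) :=
    (q_four.const_mul _).div l4 one_ne_zero
  rw [mul_one, div_one] at l5
  filter_upwards [l5.eventually_lt_const (show 2 * B + ε₁ < 2 * B + ε by rw [hε₁]; linarith),
    l4.eventually_const_lt (show (1 : ℝ) / 2 < 1 by norm_num), hinv.eventually (N_bound hs hB h hε₁0),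
    eventually_ge_atTop (Real.exp (Real.exp 1)), eventually_ge_atTop 3] with R h5 h4 hN hR hR3 t hz ht
  have hR0 : 0 < R := by linarith
  have hq := q_ge hR
  set δ : ℝ := (R ^ 4)⁻¹ with hδ
  have hδ0 : 0 < δ := by positivity
  have hδ1 : δ ≤ 1 / 20 := by
    rw [hδ, one_div]
    refine inv_anti₀ (by norm_num) ?_
    nlinarith [pow_le_pow_left₀ (by norm_num : (0 : ℝ) ≤ 3) hR3 4]
  rw [inv_inv] at hN
  have hN' : N δ ≤ Θ R := by rw [hΘ]; exact hN
  have hN0 : 0 ≤ N δ := mul_nonneg hδ0.le (lap_nonneg (fun _ _ => abs_nonneg _) _)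
  have hΘ0 : 0 < Θ R := by
    rw [hΘ]
    have : Real.exp (Real.exp 1) ≤ R ^ 4 := hR.trans (by
      calc R = R ^ 1 := (pow_one R).symm
        _ ≤ R ^ 4 := pow_le_pow_right₀ (by linarith) (by norm_num))
    have := q_ge this
    have h2B : 0 < 2 * B + ε₁ := by positivity
    exact mul_pos h2B (by linarith)
  have a1 := fund hg t hδ0
  have a2 := taylor t hδ0.le hδ1 hz
  rw [ht] at a2
  set X : ℝ := ‖pt t * deriv riemannZeta (pt t)‖ with hX
  have hXe : R * ‖deriv riemannZeta (pt t)‖ = X := by rw [hX, norm_mul, ht]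
  rw [hXe] at a2
  have a3 : R - δ ≤ ‖pt t + (δ : ℂ) - 1‖ := by
    have := norm_sub_norm_le (pt t - 1) (-(δ : ℂ))
    rw [norm_neg, Complex.norm_of_nonneg hδ0.le, pt_sub, ht] at this
    refine this.trans (le_of_eq ?_)
    congr 1
    ring
  have a4 : ‖pt t + (δ : ℂ)‖ ≤ R + δ := by
    have := norm_add_le (pt t) (δ : ℂ)
    rwa [Complex.norm_of_nonneg hδ0.le, ht] at this
  have hX0 : 0 ≤ X := norm_nonneg _
  have a5 : ‖pt t + (δ : ℂ)‖ * ‖riemannZeta₁ (pt t + δ)‖ * N δ ≤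
      (R + δ) * (δ * X + 1100 * (R + 2) ^ 2 * δ ^ 2) * Θ R := by gcongr
  have a6 : (R - δ) * δ ≤ ((R + δ) * ((X + 1100 * (R + 2) ^ 2 * δ) * Θ R)) * δ := by
    calc (R - δ) * δ ≤ ‖pt t + (δ : ℂ) - 1‖ * δ := mul_le_mul_of_nonneg_right a3 hδ0.le
      _ ≤ _ := a1
      _ ≤ _ := a5
      _ = _ := by ring
  have a7 := le_of_mul_le_mul_right a6 hδ0
  have a8 : (R - δ) / (R + δ) ≤ (X + 1100 * (R + 2) ^ 2 * δ) * Θ R := by
    rw [div_le_iff₀ (by positivity)]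
    linarith
  have a9 : e1 R ≤ X * Θ R := by
    rw [he1]
    show (R - δ) / (R + δ) - 1100 * (R + 2) ^ 2 * δ * Θ R ≤ X * Θ R
    linarith
  have he0 : 0 < e1 R := by linarith
  have hXp : 0 < X := by
    rcases hX0.eq_or_lt with h0 | h0
    · rw [← h0, zero_mul] at a9
      linarith
    · exact h0
  have b1 : 1 / X ≤ Θ R / e1 R := by
    rw [div_le_div_iff₀ hXp he0]
    linarith
  refine b1.trans ?_
  have b2 : Θ R / e1 R = ((2 * B + ε₁) * (q (R ^ 4) / q R) / e1 R) * q R := by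
    rw [hΘ]
    field_simp
  rw [b2]
  exact mul_le_mul_of_nonneg_right h5.le (by linarith)

theorem lower_G {ε : ℝ} (hε : 0 < ε) : ∀ᶠ δ in 𝓝[>] (0 : ℝ), ∀ t : ℝ,
    δ ≤ (2 * B + ε) * q δ⁻¹ * ‖(pt t + δ) * riemannZeta (pt t + δ)‖ := by
  have hg := lint_g hs (ab_bound hs hB h).1
  have hsm : ∀ᶠ δ : ℝ in 𝓝[>] (0 : ℝ), δ < 1 / 2 :=
    (eventually_lt_nhds (by norm_num)).filter_mono nhdsWithin_le_nhds
  filter_upwards [self_mem_nhdsWithin, hsm, N_bound hs hB h hε] with δ hδ hδ1 hN t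
  have hδ0 : (0 : ℝ) < δ := hδ
  have hne : pt t + (δ : ℂ) ≠ 1 := by
    intro h1
    have := congrArg Complex.re h1
    rw [Complex.add_re, pt_re, Complex.ofReal_re, Complex.one_re] at this
    linarith
  have h0 : 0 < ‖pt t + (δ : ℂ) - 1‖ := norm_pos_iff.2 (sub_ne_zero.2 hne)
  have a1 := fund hg t hδ0
  rw [zeta1_eq hne, norm_mul] at a1
  have a2 : ‖pt t + (δ : ℂ) - 1‖ * δ ≤ ‖pt t + (δ : ℂ) - 1‖ *
      (N δ * ‖(pt t + (δ : ℂ)) * riemannZeta (pt t + δ)‖) := by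
    refine a1.trans (le_of_eq ?_)
    rw [norm_mul]
    ring
  exact (le_of_mul_le_mul_left a2 h0).trans (mul_le_mul_of_nonneg_right hN (norm_nonneg _))

theorem mean_G {ε : ℝ} (hε : 0 < ε) : ∀ᶠ x : ℝ in atTop,
    ∫ u in (1 : ℝ)..x, |Mx u| * u ^ (-(3 / 2) : ℝ) ≤
      (2 * Real.exp 1 * B + ε) * (Real.log x * Real.log (Real.log (Real.log x)) ^ (5 / 4 : ℝ)) := by
  have hg := lint_g hs (ab_bound hs hB h).1
  have hε1 : 0 < ε / Real.exp 1 := by positivity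
  have hinv : Tendsto (fun V : ℝ => V⁻¹) atTop (𝓝[>] 0) := tendsto_inv_atTop_nhdsGT_zero
  have h1 : ∀ᶠ V : ℝ in atTop, ∫ v in Ioc 0 V, |f v| ≤ (2 * Real.exp 1 * B + ε) * (V * q V) := by
    filter_upwards [hinv.eventually (N_bound hs hB h hε1), eventually_gt_atTop 0] with V hN hV
    rw [inv_inv] at hN
    have hi : IntegrableOn (fun v => |g v| * Real.exp (-((1 / 2 + V⁻¹) * v))) (Ioi 0) := by
      have := (hg (1 / 2 + V⁻¹) (by have := inv_pos.2 hV; linarith)).norm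
      refine this.congr (Eventually.of_forall fun v => ?_)
      simp only []
      rw [norm_mul, Real.norm_eq_abs, Real.norm_of_nonneg (Real.exp_pos _).le]
    have hfe : ∀ v, |g v| * Real.exp (-((1 / 2 + V⁻¹) * v)) = |f v| * Real.exp (-(V⁻¹ * v)) := by
      intro v
      unfold f g
      rw [abs_mul, abs_of_pos (Real.exp_pos _), mul_assoc, ← Real.exp_add]
      congr 2
      ring
    have hNe : N V⁻¹ = V⁻¹ * ∫ v in Ioi (0 : ℝ), |f v| * Real.exp (-(V⁻¹ * v)) := by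
      unfold N lap
      simp only [hfe]
    simp only [hfe] at hi
    have h2 : ∫ v in Ioc 0 V, |f v| ≤ ∫ v in Ioc 0 V, Real.exp 1 * (|f v| * Real.exp (-(V⁻¹ * v))) := by
      refine integral_mono_of_nonneg (Eventually.of_forall fun v => abs_nonneg _)
        ((hi.mono_set Ioc_subset_Ioi_self).const_mul _) ?_
      filter_upwards [ae_restrict_mem measurableSet_Ioc] with v hv
      have h3 : 1 ≤ Real.exp 1 * Real.exp (-(V⁻¹ * v)) := by
        rw [← Real.exp_add]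
        apply Real.one_le_exp
        have : V⁻¹ * v ≤ 1 := by
          rw [inv_mul_le_iff₀ hV]
          linarith [hv.2]
        linarith
      have h4 := mul_le_mul_of_nonneg_left h3 (abs_nonneg (f v))
      linarith
    have h5 : ∫ v in Ioc 0 V, |f v| * Real.exp (-(V⁻¹ * v)) ≤
        ∫ v in Ioi (0 : ℝ), |f v| * Real.exp (-(V⁻¹ * v)) :=
      setIntegral_mono_set hi (Eventually.of_forall fun v => mul_nonneg (abs_nonneg _) (Real.exp_pos _).le)
        (Ioc_subset_Ioi_self).eventuallyLE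
    rw [integral_const_mul] at h2
    have h6 : ∫ v in Ioi (0 : ℝ), |f v| * Real.exp (-(V⁻¹ * v)) = V * N V⁻¹ := by
      rw [hNe]
      field_simp
    rw [h6] at h5
    have h7 : Real.exp 1 * (V * N V⁻¹) ≤ Real.exp 1 * (V * ((2 * B + ε / Real.exp 1) * q V)) := by
      gcongr
    calc ∫ v in Ioc 0 V, |f v| ≤ _ := h2
      _ ≤ Real.exp 1 * (V * N V⁻¹) := mul_le_mul_of_nonneg_left h5 (Real.exp_pos 1).le
      _ ≤ _ := h7
      _ = _ := by
        field_simp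
  filter_upwards [Real.tendsto_log_atTop.eventually h1, eventually_gt_atTop 1] with x hx hx1
  have hl : 0 < Real.log x := Real.log_pos hx1
  rw [cv one_pos hx1.le, Real.log_one, intervalIntegral.integral_of_le hl.le]
  refine le_trans (le_of_eq ?_) hx
  refine setIntegral_congr_fun measurableSet_Ioc fun v _ => ?_
  show Real.exp v * (|Mx (Real.exp v)| * (Real.exp v) ^ (-(3 / 2) : ℝ)) = |f v|
  unfold f
  rw [← Real.exp_mul, abs_mul, abs_of_pos (Real.exp_pos _), mul_left_comm, ← Real.exp_add]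
  congr 2
  ring

end

end Pool.Agent.Y853.HM
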