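import Pool.Agent.Y853.HM.Gon3
import Mathlib.NumberTheory.ArithmeticFunction.Liouville

set_option autoImplicit false

/-! The Laplace transform of the summatory function of the Liouville function. -/

namespace Pool.Agent.Y853.HML

open Filter Topology Set MeasureTheory
open Pool.Agent.W263.BSD
open Pool.Agent.Y853.HM (lint_exp zeta1_eq zeta1_real re_analytic lint_abs lint_of_abs)

/-- the summatory function of the Liouville function -/
noncomputable def Lx (u : ℝ) : ℝ := ∑ n ∈ Finset.Icc 1 ⌊u⌋₊, ((ArithmeticFunction.liouville n : ℤ) : ℝ)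

/-- `L(e^v)` -/
noncomputable def g (v : ℝ) : ℝ := Lx (Real.exp v)

theorem li_le (n : ℕ) : |((ArithmeticFunction.liouville n : ℤ) : ℝ)| ≤ 1 := by
  by_cases h : n = 0
  · rw [h]; simp
  · rw [ArithmeticFunction.liouville_apply h]
    push_cast
    rw [abs_pow, abs_neg, abs_one, one_pow]

theorem Lx_abs (u : ℝ) : |Lx u| ≤ (⌊u⌋₊ : ℝ) := by
  unfold Lx
  calc |∑ n ∈ Finset.Icc 1 ⌊u⌋₊, ((ArithmeticFunction.liouville n : ℤ) : ℝ)|
      ≤ ∑ n ∈ Finset.Icc 1 ⌊u⌋₊, |((ArithmeticFunction.liouville n : ℤ) : ℝ)| :=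
        Finset.abs_sum_le_sum_abs _ _
    _ ≤ ∑ n ∈ Finset.Icc 1 ⌊u⌋₊, (1 : ℝ) := Finset.sum_le_sum fun n _ => li_le n
    _ = ⌊u⌋₊ := by simp

theorem g_meas : Measurable g := by
  have h1 : Measurable (fun n : ℕ => ∑ k ∈ Finset.Icc 1 n,
      ((ArithmeticFunction.liouville k : ℤ) : ℝ)) := measurable_from_top
  exact h1.comp (Nat.measurable_floor.comp Real.measurable_exp)

theorem g_abs (v : ℝ) : |g v| ≤ Real.exp v :=
  (Lx_abs _).trans (Nat.floor_le (Real.exp_pos _).le)

theorem g_lint {w : ℝ} (hw : 1 < w) : LInt g w := by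
  have h := lint_exp hw
  unfold LInt at *
  refine Integrable.mono h ?_ ?_
  · exact (g_meas.mul (by fun_prop)).aestronglyMeasurable
  · refine Eventually.of_forall fun v => ?_
    rw [norm_mul, norm_mul, Real.norm_of_nonneg (Real.exp_pos (1 * v)).le]
    refine mul_le_mul_of_nonneg_right ?_ (norm_nonneg _)
    rw [one_mul]
    exact g_abs v

/-- the completely multiplicative function `λ(n) n^{-s}` -/
noncomputable def lh (s : ℂ) (hs : s ≠ 0) : ℕ →*₀ ℂ where
  toFun n := ((ArithmeticFunction.liouville n : ℤ) : ℂ) * riemannZetaSummandHom hs n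
  map_zero' := by simp
  map_one' := by
    rw [ArithmeticFunction.liouville_apply_one, map_one]
    simp
  map_mul' m n := by
    rw [ArithmeticFunction.liouville_apply_mul, map_mul]
    push_cast
    ring

theorem lser {s : ℂ} (hs : 1 < s.re) :
    LSeries (fun n => ((ArithmeticFunction.liouville n : ℤ) : ℂ)) s * riemannZeta s = riemannZeta (2 * s) := by
  have hs0 : s ≠ 0 := by
    rintro rfl
    simp at hs
    linarith
  have hsum : Summable (fun n => ‖lh s hs0 n‖) := by
    refine Summable.of_nonneg_of_le (fun n => norm_nonneg _) (fun n => ?_) (summable_riemannZetaSummand hs)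
    show ‖((ArithmeticFunction.liouville n : ℤ) : ℂ) * riemannZetaSummandHom hs0 n‖ ≤ _
    rw [norm_mul]
    have h1 : ‖((ArithmeticFunction.liouville n : ℤ) : ℂ)‖ ≤ 1 := by
      have := li_le n
      rw [Complex.norm_intCast]
      exact this
    calc _ ≤ 1 * ‖riemannZetaSummandHom hs0 n‖ := mul_le_mul_of_nonneg_right h1 (norm_nonneg _)
      _ = _ := one_mul _
  have h1 := EulerProduct.eulerProduct_completely_multiplicative_hasProd hsum
  have h2 := riemannZeta_eulerProduct_hasProd hs
  have h3 := riemannZeta_eulerProduct_hasProd (s := 2 * s) (by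
    simp only [Complex.mul_re, Complex.re_ofNat, Complex.im_ofNat, zero_mul, sub_zero]
    linarith)
  have h4 := h1.mul h2
  have h5 : (fun p : Nat.Primes => (1 - lh s hs0 p)⁻¹ * (1 - (p : ℂ) ^ (-s))⁻¹) =
      fun p : Nat.Primes => (1 - (p : ℂ) ^ (-(2 * s)))⁻¹ := by
    funext p
    have e1 : lh s hs0 p = -(p : ℂ) ^ (-s) := by
      show ((ArithmeticFunction.liouville p : ℤ) : ℂ) * riemannZetaSummandHom hs0 p = _
      rw [ArithmeticFunction.liouville_apply p.2.ne_zero, ArithmeticFunction.cardFactors_apply_prime p.2]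
      show (((-1) ^ 1 : ℤ) : ℂ) * (p : ℂ) ^ (-s) = _
      push_cast
      ring
    have e2 : (p : ℂ) ^ (-(2 * s)) = (p : ℂ) ^ (-s) * (p : ℂ) ^ (-s) := by
      rw [← Complex.cpow_add _ _ (by exact_mod_cast p.2.ne_zero)]
      congr 1
      ring
    rw [e1, e2, ← mul_inv]
    congr 1
    ring
  rw [h5] at h4
  have h6 := h4.unique h3
  rw [← h6]
  congr 1
  unfold LSeries
  refine tsum_congr fun n => ?_
  rw [LSeries.term_def]
  split_ifs with h
  · rw [h]
    simp
  · show _ = ((ArithmeticFunction.liouville n : ℤ) : ℂ) * riemannZetaSummandHom hs0 n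
    show _ = ((ArithmeticFunction.liouville n : ℤ) : ℂ) * (n : ℂ) ^ (-s)
    rw [Complex.cpow_neg, div_eq_mul_inv]

theorem lapC_eq {s : ℂ} (hs : 1 < s.re) :
    s * lapC g s = LSeries (fun n => ((ArithmeticFunction.liouville n : ℤ) : ℂ)) s := by
  have h1 := LSeries_eq_mul_integral' (fun n => ((ArithmeticFunction.liouville n : ℤ) : ℂ))
    (r := 1) zero_le_one hs (by
      apply Asymptotics.IsBigO.of_bound 1
      refine Eventually.of_forall fun n => ?_
      have h2 : ∑ k ∈ Finset.Icc 1 n, ‖((ArithmeticFunction.liouville k : ℤ) : ℂ)‖ ≤ (n : ℝ) := by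
        calc ∑ k ∈ Finset.Icc 1 n, ‖((ArithmeticFunction.liouville k : ℤ) : ℂ)‖
            ≤ ∑ k ∈ Finset.Icc 1 n, (1 : ℝ) := Finset.sum_le_sum fun k _ => by
              rw [Complex.norm_intCast]
              exact li_le k
          _ = n := by simp
      rw [Real.norm_of_nonneg (Finset.sum_nonneg fun _ _ => norm_nonneg _), Real.rpow_one,
        Real.norm_of_nonneg (Nat.cast_nonneg _), one_mul]
      exact h2)
  rw [h1]
  congr 1
  have himg : Real.exp '' Ioi (0 : ℝ) = Ioi 1 := by
    ext t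
    constructor
    · rintro ⟨y, hy, rfl⟩
      exact Real.one_lt_exp_iff.2 hy
    · intro ht
      have ht' : (1 : ℝ) < t := ht
      exact ⟨Real.log t, Real.log_pos ht', Real.exp_log (by linarith)⟩
  rw [← himg, integral_image_eq_integral_abs_deriv_smul measurableSet_Ioi
    (fun x _ => (Real.hasDerivAt_exp x).hasDerivWithinAt) Real.exp_injective.injOn]
  unfold lapC
  apply setIntegral_congr_fun measurableSet_Ioi
  intro y _
  have hMx : (∑ k ∈ Finset.Icc 1 ⌊Real.exp y⌋₊, ((ArithmeticFunction.liouville k : ℤ) : ℂ)) =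
      ((Lx (Real.exp y) : ℝ) : ℂ) := by
    unfold Lx
    push_cast
    rfl
  have hpow : ((Real.exp y : ℝ) : ℂ) ^ (-(s + 1)) = Complex.exp ((y : ℂ) * (-(s + 1))) := by
    rw [Complex.cpow_def_of_ne_zero (by exact_mod_cast (Real.exp_pos y).ne'),
      ← Complex.ofReal_log (Real.exp_pos y).le, Real.log_exp]
  show ((g y : ℝ) : ℂ) * Complex.exp (-(s * y)) = |Real.exp y| • ((∑ k ∈ Finset.Icc 1 ⌊Real.exp y⌋₊,
    ((ArithmeticFunction.liouville k : ℤ) : ℂ)) * ((Real.exp y : ℝ) : ℂ) ^ (-(s + 1)))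
  rw [hMx, hpow, abs_of_pos (Real.exp_pos _), Complex.real_smul, Complex.ofReal_exp,
    mul_left_comm, ← Complex.exp_add]
  unfold g
  congr 2
  ring

theorem g_eq {z : ℂ} (hz : 1 < z.re) : z * riemannZeta₁ z * lapC g z = (z - 1) * riemannZeta (2 * z) := by
  have h1 := lapC_eq hz
  have h2 := lser hz
  have hz1 : z ≠ 1 := by
    rintro rfl
    simp at hz
  rw [← h2, ← h1, zeta1_eq hz1]
  ring

theorem z2_diff {z : ℂ} (hz : 1 / 2 < z.re) : DifferentiableAt ℂ (fun z : ℂ => riemannZeta (2 * z)) z := by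
  have h1 : 2 * z ≠ 1 := by
    intro h
    have := congrArg Complex.re h
    simp only [Complex.mul_re, Complex.re_ofNat, Complex.im_ofNat, zero_mul, sub_zero, Complex.one_re] at this
    linarith
  exact (differentiableAt_riemannZeta h1).comp z (differentiableAt_id.const_mul 2)

theorem g_ext {a : ℝ} (ha : 1 / 2 ≤ a) (h : ∀ w > a, LInt g w) {z : ℂ} (hz : a < z.re) :
    z * riemannZeta₁ z * lapC g z = (z - 1) * riemannZeta (2 * z) := by
  have hd : DifferentiableOn ℂ (fun z => z * riemannZeta₁ z * lapC g z) {z : ℂ | a < z.re} := by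
    intro z hz
    have hz' : a < z.re := hz
    exact ((differentiableAt_id.mul (differentiable_riemannZeta₁ z)).mul
      (lapC_differentiableAt g_meas h hz')).differentiableWithinAt
  have hd1 : DifferentiableOn ℂ (fun z : ℂ => (z - 1) * riemannZeta (2 * z)) {z : ℂ | a < z.re} := by
    intro z hz
    have hz' : a < z.re := hz
    exact ((differentiableAt_id.sub_const 1).mul (z2_diff (by linarith))).differentiableWithinAt
  have h1 := hd1.analyticOnNhd (isOpen_half a)
  have h2 := hd.analyticOnNhd (isOpen_half a)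
  have hz0 : a < (((max a 1 + 1 : ℝ) : ℂ)).re := by
    rw [Complex.ofReal_re]
    have := le_max_left a 1
    linarith
  have h3 := h2.eqOn_of_preconnected_of_eventuallyEq h1 (preconn_half a) hz0 ?_
  · exact h3 hz
  · have hz1 : 1 < (((max a 1 + 1 : ℝ) : ℂ)).re := by
      rw [Complex.ofReal_re]
      have := le_max_right a 1
      linarith
    filter_upwards [(isOpen_half 1).mem_nhds hz1] with z hz
    exact g_eq hz

/-- one side gives the other side -/
theorem other_side {e : ℝ} (h : ∀ w > (1 / 2 : ℝ), LInt (fun u => max (e * g u) 0) w) :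
    ∀ w > (1 / 2 : ℝ), LInt (fun u => max (-(e * g u)) 0) w := by
  have hme : Measurable (fun u => e * g u) := g_meas.const_mul e
  obtain ⟨G, hG⟩ : ∃ G : ℝ → ℝ, G = fun w : ℝ =>
      (lapC (fun u => max (e * g u) 0) (w : ℂ) - (e : ℂ) * ((((w : ℂ) - 1) * riemannZeta (2 * (w : ℂ))) /
        ((w : ℂ) * riemannZeta₁ w))).re := ⟨_, rfl⟩
  have hlan := TH988.RB.landau_lap (f := fun u => max (-(e * g u)) 0)
    (hme.neg.max measurable_const) (fun u _ => le_max_right _ _) (a := 1 / 2) (w1 := 1)
    (fun w hw => by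
      have h1 := ((g_lint hw).const_mul e).neg
      exact LInt.posPart (hme.neg) h1)
    (g := G) (fun w hw => ?_) (fun w hw hw2 => ?_)
  · exact hlan.1
  · rw [hG]
    refine re_analytic (f := fun z : ℂ => lapC (fun u => max (e * g u) 0) z -
      (e : ℂ) * (((z - 1) * riemannZeta (2 * z)) / (z * riemannZeta₁ z))) ?_
    have hw0 : (0 : ℝ) < w := by linarith
    have hmem : (w : ℂ) ∈ {z : ℂ | (1 / 2 : ℝ) < z.re} := by
      show (1 / 2 : ℝ) < (w : ℂ).re
      rw [Complex.ofReal_re]; exact hw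
    have h1 : AnalyticAt ℂ (fun z : ℂ => lapC (fun u => max (e * g u) 0) z) (w : ℂ) := by
      have hdiff : DifferentiableOn ℂ (fun z : ℂ => lapC (fun u => max (e * g u) 0) z)
          {z : ℂ | (1 / 2 : ℝ) < z.re} := by
        intro z hz
        exact (lapC_differentiableAt (hme.max measurable_const) h hz).differentiableWithinAt
      exact hdiff.analyticAt ((isOpen_half (1 / 2)).mem_nhds hmem)
    have h3 : AnalyticAt ℂ (fun z : ℂ => riemannZeta (2 * z)) (w : ℂ) := by
      have hdiff : DifferentiableOn ℂ (fun z : ℂ => riemannZeta (2 * z)) {z : ℂ | (1 / 2 : ℝ) < z.re} := by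
        intro z hz
        exact (z2_diff hz).differentiableWithinAt
      exact hdiff.analyticAt ((isOpen_half (1 / 2)).mem_nhds hmem)
    have h2 : AnalyticAt ℂ (fun z : ℂ => ((z - 1) * riemannZeta (2 * z)) / (z * riemannZeta₁ z)) (w : ℂ) := by
      refine ((analyticAt_id.sub analyticAt_const).mul h3).div (analyticAt_id.mul
        (differentiable_riemannZeta₁.analyticAt _)) ?_
      exact mul_ne_zero (by exact_mod_cast hw0.ne') (zeta1_real hw0)
    exact h1.sub (analyticAt_const.mul h2)
  · have hw0 : (0 : ℝ) < w := by linarith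
    have h1 := g_lint hw
    have h2 := h w hw2
    have h3 : (fun u => max (-(e * g u)) 0) = fun u => max (e * g u) 0 - e * g u := by
      funext u
      rcases le_total 0 (e * g u) with h4 | h4
      · rw [max_eq_right (by linarith), max_eq_left h4, sub_self]
      · rw [max_eq_left (by linarith), max_eq_right h4, zero_sub]
    have h5 : ((((w : ℂ) - 1) * riemannZeta (2 * (w : ℂ))) / ((w : ℂ) * riemannZeta₁ w)) = lapC g w := by
      have h6 := g_eq (z := (w : ℂ)) (by rw [Complex.ofReal_re]; exact hw)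
      rw [← h6, mul_div_cancel_left₀]
      exact mul_ne_zero (by exact_mod_cast hw0.ne') (zeta1_real hw0)
    rw [h3, lap_sub h2 (h1.const_mul e), lap_const_mul, hG]
    simp only []
    rw [h5, lapC_ofReal, lapC_ofReal]
    rw [← Complex.ofReal_mul, ← Complex.ofReal_sub, Complex.ofReal_re]

/-- no zeros to the right of the critical line -/
theorem no_zero (h : ∀ w > (1 / 2 : ℝ), LInt g w) {ρ : ℂ} (hρ : 1 / 2 < ρ.re) : riemannZeta ρ ≠ 0 := by
  intro h0
  by_cases h1 : ρ = 1
  · rw [h1] at h0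
    exact riemannZeta_one_ne_zero h0
  have h2 := g_ext le_rfl h hρ
  rw [zeta1_eq h1, h0, mul_zero, mul_zero, zero_mul] at h2
  have h3 : riemannZeta (2 * ρ) ≠ 0 := riemannZeta_ne_zero_of_one_le_re (by
    simp only [Complex.mul_re, Complex.re_ofNat, Complex.im_ofNat, zero_mul, sub_zero]
    linarith)
  exact mul_ne_zero (sub_ne_zero.2 h1) h3 h2.symm

theorem rh (h : ∀ w > (1 / 2 : ℝ), LInt g w) {ρ : ℂ} (h0 : riemannZeta ρ = 0) (h1 : 0 < ρ.re) (h2 : ρ.re < 1) :
    ρ.re = 1 / 2 := by
  by_contra hne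
  rcases lt_or_gt_of_ne hne with h3 | h3
  · have hn : ∀ n : ℕ, ρ ≠ -n := by
      intro n hn
      rw [hn] at h1
      simp at h1
      have : (0 : ℝ) ≤ n := n.cast_nonneg
      linarith
    have hρ1 : ρ ≠ 1 := by
      rintro rfl
      simp at h2
    have h4 := riemannZeta_one_sub hn hρ1
    rw [h0, mul_zero] at h4
    refine no_zero h (ρ := 1 - ρ) ?_ h4
    rw [Complex.sub_re, Complex.one_re]
    linarith
  · exact no_zero h h3 h0

end Pool.Agent.Y853.HML
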