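import Pool.Agent.Y853.HM.Fin

set_option autoImplicit false

/-! Abel means of bounded functions; local duality. -/

namespace Pool.Agent.Y853.HM

open Filter Topology Set MeasureTheory Complex
open Pool.Agent.W263.BSD Pool.Agent.W120.WM

/-- the integral with weight `e^{-δv}` -/
noncomputable def J1 (F : ℝ → ℂ) (δ : ℝ) : ℂ := ∫ v in Ioi (0 : ℝ), ((Real.exp (-(δ * v)) : ℝ) : ℂ) * F v

/-- the Abel mean of `F` exists -/
def H1 (F : ℝ → ℂ) (l : ℂ) : Prop := Continuous F ∧ (∃ B, ∀ v, ‖F v‖ ≤ B) ∧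
  Tendsto (fun δ : ℝ => (δ : ℂ) * J1 F δ) (𝓝[>] 0) (𝓝 l)

theorem exp_int {δ : ℝ} (hδ : 0 < δ) : IntegrableOn (fun v : ℝ => Real.exp (-(δ * v))) (Ioi 0) := by
  have := exp_neg_integrableOn_Ioi 0 hδ
  simpa only [neg_mul] using this

theorem J1_int {F : ℝ → ℂ} (hF : Continuous F) {B : ℝ} (hB : ∀ v, ‖F v‖ ≤ B) {δ : ℝ} (hδ : 0 < δ) :
    IntegrableOn (fun v => ((Real.exp (-(δ * v)) : ℝ) : ℂ) * F v) (Ioi 0) :=
  Integrable.mul_bdd (c := B) (exp_int hδ).ofReal hF.aestronglyMeasurable (Eventually.of_forall hB)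

theorem H1.add {F G : ℝ → ℂ} {l m : ℂ} (h1 : H1 F l) (h2 : H1 G m) :
    H1 (fun v => F v + G v) (l + m) := by
  obtain ⟨a1, ⟨B1, b1⟩, c1⟩ := h1
  obtain ⟨a2, ⟨B2, b2⟩, c2⟩ := h2
  refine ⟨a1.add a2, ⟨B1 + B2, fun v => (norm_add_le _ _).trans (add_le_add (b1 v) (b2 v))⟩, ?_⟩
  refine (c1.add c2).congr' ?_
  filter_upwards [self_mem_nhdsWithin] with δ hδ
  have hδ' : 0 < δ := hδ
  rw [← mul_add]
  congr 1
  unfold J1
  rw [← integral_add (J1_int a1 b1 hδ') (J1_int a2 b2 hδ')]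
  refine integral_congr_ae (Eventually.of_forall fun v => ?_)
  simp only [mul_add]

theorem H1.const_mul {F : ℝ → ℂ} {l : ℂ} (h1 : H1 F l) (c : ℂ) :
    H1 (fun v => c * F v) (c * l) := by
  obtain ⟨a1, ⟨B1, b1⟩, c1⟩ := h1
  refine ⟨continuous_const.mul a1, ⟨‖c‖ * B1, fun v => ?_⟩, ?_⟩
  · rw [norm_mul]
    exact mul_le_mul_of_nonneg_left (b1 v) (norm_nonneg _)
  · refine (c1.const_mul c).congr fun δ => ?_
    rw [mul_left_comm]
    congr 1
    unfold J1
    rw [← integral_const_mul]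
    refine integral_congr_ae (Eventually.of_forall fun v => ?_)
    simp only []
    ring

theorem H1.zero : H1 (fun _ => 0) 0 := by
  refine ⟨continuous_const, ⟨0, fun v => by simp⟩, ?_⟩
  have : (fun δ : ℝ => (δ : ℂ) * J1 (fun _ => 0) δ) = fun _ => 0 := by
    funext δ
    unfold J1
    simp
  rw [this]
  exact tendsto_const_nhds

theorem H1.sum {ι : Type*} (S : Finset ι) {F : ι → ℝ → ℂ} {l : ι → ℂ}
    (h1 : ∀ i ∈ S, H1 (F i) (l i)) : H1 (fun v => ∑ i ∈ S, F i v) (∑ i ∈ S, l i) := by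
  classical
  induction S using Finset.induction_on with
  | empty =>
    simp only [Finset.sum_empty]
    exact H1.zero
  | insert i S hi ih =>
    simp only [Finset.sum_insert hi]
    exact (h1 i (Finset.mem_insert_self _ _)).add (ih fun j hj => h1 j (Finset.mem_insert_of_mem hj))

open Classical in
theorem H1_ee (t : ℝ) : H1 (ee t) (if t = 0 then 1 else 0) := by
  refine ⟨ee_cont t, ⟨1, fun v => (ee_norm t v).le⟩, ?_⟩
  have hJ : ∀ δ : ℝ, 0 < δ → J1 (ee t) δ = 1 / (δ + t * I) := by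
    intro δ hδ
    have h1 := integral_exp_mul_complex_Ioi (a := -((δ : ℂ) + t * I)) (by simpa using hδ) 0
    have h2 : J1 (ee t) δ = ∫ x : ℝ in Ioi 0, Complex.exp (-((δ : ℂ) + t * I) * x) := by
      unfold J1 ee
      refine integral_congr_ae (Eventually.of_forall fun v => ?_)
      simp only []
      rw [Complex.ofReal_exp, ← Complex.exp_add]
      congr 1
      push_cast
      ring
    rw [h2, h1, Complex.ofReal_zero, mul_zero, Complex.exp_zero, neg_div_neg_eq]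
  by_cases ht : t = 0
  · rw [if_pos ht]
    refine Tendsto.congr' ?_ tendsto_const_nhds
    filter_upwards [self_mem_nhdsWithin] with δ hδ
    have hδ0 : (0 : ℝ) < δ := hδ
    have : (δ : ℂ) ≠ 0 := by exact_mod_cast hδ0.ne'
    rw [hJ δ hδ0, ht]
    simp [this]
  · rw [if_neg ht]
    have h0 : ((0 : ℝ) : ℂ) + t * I ≠ 0 := by
      simp [ht]
    have h1 : Tendsto (fun δ : ℝ => (δ : ℂ) * (1 / ((δ : ℂ) + t * I))) (𝓝[>] 0)
        (𝓝 (((0 : ℝ) : ℂ) * (1 / (((0 : ℝ) : ℂ) + t * I)))) := by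
      have hc : Tendsto (fun δ : ℝ => (δ : ℂ)) (𝓝[>] 0) (𝓝 ((0 : ℝ) : ℂ)) :=
        (Complex.continuous_ofReal.tendsto 0).mono_left nhdsWithin_le_nhds
      exact hc.mul (tendsto_const_nhds.div (hc.add_const _) h0)
    rw [Complex.ofReal_zero, zero_mul] at h1
    refine h1.congr' ?_
    filter_upwards [self_mem_nhdsWithin] with δ hδ
    rw [hJ δ hδ]

theorem H1_one : H1 (fun _ => 1) 1 := by
  have h := H1_ee 0
  rw [if_pos rfl] at h
  have : ee 0 = fun _ => 1 := by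
    funext v
    exact ee_zero v
  rwa [this] at h

theorem fg (δ v : ℝ) : g v * Real.exp (-((1 / 2 + δ) * v)) = f v * Real.exp (-(δ * v)) := by
  unfold f g
  rw [mul_assoc, ← Real.exp_add]
  congr 2
  ring

/-- **The main inequality**: `κ` is a free parameter -/
theorem main_loc {s C : ℝ} (hs : s = 1 ∨ s = -1) (hC : 0 < C)
    (h : ∀ᶠ x : ℝ in atTop, ∫ u in (1 : ℝ)..x, (max (s * Mx u) 0 / u) ^ 2 ≤ C * Real.log x)
    {Q : ℝ → ℂ} {Φ : ℝ → ℝ} {l m : ℂ} (hQ : HM Q l) (hΦ : HM (fun v => (Φ v : ℂ)) 0)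
    (hΦ2 : H1 (fun v => ((Φ v ^ 2 : ℝ) : ℂ)) m) (hQΦ : ∀ v, ‖Q v‖ ≤ Φ v) {κ : ℝ} (hκ : 0 < κ) :
    ‖l‖ ≤ κ * C + κ⁻¹ * m.re := by
  have hkm : Measurable fun v => max (s * f v) 0 ^ 2 := ((f_meas.const_mul s).max measurable_const).pow_const 2
  have hk : ∀ v, max (s * f v) 0 ^ 2 ≤ f v ^ 2 := by
    intro v
    rcases hs with rfl | rfl
    · rcases le_total 0 (f v) with h4 | h4
      · rw [max_eq_left (by linarith)]; nlinarith
      · rw [max_eq_right (by linarith)]; nlinarith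
    · rcases le_total 0 (f v) with h4 | h4
      · rw [max_eq_right (by linarith)]; nlinarith
      · rw [max_eq_left (by linarith)]; nlinarith
  have hloc := loc (fun v => sq_nonneg _) hkm hk
  have h1 : ∀ᶠ w : ℝ in atTop, ∫ v in Ioc (0 : ℝ) w, max (s * f v) 0 ^ 2 ≤ C * w := by
    filter_upwards [Real.tendsto_exp_atTop.eventually h, eventually_gt_atTop 0] with w hw hw0
    rw [Real.log_exp, cv_sq (fun x => max (s * x) 0) (fun c x hc => by
      rw [← mul_assoc, max_mul_of_nonneg _ _ hc.le, zero_mul]) hw0] at hw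
    exact hw
  obtain ⟨D, hD, h2⟩ := all_of_ev (fun v => sq_nonneg _) hloc hC h1
  have hne : lowerMean s ≠ ⊤ := ((half_sq hs hC h).trans_lt ENNReal.ofReal_lt_top).ne
  have hL := lint_g hs (lint_all hne)
  -- the limit inequality
  have hlim : Tendsto (fun δ : ℝ => κ * (C + δ * D) + κ⁻¹ * ((δ : ℂ) * J1 (fun v => ((Φ v ^ 2 : ℝ) : ℂ)) δ).re +
      ‖(δ : ℂ) * J (fun v => (Φ v : ℂ)) δ‖) (𝓝[>] 0) (𝓝 (κ * (C + 0 * D) + κ⁻¹ * m.re + ‖(0 : ℂ)‖)) := by
    have hid : Tendsto (fun δ : ℝ => δ) (𝓝[>] 0) (𝓝 0) := tendsto_id.mono_left nhdsWithin_le_nhds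
    exact ((((hid.mul_const D).const_add C).const_mul κ).add
      (((Complex.continuous_re.tendsto m).comp hΦ2.2.2).const_mul κ⁻¹)).add hΦ.2.2.norm
  rw [norm_zero, add_zero, zero_mul, add_zero] at hlim
  refine le_of_tendsto_of_tendsto hQ.2.2.norm hlim ?_
  filter_upwards [self_mem_nhdsWithin] with δ hδ
  have hδ0 : (0 : ℝ) < δ := hδ
  obtain ⟨BΦ, hBΦ⟩ := hΦ.2.1
  have hab := abel_le (fun v => sq_nonneg _) hkm hloc hC hD h2 hδ0
  have hPi : IntegrableOn (fun v => max (s * f v) 0 ^ 2 * Real.exp (-(δ * v))) (Ioi 0) := by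
    refine ⟨(hkm.mul (by fun_prop)).aestronglyMeasurable, ?_⟩
    rw [hasFiniteIntegral_iff_ofReal (Eventually.of_forall fun v => by positivity)]
    exact hab.trans_lt ENNReal.ofReal_lt_top
  have hPb : ∫ v in Ioi (0 : ℝ), max (s * f v) 0 ^ 2 * Real.exp (-(δ * v)) ≤ C / δ + D := by
    rw [← ofReal_integral_eq_lintegral_ofReal hPi (Eventually.of_forall fun v => by positivity)] at hab
    rwa [ENNReal.ofReal_le_ofReal_iff (by positivity)] at hab
  have hΦi := J1_int hΦ2.1 (B := BΦ ^ 2) (fun v => by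
    have h5 := hBΦ v
    rw [Complex.norm_real, Real.norm_eq_abs] at h5 ⊢
    rw [abs_pow]
    exact pow_le_pow_left₀ (abs_nonneg _) h5 2) hδ0
  have hΦr : IntegrableOn (fun v => Real.exp (-(δ * v)) * Φ v ^ 2) (Ioi 0) := by
    have := hΦi.re
    refine this.congr (Eventually.of_forall fun v => ?_)
    simp only []
    rw [← Complex.ofReal_mul]
    exact Complex.ofReal_re _
  have hΦre : (J1 (fun v => ((Φ v ^ 2 : ℝ) : ℂ)) δ).re = ∫ v in Ioi (0 : ℝ), Real.exp (-(δ * v)) * Φ v ^ 2 := by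
    unfold J1
    have : (fun v => ((Real.exp (-(δ * v)) : ℝ) : ℂ) * ((Φ v ^ 2 : ℝ) : ℂ)) =
        fun v => ((Real.exp (-(δ * v)) * Φ v ^ 2 : ℝ) : ℂ) := by
      funext v
      rw [Complex.ofReal_mul]
    rw [this, integral_complex_ofReal, Complex.ofReal_re]
  have hfi := J_int hL hΦ.1 hBΦ hδ0
  have hfr : IntegrableOn (fun v => f v * Real.exp (-(δ * v)) * Φ v) (Ioi 0) := by
    have := hfi.re
    refine this.congr (Eventually.of_forall fun v => ?_)
    simp only []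
    rw [← Complex.ofReal_mul, fg]
    exact Complex.ofReal_re _
  have hJe : J (fun v => (Φ v : ℂ)) δ = ((∫ v in Ioi (0 : ℝ), f v * Real.exp (-(δ * v)) * Φ v : ℝ) : ℂ) := by
    rw [← integral_complex_ofReal]
    unfold J
    refine integral_congr_ae (Eventually.of_forall fun v => ?_)
    simp only []
    rw [← Complex.ofReal_mul, fg]
  -- pointwise bound
  have hpt : ‖J Q δ‖ ≤ ∫ v in Ioi (0 : ℝ), (κ * (max (s * f v) 0 ^ 2 * Real.exp (-(δ * v))) +
      κ⁻¹ * (Real.exp (-(δ * v)) * Φ v ^ 2) - s * (f v * Real.exp (-(δ * v)) * Φ v)) := by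
    unfold J
    refine norm_integral_le_of_norm_le (((hPi.const_mul κ).add (hΦr.const_mul κ⁻¹)).sub (hfr.const_mul s))
      (Eventually.of_forall fun v => ?_)
    rw [norm_mul, Complex.norm_real, Real.norm_eq_abs, abs_mul, abs_of_pos (Real.exp_pos _)]
    have e1 : |g v| * Real.exp (-((1 / 2 + δ) * v)) = |f v| * Real.exp (-(δ * v)) := by
      unfold f g
      rw [abs_mul, abs_of_pos (Real.exp_pos (-(v / 2))), mul_assoc, ← Real.exp_add]
      congr 2
      ring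
    rw [e1]
    have hΦ0 : 0 ≤ Φ v := (norm_nonneg _).trans (hQΦ v)
    have e2 : |f v| = 2 * max (s * f v) 0 - s * f v := by
      rcases hs with rfl | rfl <;> rcases le_total 0 (f v) with h4 | h4
      · rw [abs_of_nonneg h4, max_eq_left (by linarith)]; ring
      · rw [abs_of_nonpos h4, max_eq_right (by linarith)]; ring
      · rw [abs_of_nonneg h4, max_eq_right (by linarith)]; ring
      · rw [abs_of_nonpos h4, max_eq_left (by linarith)]; ring
    have e3 : 2 * max (s * f v) 0 * Φ v ≤ κ * max (s * f v) 0 ^ 2 + κ⁻¹ * Φ v ^ 2 := by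
      have h6 : κ * max (s * f v) 0 ^ 2 + κ⁻¹ * Φ v ^ 2 - 2 * max (s * f v) 0 * Φ v =
          (κ * max (s * f v) 0 - Φ v) ^ 2 * κ⁻¹ := by
        field_simp
        ring
      have h7 : 0 ≤ (κ * max (s * f v) 0 - Φ v) ^ 2 * κ⁻¹ := by positivity
      linarith
    calc |f v| * Real.exp (-(δ * v)) * ‖Q v‖ ≤ |f v| * Real.exp (-(δ * v)) * Φ v :=
          mul_le_mul_of_nonneg_left (hQΦ v) (by positivity)
      _ = (2 * max (s * f v) 0 * Φ v - s * f v * Φ v) * Real.exp (-(δ * v)) := by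
          rw [e2]
          ring
      _ ≤ (κ * max (s * f v) 0 ^ 2 + κ⁻¹ * Φ v ^ 2 - s * f v * Φ v) * Real.exp (-(δ * v)) :=
          mul_le_mul_of_nonneg_right (by linarith) (Real.exp_pos _).le
      _ = _ := by ring
  have hpt2 : ∫ v in Ioi (0 : ℝ), (κ * (max (s * f v) 0 ^ 2 * Real.exp (-(δ * v))) +
      κ⁻¹ * (Real.exp (-(δ * v)) * Φ v ^ 2) - s * (f v * Real.exp (-(δ * v)) * Φ v)) =
      κ * (∫ v in Ioi (0 : ℝ), max (s * f v) 0 ^ 2 * Real.exp (-(δ * v))) +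
      κ⁻¹ * (∫ v in Ioi (0 : ℝ), Real.exp (-(δ * v)) * Φ v ^ 2) -
      s * ∫ v in Ioi (0 : ℝ), f v * Real.exp (-(δ * v)) * Φ v := by
    have i1 : IntegrableOn (fun v => κ * (max (s * f v) 0 ^ 2 * Real.exp (-(δ * v))) +
      κ⁻¹ * (Real.exp (-(δ * v)) * Φ v ^ 2)) (Ioi 0) := (hPi.const_mul κ).add (hΦr.const_mul κ⁻¹)
    rw [integral_sub i1 (hfr.const_mul s),
      integral_add (hPi.const_mul κ) (hΦr.const_mul κ⁻¹), integral_const_mul, integral_const_mul,
      integral_const_mul]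
  rw [hpt2] at hpt
  have e4 : -(s * ∫ v in Ioi (0 : ℝ), f v * Real.exp (-(δ * v)) * Φ v) ≤ ‖J (fun v => (Φ v : ℂ)) δ‖ := by
    rw [hJe, Complex.norm_real, Real.norm_eq_abs]
    refine (neg_le_abs _).trans ?_
    rw [abs_mul]
    rcases hs with rfl | rfl <;> simp
  rw [norm_mul, norm_mul, Complex.norm_of_nonneg hδ0.le]
  have e5 : ((δ : ℂ) * J1 (fun v => ((Φ v ^ 2 : ℝ) : ℂ)) δ).re =
      δ * ∫ v in Ioi (0 : ℝ), Real.exp (-(δ * v)) * Φ v ^ 2 := by
    rw [Complex.re_ofReal_mul, hΦre]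
  rw [e5]
  have e6 : ‖J Q δ‖ ≤ κ * (C / δ + D) + κ⁻¹ * (∫ v in Ioi (0 : ℝ), Real.exp (-(δ * v)) * Φ v ^ 2) +
      ‖J (fun v => (Φ v : ℂ)) δ‖ := by
    have := mul_le_mul_of_nonneg_left hPb hκ.le
    linarith
  refine (mul_le_mul_of_nonneg_left e6 hδ0.le).trans (le_of_eq ?_)
  field_simp

end Pool.Agent.Y853.HM
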