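import Pool.Agent.Y853.HM.Loc1

set_option autoImplicit false

/-! Local duality with fourth moments, Sidon sets. -/

namespace Pool.Agent.Y853.HM

open Filter Topology Set MeasureTheory Complex
open Pool.Agent.W263.BSD Pool.Agent.W120.WM

/-- the trigonometric sum -/
noncomputable def tp (T : Finset ℝ) (q : ℝ → ℂ) (v : ℝ) : ℂ := ∑ t ∈ T, q t * ee t v

theorem tp_sq (T : Finset ℝ) (q : ℝ → ℂ) (v : ℝ) : ((‖tp T q v‖ ^ 2 : ℝ) : ℂ) =
    ∑ a ∈ T, ∑ b ∈ T, (q a * (starRingEnd ℂ) (q b)) * ee (a - b) v := by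
  rw [Complex.ofReal_pow, ← Complex.mul_conj']
  unfold tp
  rw [map_sum, Finset.sum_mul]
  refine Finset.sum_congr rfl fun a _ => ?_
  rw [Finset.mul_sum]
  refine Finset.sum_congr rfl fun b _ => ?_
  rw [map_mul, ← ee_neg, sub_eq_add_neg, ee_add]
  ring

theorem tp_four (T : Finset ℝ) (q : ℝ → ℂ) (v : ℝ) : ((‖tp T q v‖ ^ 4 : ℝ) : ℂ) =
    ∑ a ∈ T, ∑ b ∈ T, ∑ c ∈ T, ∑ d ∈ T, (q a * (starRingEnd ℂ) (q b) * (q c * (starRingEnd ℂ) (q d))) *
      ee (a - b + (c - d)) v := by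
  have h1 : ((‖tp T q v‖ ^ 4 : ℝ) : ℂ) = ((‖tp T q v‖ ^ 2 : ℝ) : ℂ) * ((‖tp T q v‖ ^ 2 : ℝ) : ℂ) := by
    push_cast
    ring
  rw [h1, tp_sq, Finset.sum_mul]
  refine Finset.sum_congr rfl fun a _ => ?_
  rw [Finset.sum_mul]
  refine Finset.sum_congr rfl fun b _ => ?_
  rw [Finset.mul_sum]
  refine Finset.sum_congr rfl fun c _ => ?_
  rw [Finset.mul_sum]
  refine Finset.sum_congr rfl fun d _ => ?_
  rw [ee_add]
  ring

open Classical in
/-- the fourth moment -/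
noncomputable def four (T : Finset ℝ) (q : ℝ → ℂ) : ℝ :=
  ∑ a ∈ T, ∑ b ∈ T, ∑ c ∈ T, ∑ d ∈ T,
    if a + c = b + d then (q a * (starRingEnd ℂ) (q b) * (q c * (starRingEnd ℂ) (q d))).re else 0

theorem local_dual {s C : ℝ} (hs : s = 1 ∨ s = -1) (hC : 0 < C)
    (h : ∀ᶠ x : ℝ in atTop, ∫ u in (1 : ℝ)..x, (max (s * Mx u) 0 / u) ^ 2 ≤ C * Real.log x)
    {L : ℝ} (hL : ∀ t : ℝ, |t| < L → riemannZeta (pt t) ≠ 0) (T : Finset ℝ) (hT : ∀ a ∈ T, ∀ b ∈ T, |a - b| < L)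
    (q : ℝ → ℂ) : ‖∑ t ∈ T, q t * cf t‖ ^ 2 ≤ 2 * C * (Real.sqrt (four T q) + ∑ t ∈ T, ‖q t‖ ^ 2) := by
  classical
  have hne : lowerMean s ≠ ⊤ := ((half_sq hs hC h).trans_lt ENNReal.ofReal_lt_top).ne
  have hA : lowerMean 1 ≠ ⊤ := by
    rcases hs with rfl | rfl
    · exact hne
    · rw [low_eq]; exact hne
  have hg := lint_g hs (lint_all hne)
  have hsm := simple_A hA
  by_cases hTe : T = ∅
  · subst hTe
    simp [four]
  obtain ⟨t0, ht0⟩ := Finset.nonempty_iff_ne_empty.2 hTe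
  have hLpos : 0 < L := by
    have := hT t0 ht0 t0 ht0
    rwa [sub_self, abs_zero] at this
  have hcf : ∀ t : ℝ, |t| < L → cf t = 0 := fun t ht => by
    unfold cf
    rw [if_neg (hL t ht)]
  set Nq : ℝ := ∑ t ∈ T, ‖q t‖ ^ 2 with hNq
  have hNq0 : 0 ≤ Nq := Finset.sum_nonneg fun _ _ => by positivity
  refine le_of_forall_pos_le_add fun ε hε => ?_
  set η : ℝ := ε / (2 * C) with hη
  have hη0 : 0 < η := by positivity
  set r : ℝ := Real.sqrt (four T q) + η with hr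
  have hr0 : 0 < r := by positivity
  set lam : ℝ := Real.sqrt r with hlam
  have hlam0 : 0 < lam := Real.sqrt_pos.2 hr0
  have hlam2 : lam ^ 2 = r := Real.sq_sqrt hr0.le
  -- the majorant
  obtain ⟨Φ, hΦd⟩ : ∃ Φ : ℝ → ℝ, Φ = fun v => (‖tp T q v‖ ^ 2 / lam + lam) / 2 := ⟨_, rfl⟩
  have hQΦ : ∀ v, ‖tp T q v‖ ≤ Φ v := by
    intro v
    rw [hΦd]
    have h6 : (‖tp T q v‖ ^ 2 / lam + lam) / 2 - ‖tp T q v‖ = (‖tp T q v‖ - lam) ^ 2 / (2 * lam) := by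
      field_simp
      ring
    have h7 : 0 ≤ (‖tp T q v‖ - lam) ^ 2 / (2 * lam) := by positivity
    linarith
  have hQ : HM (tp T q) (∑ t ∈ T, q t * cf t) :=
    HM.sum hg T fun t _ => (HM_ee hg t (hsm t)).const_mul _
  have hone : HM (fun _ => 1) 0 := by
    have h1 := HM_ee hg 0 (hsm 0)
    rw [hcf 0 (by rwa [abs_zero])] at h1
    have : ee 0 = fun _ => 1 := by
      funext v
      exact ee_zero v
    rwa [this] at h1
  have hsqHM : HM (fun v => ((‖tp T q v‖ ^ 2 : ℝ) : ℂ)) 0 := by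
    have h1 : HM (fun v => ∑ a ∈ T, ∑ b ∈ T, (q a * (starRingEnd ℂ) (q b)) * ee (a - b) v)
        (∑ a ∈ T, ∑ b ∈ T, (q a * (starRingEnd ℂ) (q b)) * cf (a - b)) :=
      HM.sum hg T fun a _ => HM.sum hg T fun b _ => (HM_ee hg _ (hsm _)).const_mul _
    have h2 : ∑ a ∈ T, ∑ b ∈ T, (q a * (starRingEnd ℂ) (q b)) * cf (a - b) = 0 :=
      Finset.sum_eq_zero fun a ha => Finset.sum_eq_zero fun b hb => by
        rw [hcf _ (hT a ha b hb), mul_zero]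
    rw [h2] at h1
    simp only [tp_sq]
    exact h1
  have hΦ : HM (fun v => (Φ v : ℂ)) 0 := by
    have h1 := (hsqHM.const_mul ((1 / (2 * lam) : ℝ) : ℂ)).add hg (hone.const_mul ((lam / 2 : ℝ) : ℂ))
    rw [mul_zero, mul_zero, add_zero] at h1
    have h2 : (fun v => (Φ v : ℂ)) = fun v => ((1 / (2 * lam) : ℝ) : ℂ) * ((‖tp T q v‖ ^ 2 : ℝ) : ℂ) +
        ((lam / 2 : ℝ) : ℂ) * 1 := by
      funext v
      rw [hΦd, mul_one, ← Complex.ofReal_mul, ← Complex.ofReal_add]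
      congr 1
      field_simp
    rw [h2]
    exact h1
  have h1sq : H1 (fun v => ((‖tp T q v‖ ^ 2 : ℝ) : ℂ)) ((Nq : ℝ) : ℂ) := by
    have h1 : H1 (fun v => ∑ a ∈ T, ∑ b ∈ T, (q a * (starRingEnd ℂ) (q b)) * ee (a - b) v)
        (∑ a ∈ T, ∑ b ∈ T, (q a * (starRingEnd ℂ) (q b)) * (if a - b = 0 then 1 else 0)) :=
      H1.sum T fun a _ => H1.sum T fun b _ => (H1_ee _).const_mul _
    have h2 : ∑ a ∈ T, ∑ b ∈ T, (q a * (starRingEnd ℂ) (q b)) * (if a - b = 0 then 1 else 0) = ((Nq : ℝ) : ℂ) := by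
      rw [hNq, Complex.ofReal_sum]
      refine Finset.sum_congr rfl fun a ha => ?_
      rw [Finset.sum_eq_single a]
      · rw [sub_self, if_pos rfl, mul_one, Complex.mul_conj', Complex.ofReal_pow]
      · intro b _ hb
        rw [if_neg (sub_ne_zero.2 (Ne.symm hb)), mul_zero]
      · intro h3
        exact absurd ha h3
    rw [h2] at h1
    simp only [tp_sq]
    exact h1
  obtain ⟨m4, hm4⟩ : ∃ m4 : ℂ, m4 = ∑ a ∈ T, ∑ b ∈ T, ∑ c ∈ T, ∑ d ∈ T,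
      (q a * (starRingEnd ℂ) (q b) * (q c * (starRingEnd ℂ) (q d))) * (if a - b + (c - d) = 0 then 1 else 0) := ⟨_, rfl⟩
  have h1four : H1 (fun v => ((‖tp T q v‖ ^ 4 : ℝ) : ℂ)) m4 := by
    rw [hm4]
    simp only [tp_four]
    exact H1.sum T fun a _ => H1.sum T fun b _ => H1.sum T fun c _ => H1.sum T fun d _ => (H1_ee _).const_mul _
  have hm4re : m4.re = four T q := by
    rw [hm4]
    unfold four
    simp only [Complex.re_sum]
    refine Finset.sum_congr rfl fun a _ => Finset.sum_congr rfl fun b _ => Finset.sum_congr rfl fun c _ =>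
      Finset.sum_congr rfl fun d _ => ?_
    by_cases h3 : a + c = b + d
    · rw [if_pos (by linarith), if_pos h3, mul_one]
    · rw [if_neg (fun h4 => h3 (by linarith)), if_neg h3, mul_zero, Complex.zero_re]
  have hΦ2 : H1 (fun v => ((Φ v ^ 2 : ℝ) : ℂ))
      (((1 / (4 * lam ^ 2) : ℝ) : ℂ) * m4 + (((1 / 2 : ℝ) : ℂ) * ((Nq : ℝ) : ℂ) + ((lam ^ 2 / 4 : ℝ) : ℂ) * 1)) := by
    have h1 := (h1four.const_mul ((1 / (4 * lam ^ 2) : ℝ) : ℂ)).add
      ((h1sq.const_mul ((1 / 2 : ℝ) : ℂ)).add (H1_one.const_mul ((lam ^ 2 / 4 : ℝ) : ℂ)))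
    have h2 : (fun v => ((Φ v ^ 2 : ℝ) : ℂ)) = fun v => ((1 / (4 * lam ^ 2) : ℝ) : ℂ) * ((‖tp T q v‖ ^ 4 : ℝ) : ℂ) +
        (((1 / 2 : ℝ) : ℂ) * ((‖tp T q v‖ ^ 2 : ℝ) : ℂ) + ((lam ^ 2 / 4 : ℝ) : ℂ) * 1) := by
      funext v
      rw [hΦd, mul_one, ← Complex.ofReal_mul, ← Complex.ofReal_mul, ← Complex.ofReal_add, ← Complex.ofReal_add]
      congr 1
      field_simp
      ring
    rw [h2]
    exact h1
  have hre : (((1 / (4 * lam ^ 2) : ℝ) : ℂ) * m4 + (((1 / 2 : ℝ) : ℂ) * ((Nq : ℝ) : ℂ) +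
      ((lam ^ 2 / 4 : ℝ) : ℂ) * 1)).re ≤ (r + Nq) / 2 := by
    rw [mul_one, ← Complex.ofReal_mul, Complex.add_re, Complex.add_re, Complex.ofReal_re, Complex.ofReal_re,
      Complex.re_ofReal_mul, hm4re, hlam2]
    have h5 : four T q ≤ r ^ 2 := by
      have h6 : 0 ≤ Real.sqrt (four T q) := Real.sqrt_nonneg _
      rcases le_total 0 (four T q) with h7 | h7
      · have h8 := Real.sq_sqrt h7
        nlinarith
      · nlinarith [sq_nonneg r]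
    have h9 : 1 / (4 * r) * four T q ≤ r / 4 := by
      rw [div_mul_eq_mul_div, one_mul, div_le_iff₀ (by positivity)]
      nlinarith
    linarith
  set mm : ℝ := (r + Nq) / 2 with hmm
  have hmm0 : 0 < mm := by positivity
  set κ : ℝ := Real.sqrt (mm / C) with hκ
  have hκ0 : 0 < κ := Real.sqrt_pos.2 (by positivity)
  have hκ2 : κ ^ 2 = mm / C := Real.sq_sqrt (by positivity)
  have hmain := main_loc hs hC h hQ hΦ hΦ2 hQΦ hκ0
  have h10 : ‖∑ t ∈ T, q t * cf t‖ ≤ κ * C + κ⁻¹ * mm :=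
    hmain.trans (by
      have := mul_le_mul_of_nonneg_left hre (inv_pos.2 hκ0).le
      linarith)
  have h11 : κ * C + κ⁻¹ * mm = 2 * (κ * C) := by
    have : mm = κ ^ 2 * C := by rw [hκ2]; field_simp
    rw [this]
    field_simp
    ring
  rw [h11] at h10
  calc ‖∑ t ∈ T, q t * cf t‖ ^ 2 ≤ (2 * (κ * C)) ^ 2 := pow_le_pow_left₀ (norm_nonneg _) h10 2
    _ = 4 * κ ^ 2 * C ^ 2 := by ring
    _ = 4 * C * mm := by rw [hκ2]; field_simp
    _ = 2 * C * (Real.sqrt (four T q) + Nq) + ε := by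
      rw [hmm, hr, hη]
      field_simp
      ring

/-- no nontrivial additive quadruples -/
def Sidon (T : Finset ℝ) : Prop := ∀ a ∈ T, ∀ b ∈ T, ∀ c ∈ T, ∀ d ∈ T, a + c = b + d →
  (a = b ∧ c = d) ∨ (a = d ∧ c = b)

theorem four_le {T : Finset ℝ} (hT : Sidon T) (q : ℝ → ℂ) : four T q ≤ 2 * (∑ t ∈ T, ‖q t‖ ^ 2) ^ 2 := by
  classical
  have h1 : four T q ≤ ∑ a ∈ T, ∑ b ∈ T, ∑ c ∈ T, ∑ d ∈ T,
      (((if a = b then ‖q a‖ * ‖q b‖ else 0) * (if c = d then ‖q c‖ * ‖q d‖ else 0)) +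
        ((if a = d then ‖q a‖ * ‖q d‖ else 0) * (if c = b then ‖q c‖ * ‖q b‖ else 0))) := by
    unfold four
    refine Finset.sum_le_sum fun a ha => Finset.sum_le_sum fun b hb => Finset.sum_le_sum fun c hc =>
      Finset.sum_le_sum fun d hd => ?_
    have hnn1 : 0 ≤ (if a = b then ‖q a‖ * ‖q b‖ else 0) * (if c = d then ‖q c‖ * ‖q d‖ else 0) := by
      apply mul_nonneg <;> split_ifs <;> positivity
    have hnn2 : 0 ≤ (if a = d then ‖q a‖ * ‖q d‖ else 0) * (if c = b then ‖q c‖ * ‖q b‖ else 0) := by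
      apply mul_nonneg <;> split_ifs <;> positivity
    by_cases h2 : a + c = b + d
    · rw [if_pos h2]
      have h3 : (q a * (starRingEnd ℂ) (q b) * (q c * (starRingEnd ℂ) (q d))).re ≤
          ‖q a‖ * ‖q b‖ * (‖q c‖ * ‖q d‖) := by
        refine (Complex.re_le_norm _).trans (le_of_eq ?_)
        simp only [norm_mul, Complex.norm_conj]
      rcases hT a ha b hb c hc d hd h2 with ⟨h4, h5⟩ | ⟨h4, h5⟩
      · rw [if_pos h4, if_pos h5] at hnn1 ⊢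
        linarith
      · rw [if_pos h4, if_pos h5] at hnn2 ⊢
        have : ‖q a‖ * ‖q b‖ * (‖q c‖ * ‖q d‖) = ‖q a‖ * ‖q d‖ * (‖q c‖ * ‖q b‖) := by ring
        linarith
    · rw [if_neg h2]
      linarith
  refine h1.trans (le_of_eq ?_)
  simp only [Finset.sum_add_distrib]
  have hN : ∀ x ∈ T, ∑ y ∈ T, (if x = y then ‖q x‖ * ‖q y‖ else 0) = ‖q x‖ ^ 2 := by
    intro x hx
    rw [Finset.sum_ite_eq T x, if_pos hx, sq]
  have e1 : ∑ a ∈ T, ∑ b ∈ T, ∑ c ∈ T, ∑ d ∈ T,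
      ((if a = b then ‖q a‖ * ‖q b‖ else 0) * (if c = d then ‖q c‖ * ‖q d‖ else 0)) =
      (∑ t ∈ T, ‖q t‖ ^ 2) ^ 2 := by
    have : ∀ a ∈ T, ∑ b ∈ T, ∑ c ∈ T, ∑ d ∈ T,
        ((if a = b then ‖q a‖ * ‖q b‖ else 0) * (if c = d then ‖q c‖ * ‖q d‖ else 0)) =
        ‖q a‖ ^ 2 * ∑ t ∈ T, ‖q t‖ ^ 2 := by
      intro a ha
      have h5 : ∀ b ∈ T, ∑ c ∈ T, ∑ d ∈ T,
          ((if a = b then ‖q a‖ * ‖q b‖ else 0) * (if c = d then ‖q c‖ * ‖q d‖ else 0)) =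
          (if a = b then ‖q a‖ * ‖q b‖ else 0) * ∑ t ∈ T, ‖q t‖ ^ 2 := by
        intro b _
        rw [Finset.mul_sum]
        refine Finset.sum_congr rfl fun c hc => ?_
        rw [← Finset.mul_sum, hN c hc]
      rw [Finset.sum_congr rfl h5, ← Finset.sum_mul, hN a ha]
    rw [Finset.sum_congr rfl this, ← Finset.sum_mul, sq]
  have e2 : ∑ a ∈ T, ∑ b ∈ T, ∑ c ∈ T, ∑ d ∈ T,
      ((if a = d then ‖q a‖ * ‖q d‖ else 0) * (if c = b then ‖q c‖ * ‖q b‖ else 0)) =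
      (∑ t ∈ T, ‖q t‖ ^ 2) ^ 2 := by
    have : ∀ a ∈ T, ∑ b ∈ T, ∑ c ∈ T, ∑ d ∈ T,
        ((if a = d then ‖q a‖ * ‖q d‖ else 0) * (if c = b then ‖q c‖ * ‖q b‖ else 0)) =
        ‖q a‖ ^ 2 * ∑ t ∈ T, ‖q t‖ ^ 2 := by
      intro a ha
      rw [Finset.mul_sum]
      refine Finset.sum_congr rfl fun b hb => ?_
      have h5 : ∀ c ∈ T, ∑ d ∈ T,
          ((if a = d then ‖q a‖ * ‖q d‖ else 0) * (if c = b then ‖q c‖ * ‖q b‖ else 0)) =
          ‖q a‖ ^ 2 * (if c = b then ‖q c‖ * ‖q b‖ else 0) := by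
        intro c _
        rw [← Finset.sum_mul, hN a ha]
      rw [Finset.sum_congr rfl h5, ← Finset.mul_sum, Finset.sum_ite_eq' T b, if_pos hb, sq ‖q b‖]
    rw [Finset.sum_congr rfl this, ← Finset.sum_mul, sq]
  rw [e1, e2]
  ring

theorem local_sidon {s C : ℝ} (hs : s = 1 ∨ s = -1) (hC : 0 < C)
    (h : ∀ᶠ x : ℝ in atTop, ∫ u in (1 : ℝ)..x, (max (s * Mx u) 0 / u) ^ 2 ≤ C * Real.log x)
    {L : ℝ} (hL : ∀ t : ℝ, |t| < L → riemannZeta (pt t) ≠ 0) (T : Finset ℝ) (hT : ∀ a ∈ T, ∀ b ∈ T, |a - b| < L)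
    (hS : Sidon T) : ∑ t ∈ T, ‖cf t‖ ^ 2 ≤ 2 * (1 + Real.sqrt 2) * C := by
  have h1 := local_dual hs hC h hL T hT (fun t => (starRingEnd ℂ) (cf t))
  have h2 := four_le hS (fun t => (starRingEnd ℂ) (cf t))
  simp only [Complex.norm_conj] at h1 h2
  set Nq : ℝ := ∑ t ∈ T, ‖cf t‖ ^ 2 with hNq
  have hN0 : 0 ≤ Nq := Finset.sum_nonneg fun _ _ => by positivity
  have e1 : ∑ t ∈ T, (starRingEnd ℂ) (cf t) * cf t = ((Nq : ℝ) : ℂ) := by
    rw [hNq, Complex.ofReal_sum]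
    refine Finset.sum_congr rfl fun t _ => ?_
    rw [mul_comm, Complex.mul_conj', Complex.ofReal_pow]
  rw [e1, Complex.norm_of_nonneg hN0] at h1
  have h3 : Real.sqrt (four T fun t => (starRingEnd ℂ) (cf t)) ≤ Real.sqrt 2 * Nq := by
    rw [← Real.sqrt_sq hN0, ← Real.sqrt_mul (by norm_num)]
    exact Real.sqrt_le_sqrt h2
  have h4 : Nq ^ 2 ≤ 2 * (1 + Real.sqrt 2) * C * Nq := by
    refine h1.trans ?_
    have := mul_le_mul_of_nonneg_left h3 (show 0 ≤ 2 * C by positivity)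
    nlinarith
  rcases hN0.eq_or_lt with h5 | h5
  · rw [← h5]
    positivity
  · rw [sq] at h4
    exact le_of_mul_le_mul_right h4 h5

theorem exists_gap : ∃ L : ℝ, 0 < L ∧ ∀ t : ℝ, |t| < L → riemannZeta (pt t) ≠ 0 := by
  have hzero : riemannZeta (pt 0) ≠ 0 := by
    have := Pool.Agent.Y21.FW.real_ne (x := 1 / 2) (by norm_num) (by norm_num)
    unfold pt
    push_cast at this
    simpa using this
  have hc : ContinuousAt (fun t : ℝ => riemannZeta (pt t)) 0 := by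
    have h1 : ContinuousAt riemannZeta (pt 0) := (differentiableAt_riemannZeta (pt_ne_one 0)).continuousAt
    have h2 : Continuous pt := by unfold pt; fun_prop
    exact ContinuousAt.comp (f := pt) h1 h2.continuousAt
  have h3 := hc.eventually_ne hzero
  obtain ⟨L, hL, h4⟩ := Metric.eventually_nhds_iff.1 h3
  exact ⟨L, hL, fun t ht => h4 (by rwa [Real.dist_eq, sub_zero])⟩

end Pool.Agent.Y853.HM
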