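import Pool.Agent.Y853.HM.Riesz
import Pool.Agent.W120.WM.Taub

set_option autoImplicit false

/-! The lower Abel means of the positive and of the negative part. -/

namespace Pool.Agent.Y853.HM

open Filter Topology Set MeasureTheory
open Pool.Agent.W263.BSD Pool.Agent.W120.WM

/-- `f(v) = M(e^v) e^{-v/2}` -/
noncomputable def f (v : ℝ) : ℝ := Mx (Real.exp v) * Real.exp (-(v / 2))

/-- `δ ∫_0^∞ max(s f(v), 0) e^{-δv} dv` -/
noncomputable def abelMean (s δ : ℝ) : ENNReal :=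
  ENNReal.ofReal δ * ∫⁻ v in Ioi (0 : ℝ), ENNReal.ofReal (max (s * f v) 0 * Real.exp (-(δ * v)))

/-- the lower limit -/
noncomputable def lowerMean (s : ℝ) : ENNReal := liminf (abelMean s) (𝓝[>] 0)

theorem f_meas : Measurable f := g_meas.mul (by fun_prop)

/-- the real Abel mean -/
noncomputable def ab (s δ : ℝ) : ℝ := δ * lap (fun v => max (s * g v) 0) (1 / 2 + δ)

theorem integrand (s δ v : ℝ) : max (s * f v) 0 * Real.exp (-(δ * v)) =
    max (s * g v) 0 * Real.exp (-((1 / 2 + δ) * v)) := by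
  have h1 : s * f v = (s * g v) * Real.exp (-(v / 2)) := by
    unfold f g
    ring
  have h2 : max ((s * g v) * Real.exp (-(v / 2))) 0 = max (s * g v) 0 * Real.exp (-(v / 2)) := by
    rw [max_mul_of_nonneg _ _ (Real.exp_pos _).le, zero_mul]
  rw [h1, h2, mul_assoc, ← Real.exp_add]
  congr 2
  ring

theorem integrand_meas (s δ : ℝ) : Measurable fun v => max (s * g v) 0 * Real.exp (-((1 / 2 + δ) * v)) :=
  ((g_meas.const_mul s).max measurable_const).mul (by fun_prop)

theorem integrand_nn (s δ v : ℝ) : 0 ≤ max (s * g v) 0 * Real.exp (-((1 / 2 + δ) * v)) :=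
  mul_nonneg (le_max_right _ _) (Real.exp_pos _).le

theorem abelMean_eq {s δ : ℝ} (hδ : 0 < δ) (hL : LInt (fun v => max (s * g v) 0) (1 / 2 + δ)) :
    abelMean s δ = ENNReal.ofReal (ab s δ) := by
  unfold abelMean ab lap
  simp only [integrand]
  rw [← ofReal_integral_eq_lintegral_ofReal hL (Eventually.of_forall fun v => integrand_nn s δ v),
    ← ENNReal.ofReal_mul hδ.le]

theorem lint_of_ne {s δ : ℝ} (hδ : 0 < δ) (h : abelMean s δ ≠ ⊤) :
    LInt (fun v => max (s * g v) 0) (1 / 2 + δ) := by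
  unfold abelMean at h
  simp only [integrand] at h
  have h1 : ∫⁻ v in Ioi (0 : ℝ), ENNReal.ofReal (max (s * g v) 0 * Real.exp (-((1 / 2 + δ) * v))) ≠ ⊤ := by
    intro h2
    rw [h2, ENNReal.mul_top (by simpa using hδ)] at h
    exact h rfl
  refine ⟨(integrand_meas s δ).aestronglyMeasurable, ?_⟩
  rw [hasFiniteIntegral_iff_ofReal (Eventually.of_forall fun v => integrand_nn s δ v)]
  exact lt_top_iff_ne_top.2 h1

theorem ab_nonneg {s δ : ℝ} (hδ : 0 < δ) : 0 ≤ ab s δ :=
  mul_nonneg hδ.le (lap_nonneg (fun _ _ => le_max_right _ _) _)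

theorem freq {s : ℝ} {b : ENNReal} (h : lowerMean s < b) : ∃ᶠ δ in 𝓝[>] (0 : ℝ), abelMean s δ < b :=
  frequently_lt_of_liminf_lt (by isBoundedDefault) h

theorem lint_all {s : ℝ} (h : lowerMean s ≠ ⊤) : ∀ w > (1 / 2 : ℝ), LInt (fun v => max (s * g v) 0) w := by
  intro w hw
  have h1 := freq (lt_top_iff_ne_top.2 h)
  have h2 : ∀ᶠ δ in 𝓝[>] (0 : ℝ), δ < w - 1 / 2 :=
    (eventually_lt_nhds (by linarith)).filter_mono nhdsWithin_le_nhds
  obtain ⟨δ, ⟨h3, h4⟩, h5⟩ := ((h1.and_eventually h2).and_eventually self_mem_nhdsWithin).exists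
  have h6 := lint_of_ne h5 h3.ne
  exact LInt.mono ((g_meas.const_mul s).max measurable_const) h6 (by linarith)

theorem lint_neg {s : ℝ} (h : ∀ w > (1 / 2 : ℝ), LInt (fun v => max (s * g v) 0) w) :
    ∀ w > (1 / 2 : ℝ), LInt (fun v => max (-s * g v) 0) w := by
  have := other_side h
  simpa only [neg_mul] using this

theorem lint_g {s : ℝ} (hs : s = 1 ∨ s = -1) (h : ∀ w > (1 / 2 : ℝ), LInt (fun v => max (s * g v) 0) w) :
    ∀ w > (1 / 2 : ℝ), LInt g w := by
  intro w hw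
  have h1 := other_side h w hw
  have h2 := lint_abs (f := fun v => s * g v) (h w hw) h1
  have h3 := lint_of_abs (g_meas.const_mul s) h2
  have h4 := h3.const_mul s
  have e : (fun u => s * (s * g u)) = g := by
    funext u
    rcases hs with rfl | rfl <;> ring
  rw [e] at h4
  exact h4

theorem zero_lim (h : ∀ w > (1 / 2 : ℝ), LInt g w) :
    Tendsto (fun δ : ℝ => δ * lap g (1 / 2 + δ)) (𝓝[>] 0) (𝓝 0) := by
  have hz : riemannZeta (pt 0) ≠ 0 := by
    have := Pool.Agent.Y21.FW.real_ne (x := 1 / 2) (by norm_num) (by norm_num)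
    unfold pt
    push_cast at this
    simpa using this
  have h1 := (HM_ee h 0 (fun h => absurd h hz)).2.2
  have hc : cf 0 = 0 := by
    unfold cf
    rw [if_neg hz]
  rw [hc] at h1
  have h2 : ∀ δ : ℝ, (δ : ℂ) * J (ee 0) δ = ((δ * lap g (1 / 2 + δ) : ℝ) : ℂ) := by
    intro δ
    rw [J_ee, show pt 0 + (δ : ℂ) = ((1 / 2 + δ : ℝ) : ℂ) by unfold pt; push_cast; ring, lapC_ofReal]
    push_cast
    ring
  simp only [h2] at h1
  exact_mod_cast (Complex.continuous_re.tendsto 0).comp h1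

theorem ab_add {s : ℝ} (hs : s = 1 ∨ s = -1) (h : ∀ w > (1 / 2 : ℝ), LInt (fun v => max (s * g v) 0) w)
    {δ : ℝ} (hδ : 0 < δ) : N δ = ab s δ + ab (-s) δ ∧ ab (-s) δ = ab s δ - s * (δ * lap g (1 / 2 + δ)) := by
  have h1 := h (1 / 2 + δ) (by linarith)
  have h2 := lint_neg h (1 / 2 + δ) (by linarith)
  have h3 := lint_g hs h (1 / 2 + δ) (by linarith)
  constructor
  · unfold N ab
    rw [← mul_add, ← lap_add h1 h2]
    congr 2
    funext v
    show |g v| = max (s * g v) 0 + max (-s * g v) 0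
    rcases hs with rfl | rfl <;> rcases le_total 0 (g v) with h4 | h4
    · rw [abs_of_nonneg h4, max_eq_left (by linarith), max_eq_right (by linarith)]; ring
    · rw [abs_of_nonpos h4, max_eq_right (by linarith), max_eq_left (by linarith)]; ring
    · rw [abs_of_nonneg h4, max_eq_right (by linarith), max_eq_left (by linarith)]; ring
    · rw [abs_of_nonpos h4, max_eq_left (by linarith), max_eq_right (by linarith)]; ring
  · unfold ab
    have e : (fun v => max (-s * g v) 0) = fun v => max (s * g v) 0 - s * g v := by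
      funext v
      rcases le_total 0 (s * g v) with h4 | h4
      · rw [max_eq_right (by linarith), max_eq_left h4, sub_self]
      · rw [max_eq_left (by linarith), max_eq_right h4, zero_sub]; ring
    rw [e, lap_sub h1 (h3.const_mul s), lap_const_mul]
    ring

theorem low_freq {s : ℝ} (h : lowerMean s ≠ ⊤) {ε : ℝ} (hε : 0 < ε) :
    ∃ᶠ δ in 𝓝[>] (0 : ℝ), ab s δ ≤ (lowerMean s).toReal + ε := by
  have h1 : lowerMean s < ENNReal.ofReal ((lowerMean s).toReal + ε) := by
    conv_lhs => rw [← ENNReal.ofReal_toReal h]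
    exact (ENNReal.ofReal_lt_ofReal_iff (by positivity)).2 (by linarith)
  refine ((freq h1).and_eventually self_mem_nhdsWithin).mono fun δ hδ => ?_
  have hδ0 : 0 < δ := hδ.2
  have h2 := hδ.1
  rw [abelMean_eq hδ0 (lint_all h _ (by linarith)), ENNReal.ofReal_lt_ofReal_iff (by positivity)] at h2
  exact h2.le

theorem N_freq {s : ℝ} (hs : s = 1 ∨ s = -1) (h : lowerMean s ≠ ⊤) {ε : ℝ} (hε : 0 < ε) :
    ∃ᶠ δ in 𝓝[>] (0 : ℝ), N δ ≤ 2 * (lowerMean s).toReal + ε := by
  have hL := lint_all h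
  have hz := zero_lim (lint_g hs hL)
  have h1 : ∀ᶠ δ : ℝ in 𝓝[>] (0 : ℝ), |δ * lap g (1 / 2 + δ)| < ε / 3 := by
    have := hz.abs
    rw [abs_zero] at this
    exact this.eventually_lt_const (by positivity)
  refine (((low_freq h (show 0 < ε / 3 by positivity)).and_eventually h1).and_eventually
    self_mem_nhdsWithin).mono fun δ hδ => ?_
  obtain ⟨⟨h2, h3⟩, h4⟩ := hδ
  obtain ⟨h5, h6⟩ := ab_add hs hL (show 0 < δ from h4)
  have h7 : |s * (δ * lap g (1 / 2 + δ))| < ε / 3 := by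
    rw [abs_mul]
    rcases hs with rfl | rfl <;> simpa using h3
  have h8 := (abs_lt.1 h7).1
  rw [h5, h6]
  linarith

theorem low_le {s : ℝ} (hs : s = 1 ∨ s = -1) : lowerMean (-s) ≤ lowerMean s := by
  by_cases h : lowerMean s = ⊤
  · rw [h]
    exact le_top
  have hL := lint_all h
  have hz := zero_lim (lint_g hs hL)
  refine ENNReal.le_of_forall_pos_le_add fun ε hε _ => ?_
  have hε' : (0 : ℝ) < ε := by exact_mod_cast hε
  have h1 : ∀ᶠ δ : ℝ in 𝓝[>] (0 : ℝ), |δ * lap g (1 / 2 + δ)| < (ε : ℝ) / 3 := by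
    have := hz.abs
    rw [abs_zero] at this
    exact this.eventually_lt_const (by positivity)
  have h9 : ∃ᶠ δ in 𝓝[>] (0 : ℝ), abelMean (-s) δ ≤ lowerMean s + ε := by
    refine (((low_freq h (show 0 < (ε : ℝ) / 3 by positivity)).and_eventually h1).and_eventually
      self_mem_nhdsWithin).mono fun δ hδ => ?_
    obtain ⟨⟨h2, h3⟩, h4⟩ := hδ
    have hδ0 : 0 < δ := h4
    obtain ⟨h5, h6⟩ := ab_add hs hL hδ0
    have h7 : |s * (δ * lap g (1 / 2 + δ))| < (ε : ℝ) / 3 := by
      rw [abs_mul]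
      rcases hs with rfl | rfl <;> simpa using h3
    have h8 := (abs_lt.1 h7).1
    rw [abelMean_eq hδ0 (lint_neg hL _ (by linarith))]
    have e1 : lowerMean s + ε = ENNReal.ofReal ((lowerMean s).toReal + ε) := by
      rw [ENNReal.ofReal_add ENNReal.toReal_nonneg hε'.le, ENNReal.ofReal_toReal h,
        ENNReal.ofReal_coe_nnreal]
    rw [e1]
    refine ENNReal.ofReal_le_ofReal ?_
    rw [h6]
    linarith
  exact liminf_le_of_frequently_le h9 (by isBoundedDefault)

theorem low_eq : lowerMean 1 = lowerMean (-1) := by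
  refine le_antisymm ?_ (low_le (Or.inl rfl))
  have := low_le (s := -1) (Or.inr rfl)
  rwa [neg_neg] at this

/-- Cesaro bounds give Abel bounds -/
theorem abel_le {k : ℝ → ℝ} (hk0 : ∀ v, 0 ≤ k v) (hkm : Measurable k)
    (hloc : ∀ V : ℝ, IntegrableOn k (Ioc 0 V))
    {C D : ℝ} (hC : 0 < C) (hD : 0 ≤ D) (h : ∀ w : ℝ, 0 < w → ∫ v in Ioc 0 w, k v ≤ C * w + D) {δ : ℝ} (hδ0 : 0 < δ) :
    ∫⁻ v in Ioi 0, ENNReal.ofReal (k v * Real.exp (-(δ * v))) ≤ ENNReal.ofReal (C / δ + D) := by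
  have hV : 0 < δ⁻¹ := inv_pos.2 hδ0
  have hsw := Pool.Agent.W553.WM.swap k hk0 hkm hloc δ⁻¹ hV
  have e1 : ∀ v : ℝ, v / δ⁻¹ = δ * v := fun v => by rw [div_inv_eq_mul, mul_comm]
  simp only [e1, inv_inv] at hsw
  have i0 := Pool.Agent.W553.WM.I0 δ⁻¹ hV
  have i1 := Pool.Agent.W553.WM.I1 δ⁻¹ hV
  simp only [e1] at i0 i1
  have hI0 : IntegrableOn (fun w : ℝ => Real.exp (-(δ * w))) (Ioi 0) := by
    have := exp_neg_integrableOn_Ioi 0 hδ0
    simpa only [neg_mul] using this
  have hI1 : IntegrableOn (fun w : ℝ => w * Real.exp (-(δ * w))) (Ioi 0) := by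
    by_contra hcon
    have : ∫ w in Ioi (0 : ℝ), w * Real.exp (-(δ * w)) = 0 := integral_undef hcon
    rw [i1] at this
    have : 0 < δ⁻¹ ^ 2 := by positivity
    linarith
  rw [hsw]
  have h2 : ∫⁻ w in Ioi (0 : ℝ), ENNReal.ofReal (δ * Real.exp (-(δ * w)) * ∫ v in Ioc 0 w, k v) ≤
      ∫⁻ w in Ioi (0 : ℝ), ENNReal.ofReal (δ * C * (w * Real.exp (-(δ * w))) + δ * D * Real.exp (-(δ * w))) := by
    refine setLIntegral_mono' measurableSet_Ioi fun w hw => ENNReal.ofReal_le_ofReal ?_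
    have := h w hw
    have h3 : 0 ≤ δ * Real.exp (-(δ * w)) := by positivity
    nlinarith
  refine h2.trans ?_
  have hI2 : IntegrableOn (fun w : ℝ => δ * C * (w * Real.exp (-(δ * w))) + δ * D * Real.exp (-(δ * w))) (Ioi 0) :=
    (hI1.const_mul (δ * C)).add (hI0.const_mul (δ * D))
  rw [← ofReal_integral_eq_lintegral_ofReal hI2]
  · rw [integral_add (hI1.const_mul _) (hI0.const_mul _), integral_const_mul, integral_const_mul, i0, i1]
    refine ENNReal.ofReal_le_ofReal (le_of_eq ?_)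
    field_simp
  · filter_upwards [ae_restrict_mem measurableSet_Ioi] with w hw
    have : 0 < w := hw
    simp only [Pi.zero_apply]
    positivity

/-- mean squares bound the Abel means -/
theorem sq_bound {p k : ℝ → ℝ} (hk0 : ∀ v, 0 ≤ k v) (hkm : Measurable k)
    (hloc : ∀ V : ℝ, IntegrableOn k (Ioc 0 V)) (hpk : ∀ v, p v ^ 2 ≤ k v)
    {C D : ℝ} (hC : 0 < C) (hD : 0 ≤ D) (h : ∀ w : ℝ, 0 < w → ∫ v in Ioc 0 w, k v ≤ C * w + D) {ε : ℝ} (hε : 0 < ε) :
    ∀ᶠ δ in 𝓝[>] (0 : ℝ), ENNReal.ofReal δ * ∫⁻ v in Ioi (0 : ℝ), ENNReal.ofReal (p v * Real.exp (-(δ * v))) ≤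
      ENNReal.ofReal (Real.sqrt C + ε) := by
  set t : ℝ := Real.sqrt C with ht
  have ht0 : 0 < t := Real.sqrt_pos.2 hC
  have htt : t ^ 2 = C := Real.sq_sqrt hC.le
  have hlim : Tendsto (fun δ : ℝ => (C + δ * D) / (2 * t) + t / 2) (𝓝[>] 0) (𝓝 ((C + 0 * D) / (2 * t) + t / 2)) := by
    have : Continuous fun δ : ℝ => (C + δ * D) / (2 * t) + t / 2 := by fun_prop
    exact (this.tendsto 0).mono_left nhdsWithin_le_nhds
  have hv : (C + 0 * D) / (2 * t) + t / 2 = t := by
    rw [zero_mul, add_zero, ← htt]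
    field_simp
    ring
  rw [hv] at hlim
  filter_upwards [self_mem_nhdsWithin, hlim.eventually_lt_const (show t < t + ε by linarith)] with δ hδ hδ2
  have hδ0 : 0 < δ := hδ
  have hV : 0 < δ⁻¹ := inv_pos.2 hδ0
  have e1 : ∀ v : ℝ, v / δ⁻¹ = δ * v := fun v => by rw [div_inv_eq_mul, mul_comm]
  have i0 := Pool.Agent.W553.WM.I0 δ⁻¹ hV
  simp only [e1] at i0
  have hI0 : IntegrableOn (fun w : ℝ => Real.exp (-(δ * w))) (Ioi 0) := by
    have := exp_neg_integrableOn_Ioi 0 hδ0
    simpa only [neg_mul] using this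
  have h1 := abel_le hk0 hkm hloc hC hD h hδ0
  have h4 : ∫⁻ v in Ioi (0 : ℝ), ENNReal.ofReal (p v * Real.exp (-(δ * v))) ≤
      ENNReal.ofReal (1 / (2 * t)) * ENNReal.ofReal (C / δ + D) + ENNReal.ofReal (t / 2 * δ⁻¹) := by
    have h5 : ∀ v : ℝ, ENNReal.ofReal (p v * Real.exp (-(δ * v))) ≤
        ENNReal.ofReal (1 / (2 * t)) * ENNReal.ofReal (k v * Real.exp (-(δ * v))) +
          ENNReal.ofReal (t / 2) * ENNReal.ofReal (Real.exp (-(δ * v))) := by
      intro v
      rw [← ENNReal.ofReal_mul (by positivity), ← ENNReal.ofReal_mul (by positivity),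
        ← ENNReal.ofReal_add (mul_nonneg (by positivity) (mul_nonneg (hk0 v) (Real.exp_pos _).le)) (by positivity)]
      refine ENNReal.ofReal_le_ofReal ?_
      have h6 : p v ≤ 1 / (2 * t) * k v + t / 2 := by
        have h7 : p v ≤ 1 / (2 * t) * p v ^ 2 + t / 2 := by
          have : 1 / (2 * t) * p v ^ 2 + t / 2 - p v = (p v - t) ^ 2 / (2 * t) := by
            field_simp
            ring
          have h8 : 0 ≤ (p v - t) ^ 2 / (2 * t) := by positivity
          linarith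
        refine h7.trans ?_
        have := mul_le_mul_of_nonneg_left (hpk v) (show 0 ≤ 1 / (2 * t) by positivity)
        linarith
      have := mul_le_mul_of_nonneg_right h6 (Real.exp_pos (-(δ * v))).le
      linarith
    refine (lintegral_mono h5).trans ?_
    have hm : Measurable fun v : ℝ => ENNReal.ofReal (Real.exp (-(δ * v))) := by fun_prop
    rw [lintegral_add_right _ (hm.const_mul _), lintegral_const_mul' _ _ ENNReal.ofReal_ne_top,
      lintegral_const_mul' _ _ ENNReal.ofReal_ne_top, ← ofReal_integral_eq_lintegral_ofReal hI0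
        (Eventually.of_forall fun _ => (Real.exp_pos _).le), i0, ENNReal.ofReal_mul (by positivity : 0 ≤ t / 2)]
    gcongr
  refine (mul_le_mul_right h4 _).trans ?_
  rw [← ENNReal.ofReal_mul (by positivity), ← ENNReal.ofReal_add (by positivity) (by positivity),
    ← ENNReal.ofReal_mul hδ0.le]
  refine ENNReal.ofReal_le_ofReal ?_
  refine le_trans (le_of_eq ?_) hδ2.le
  field_simp

end Pool.Agent.Y853.HM
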