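import Pool.Agent.Y853.HM.Tr

set_option autoImplicit false

/-! Abel means of `M(e^v) e^{-v/2}` against bounded functions. -/

namespace Pool.Agent.Y853.HM

open Filter Topology Set MeasureTheory Complex
open Pool.Agent.W263.BSD Pool.Agent.W120.WM

/-- the point `1/2 + it` -/
noncomputable def pt (t : ℝ) : ℂ := 1 / 2 + t * I

theorem pt_re (t : ℝ) : (pt t).re = 1 / 2 := by simp [pt]
theorem pt_ne_one (t : ℝ) : pt t ≠ 1 := by
  intro h
  have := congrArg Complex.re h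
  rw [pt_re] at this
  norm_num at this
theorem pt_ne_zero (t : ℝ) : pt t ≠ 0 := by
  intro h
  have := congrArg Complex.re h
  rw [pt_re] at this
  norm_num at this

open Classical in
/-- the Fourier coefficients -/
noncomputable def cf (t : ℝ) : ℂ := if riemannZeta (pt t) = 0 then 1 / (pt t * deriv riemannZeta (pt t)) else 0

/-- the weighted integral -/
noncomputable def J (F : ℝ → ℂ) (δ : ℝ) : ℂ :=
  ∫ v in Ioi (0 : ℝ), ((g v * Real.exp (-((1 / 2 + δ) * v)) : ℝ) : ℂ) * F v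

/-- the Abel mean of `f F` exists -/
def HM (F : ℝ → ℂ) (l : ℂ) : Prop := Continuous F ∧ (∃ B, ∀ v, ‖F v‖ ≤ B) ∧
  Tendsto (fun δ : ℝ => (δ : ℂ) * J F δ) (𝓝[>] 0) (𝓝 l)

theorem J_int (h : ∀ w > (1 / 2 : ℝ), LInt g w) {F : ℝ → ℂ} (hF : Continuous F) {B : ℝ} (hB : ∀ v, ‖F v‖ ≤ B)
    {δ : ℝ} (hδ : 0 < δ) :
    IntegrableOn (fun v => ((g v * Real.exp (-((1 / 2 + δ) * v)) : ℝ) : ℂ) * F v) (Ioi 0) :=
  Integrable.mul_bdd (c := B) (h (1 / 2 + δ) (by linarith)).ofReal hF.aestronglyMeasurable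
    (Eventually.of_forall hB)

theorem HM.add (h : ∀ w > (1 / 2 : ℝ), LInt g w) {F G : ℝ → ℂ} {l m : ℂ} (h1 : HM F l) (h2 : HM G m) :
    HM (fun v => F v + G v) (l + m) := by
  obtain ⟨a1, ⟨B1, b1⟩, c1⟩ := h1
  obtain ⟨a2, ⟨B2, b2⟩, c2⟩ := h2
  refine ⟨a1.add a2, ⟨B1 + B2, fun v => (norm_add_le _ _).trans (add_le_add (b1 v) (b2 v))⟩, ?_⟩
  refine (c1.add c2).congr' ?_
  filter_upwards [self_mem_nhdsWithin] with δ hδ
  have hδ' : 0 < δ := hδ
  rw [← mul_add]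
  congr 1
  unfold J
  rw [← integral_add (J_int h a1 b1 hδ') (J_int h a2 b2 hδ')]
  refine integral_congr_ae (Eventually.of_forall fun v => ?_)
  simp only [mul_add]

theorem HM.const_mul {F : ℝ → ℂ} {l : ℂ} (h1 : HM F l) (c : ℂ) :
    HM (fun v => c * F v) (c * l) := by
  obtain ⟨a1, ⟨B1, b1⟩, c1⟩ := h1
  refine ⟨continuous_const.mul a1, ⟨‖c‖ * B1, fun v => ?_⟩, ?_⟩
  · rw [norm_mul]
    exact mul_le_mul_of_nonneg_left (b1 v) (norm_nonneg _)
  · refine (c1.const_mul c).congr fun δ => ?_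
    rw [mul_left_comm]
    congr 1
    unfold J
    rw [← integral_const_mul]
    refine integral_congr_ae (Eventually.of_forall fun v => ?_)
    simp only []
    ring

theorem HM.zero : HM (fun _ => 0) 0 := by
  refine ⟨continuous_const, ⟨0, fun v => by simp⟩, ?_⟩
  have : (fun δ : ℝ => (δ : ℂ) * J (fun _ => 0) δ) = fun _ => 0 := by
    funext δ
    unfold J
    simp
  rw [this]
  exact tendsto_const_nhds

theorem HM.sum (h : ∀ w > (1 / 2 : ℝ), LInt g w) {ι : Type*} (S : Finset ι) {F : ι → ℝ → ℂ} {l : ι → ℂ}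
    (h1 : ∀ i ∈ S, HM (F i) (l i)) : HM (fun v => ∑ i ∈ S, F i v) (∑ i ∈ S, l i) := by
  classical
  induction S using Finset.induction_on with
  | empty =>
    simp only [Finset.sum_empty]
    exact HM.zero
  | insert i S hi ih =>
    simp only [Finset.sum_insert hi]
    exact (h1 i (Finset.mem_insert_self _ _)).add h (ih fun j hj => h1 j (Finset.mem_insert_of_mem hj))

theorem HM.unique {F : ℝ → ℂ} {l m : ℂ} (h1 : HM F l) (h2 : HM F m) : l = m :=
  tendsto_nhds_unique h1.2.2 h2.2.2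

theorem J_conj (F : ℝ → ℂ) (δ : ℝ) : J (fun v => (starRingEnd ℂ) (F v)) δ = (starRingEnd ℂ) (J F δ) := by
  unfold J
  rw [← integral_conj]
  refine integral_congr_ae (Eventually.of_forall fun v => ?_)
  simp only [map_mul, conj_ofReal]

theorem HM.conj {F : ℝ → ℂ} {l : ℂ} (h1 : HM F l) : HM (fun v => (starRingEnd ℂ) (F v)) ((starRingEnd ℂ) l) := by
  obtain ⟨a1, ⟨B1, b1⟩, c1⟩ := h1
  refine ⟨continuous_conj.comp a1, ⟨B1, fun v => by rw [Complex.norm_conj]; exact b1 v⟩, ?_⟩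
  have := (continuous_conj.tendsto l).comp c1
  refine this.congr fun δ => ?_
  rw [Function.comp_apply, map_mul, conj_ofReal, J_conj]

theorem HM.im_zero {F : ℝ → ℂ} {l : ℂ} (h1 : HM F l) (hF : ∀ v, (F v).im = 0) : l.im = 0 := by
  have h2 : (fun v => (starRingEnd ℂ) (F v)) = F := by
    funext v
    exact Complex.conj_eq_iff_im.2 (hF v)
  have h3 := h1.conj
  rw [h2] at h3
  exact Complex.conj_eq_iff_im.1 (h3.unique h1)

/-- the mean of `|f|` -/
noncomputable def N (δ : ℝ) : ℝ := δ * lap (fun v => |g v|) (1 / 2 + δ)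

theorem J_le (F : ℝ → ℂ) {B : ℝ} (hB : ∀ v, ‖F v‖ ≤ B) {δ : ℝ} (hδ : 0 < δ)
    (h : LInt g (1 / 2 + δ)) : ‖(δ : ℂ) * J F δ‖ ≤ B * N δ := by
  have hi : IntegrableOn (fun v => |g v| * Real.exp (-((1 / 2 + δ) * v))) (Ioi 0) := by
    have := h.norm
    refine this.congr (Eventually.of_forall fun v => ?_)
    simp only []
    rw [norm_mul, Real.norm_eq_abs, Real.norm_of_nonneg (Real.exp_pos _).le]
  rw [norm_mul, Complex.norm_of_nonneg hδ.le]
  have h1 : ‖J F δ‖ ≤ ∫ v in Ioi (0 : ℝ), B * (|g v| * Real.exp (-((1 / 2 + δ) * v))) := by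
    unfold J
    refine norm_integral_le_of_norm_le (hi.const_mul B) (Eventually.of_forall fun v => ?_)
    rw [norm_mul, Complex.norm_real, Real.norm_eq_abs, abs_mul, abs_of_pos (Real.exp_pos _), mul_comm]
    exact mul_le_mul_of_nonneg_right (hB v) (by positivity)
  rw [integral_const_mul] at h1
  unfold N lap
  calc δ * ‖J F δ‖ ≤ δ * (B * ∫ v in Ioi (0 : ℝ), |g v| * Real.exp (-((1 / 2 + δ) * v))) :=
        mul_le_mul_of_nonneg_left h1 hδ.le
    _ = _ := by ring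

theorem HM.bound (h : ∀ w > (1 / 2 : ℝ), LInt g w) {F : ℝ → ℂ} {l : ℂ} (h1 : HM F l) {B a : ℝ}
    (hB : ∀ v, ‖F v‖ ≤ B) (ha : ∀ ε : ℝ, 0 < ε → ∃ᶠ δ in 𝓝[>] (0 : ℝ), N δ ≤ a + ε) : ‖l‖ ≤ B * a := by
  have hB0 : 0 ≤ B := (norm_nonneg _).trans (hB 0)
  refine le_of_forall_pos_le_add fun ε hε => ?_
  have h2 := h1.2.2.norm
  have hη : 0 < ε / (2 * (B + 1)) := by positivity
  have h3 : ∃ᶠ δ : ℝ in 𝓝[>] (0 : ℝ), ‖(δ : ℂ) * J F δ‖ ≤ B * a + ε / 2 := by
    refine ((ha _ hη).and_eventually self_mem_nhdsWithin).mono fun δ hδ => ?_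
    have hδ0 : 0 < δ := hδ.2
    refine (J_le F hB hδ0 (h _ (by linarith))).trans ?_
    refine (mul_le_mul_of_nonneg_left hδ.1 hB0).trans ?_
    have h5 : B * (ε / (2 * (B + 1))) ≤ ε / 2 := by
      rw [show B * (ε / (2 * (B + 1))) = (ε / 2) * (B / (B + 1)) by field_simp]
      have : B / (B + 1) ≤ 1 := by
        rw [div_le_one (by linarith)]
        linarith
      nlinarith
    rw [mul_add]
    linarith
  by_contra hcon
  push Not at hcon
  have h4 : ∀ᶠ δ : ℝ in 𝓝[>] (0 : ℝ), B * a + ε / 2 < ‖(δ : ℂ) * J F δ‖ :=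
    h2.eventually_const_lt (by linarith)
  obtain ⟨δ, h5, h6⟩ := (h3.and_eventually h4).exists
  linarith

/-- the exponentials -/
noncomputable def ee (t v : ℝ) : ℂ := cexp (-((t * v : ℝ) * I))

theorem ee_norm (t v : ℝ) : ‖ee t v‖ = 1 := by
  unfold ee
  rw [Complex.norm_exp]
  simp

theorem ee_cont (t : ℝ) : Continuous (ee t) := by unfold ee; fun_prop

theorem J_ee (t δ : ℝ) : J (ee t) δ = lapC g (pt t + δ) := by
  unfold J lapC
  refine integral_congr_ae (Eventually.of_forall fun v => ?_)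
  simp only []
  unfold ee pt
  rw [Complex.ofReal_mul, mul_assoc, Complex.ofReal_exp, ← Complex.exp_add]
  congr 2
  push_cast
  ring

theorem shift (t : ℝ) : Tendsto (fun δ : ℝ => pt t + (δ : ℂ)) (𝓝[>] 0) (𝓝 (pt t)) := by
  have : Tendsto (fun δ : ℝ => pt t + (δ : ℂ)) (𝓝 0) (𝓝 (pt t + ((0 : ℝ) : ℂ))) :=
    (continuous_const.add Complex.continuous_ofReal).tendsto 0
  rw [Complex.ofReal_zero, add_zero] at this
  exact this.mono_left nhdsWithin_le_nhds

theorem ext_pt (h : ∀ w > (1 / 2 : ℝ), LInt g w) (t : ℝ) {δ : ℝ} (hδ : 0 < δ) :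
    (pt t + δ) * riemannZeta₁ (pt t + δ) * lapC g (pt t + δ) = pt t + δ - 1 := by
  refine g_ext h ?_
  rw [Complex.add_re, pt_re, Complex.ofReal_re]
  linarith

theorem slope (t : ℝ) (hz : riemannZeta (pt t) = 0) :
    Tendsto (fun δ : ℝ => riemannZeta₁ (pt t + δ) / (δ : ℂ)) (𝓝[>] 0)
      (𝓝 ((pt t - 1) * deriv riemannZeta (pt t))) := by
  have hd : deriv riemannZeta₁ (pt t) = (pt t - 1) * deriv riemannZeta (pt t) := by
    have h1 : riemannZeta₁ =ᶠ[𝓝 (pt t)] fun s => (s - 1) * riemannZeta s := by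
      filter_upwards [isOpen_ne.mem_nhds (pt_ne_one t)] with s hs
      exact zeta1_eq hs
    rw [h1.deriv_eq]
    have h2 : HasDerivAt (fun s : ℂ => (s - 1) * riemannZeta s)
        (1 * riemannZeta (pt t) + (pt t - 1) * deriv riemannZeta (pt t)) (pt t) :=
      ((hasDerivAt_id (pt t)).sub_const 1).mul (differentiableAt_riemannZeta (pt_ne_one t)).hasDerivAt
    rw [h2.deriv, hz, mul_zero, zero_add]
  have h3 : HasDerivAt (fun s : ℂ => riemannZeta₁ (pt t + s)) (deriv riemannZeta₁ (pt t)) ((0 : ℝ) : ℂ) := by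
    have h4 := (differentiable_riemannZeta₁ (pt t)).hasDerivAt
    have h5 : HasDerivAt riemannZeta₁ (deriv riemannZeta₁ (pt t)) (pt t + ((0 : ℝ) : ℂ)) := by
      rw [Complex.ofReal_zero, add_zero]
      exact h4
    exact h5.comp_const_add _ _
  have h6 := h3.comp_ofReal
  rw [hasDerivAt_iff_tendsto_slope_zero] at h6
  have h7 : Tendsto (fun δ : ℝ => δ⁻¹ • (riemannZeta₁ (pt t + ((0 + δ : ℝ) : ℂ)) - riemannZeta₁ (pt t + ((0 : ℝ) : ℂ))))
      (𝓝[>] 0) (𝓝 (deriv riemannZeta₁ (pt t))) :=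
    h6.mono_left (nhdsWithin_mono _ fun x hx => (show x ≠ 0 from (ne_of_gt hx)))
  rw [hd] at h7
  refine h7.congr fun δ => ?_
  rw [Complex.ofReal_zero, add_zero, zero_add, zeta1_eq (pt_ne_one t), hz, mul_zero, sub_zero,
    Complex.real_smul, Complex.ofReal_inv, div_eq_inv_mul]

theorem HM_ee (h : ∀ w > (1 / 2 : ℝ), LInt g w) (t : ℝ)
    (hs : riemannZeta (pt t) = 0 → deriv riemannZeta (pt t) ≠ 0) : HM (ee t) (cf t) := by
  refine ⟨ee_cont t, ⟨1, fun v => (ee_norm t v).le⟩, ?_⟩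
  simp only [J_ee]
  have hsh := shift t
  have hc1 : Tendsto (fun δ : ℝ => riemannZeta₁ (pt t + (δ : ℂ))) (𝓝[>] 0) (𝓝 (riemannZeta₁ (pt t))) :=
    (differentiable_riemannZeta₁.continuous.tendsto _).comp hsh
  by_cases hz : riemannZeta (pt t) = 0
  · have hd := hs hz
    have h1 := slope t hz
    have hne : pt t * ((pt t - 1) * deriv riemannZeta (pt t)) ≠ 0 :=
      mul_ne_zero (pt_ne_zero t) (mul_ne_zero (sub_ne_zero.2 (pt_ne_one t)) hd)
    have h2 : Tendsto (fun δ : ℝ => (pt t + (δ : ℂ) - 1) / ((pt t + (δ : ℂ)) * (riemannZeta₁ (pt t + δ) / (δ : ℂ))))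
        (𝓝[>] 0) (𝓝 ((pt t - 1) / (pt t * ((pt t - 1) * deriv riemannZeta (pt t))))) :=
      (hsh.sub_const 1).div (hsh.mul h1) hne
    have h3 : (pt t - 1) / (pt t * ((pt t - 1) * deriv riemannZeta (pt t))) = cf t := by
      unfold cf
      rw [if_pos hz]
      have := sub_ne_zero.2 (pt_ne_one t)
      have := pt_ne_zero t
      field_simp
    rw [h3] at h2
    refine h2.congr' ?_
    filter_upwards [self_mem_nhdsWithin] with δ hδ
    have hδ0 : (0 : ℝ) < δ := hδ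
    have hδc : (δ : ℂ) ≠ 0 := by exact_mod_cast hδ0.ne'
    have h4 := ext_pt h t hδ0
    have h5 : pt t + δ - 1 ≠ 0 := by
      intro h6
      have := congrArg Complex.im h6
      have h7 := congrArg Complex.re h6
      simp [pt] at this h7
      rw [this] at hz
      refine Pool.Agent.Y21.FW.real_ne (x := 1 / 2) (by norm_num) (by norm_num) ?_
      unfold pt at hz
      push_cast
      simpa using hz
    rw [← h4] at h5
    have h6 := left_ne_zero_of_mul h5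
    have h8 := left_ne_zero_of_mul h6
    have h9 := right_ne_zero_of_mul h6
    rw [← h4]
    field_simp
  · have h3 : cf t = 0 := by
      unfold cf
      rw [if_neg hz]
    rw [h3]
    have hne : pt t * riemannZeta₁ (pt t) ≠ 0 := by
      rw [zeta1_eq (pt_ne_one t)]
      exact mul_ne_zero (pt_ne_zero t) (mul_ne_zero (sub_ne_zero.2 (pt_ne_one t)) hz)
    have h2 : Tendsto (fun δ : ℝ => (δ : ℂ) * ((pt t + (δ : ℂ) - 1) / ((pt t + (δ : ℂ)) * riemannZeta₁ (pt t + δ))))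
        (𝓝[>] 0) (𝓝 (((0 : ℝ) : ℂ) * ((pt t - 1) / (pt t * riemannZeta₁ (pt t))))) :=
      ((Complex.continuous_ofReal.tendsto 0).mono_left nhdsWithin_le_nhds).mul
        ((hsh.sub_const 1).div (hsh.mul hc1) hne)
    rw [Complex.ofReal_zero, zero_mul] at h2
    refine h2.congr' ?_
    have hev : ∀ᶠ δ : ℝ in 𝓝[>] 0, (pt t + (δ : ℂ)) * riemannZeta₁ (pt t + δ) ≠ 0 :=
      (hsh.mul hc1).eventually_ne hne
    filter_upwards [self_mem_nhdsWithin, hev] with δ hδ hδ1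
    have hδ0 : (0 : ℝ) < δ := hδ
    congr 1
    rw [← ext_pt h t hδ0, mul_div_cancel_left₀ _ hδ1]

/-- simple zeros -/
theorem simple (h : ∀ w > (1 / 2 : ℝ), LInt g w) {a : ℝ}
    (ha : ∃ᶠ δ in 𝓝[>] (0 : ℝ), N δ ≤ a) (t : ℝ) (hz : riemannZeta (pt t) = 0) :
    deriv riemannZeta (pt t) ≠ 0 := by
  intro hd
  have h1 := slope t hz
  rw [hd, mul_zero] at h1
  have hsh := shift t
  have h2 : Tendsto (fun δ : ℝ => ‖pt t + (δ : ℂ)‖ * ‖riemannZeta₁ (pt t + δ) / (δ : ℂ)‖ * |a|) (𝓝[>] 0)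
      (𝓝 (‖pt t‖ * ‖(0 : ℂ)‖ * |a|)) := (hsh.norm.mul h1.norm).mul_const _
  rw [norm_zero, mul_zero, zero_mul] at h2
  have h3 : Tendsto (fun δ : ℝ => ‖pt t + (δ : ℂ) - 1‖) (𝓝[>] 0) (𝓝 ‖pt t - 1‖) := (hsh.sub_const 1).norm
  have h4 : 0 < ‖pt t - 1‖ := norm_pos_iff.2 (sub_ne_zero.2 (pt_ne_one t))
  have h5 := h2.eventually_lt_const (show (0 : ℝ) < ‖pt t - 1‖ / 2 by positivity)
  have h6 := h3.eventually_const_lt (show ‖pt t - 1‖ / 2 < ‖pt t - 1‖ by linarith)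
  obtain ⟨δ, ⟨h7, h8, h9⟩, h10⟩ := ((ha.and_eventually (h5.and h6)).and_eventually self_mem_nhdsWithin).exists
  have hδ0 : (0 : ℝ) < δ := h10
  have hδc : (δ : ℂ) ≠ 0 := by exact_mod_cast hδ0.ne'
  have h11 := J_le (ee t) (B := 1) (fun v => (ee_norm t v).le) hδ0 (h _ (by linarith))
  rw [J_ee, one_mul] at h11
  have h12 : pt t + δ - 1 = (pt t + δ) * (riemannZeta₁ (pt t + δ) / δ) * (δ * lapC g (pt t + δ)) := by
    rw [← ext_pt h t hδ0]
    field_simp
  have h13 : ‖pt t + (δ : ℂ) - 1‖ ≤ ‖pt t + (δ : ℂ)‖ * ‖riemannZeta₁ (pt t + δ) / (δ : ℂ)‖ * |a| := by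
    rw [h12, norm_mul, norm_mul]
    exact mul_le_mul_of_nonneg_left (h11.trans (h7.trans (le_abs_self _))) (by positivity)
  linarith

end Pool.Agent.Y853.HM
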