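import Pool.Agent.Y853.HM.Mean

set_option autoImplicit false

/-! Riesz products. -/

namespace Pool.Agent.Y853.HM

open Filter Topology Set MeasureTheory Complex
open Pool.Agent.W263.BSD Pool.Agent.W120.WM

/-- no signed sum of an odd number `≥ 3` of distinct members of `E` is the ordinate of a zero -/
def NoOdd (E : Set ℝ) : Prop := ∀ (S : Finset ℝ) (σ : ℝ → ℝ), (S : Set ℝ) ⊆ E →
  (∀ y, σ y = 1 ∨ σ y = -1) → Odd S.card → 3 ≤ S.card → riemannZeta (pt (∑ y ∈ S, σ y * y)) ≠ 0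

theorem ee_add (a b v : ℝ) : ee (a + b) v = ee a v * ee b v := by
  unfold ee
  rw [← Complex.exp_add]
  congr 1
  push_cast
  ring

theorem ee_zero (v : ℝ) : ee 0 v = 1 := by
  unfold ee
  simp

theorem ee_sum (T : Finset ℝ) (x : ℝ → ℝ) (v : ℝ) : ∏ y ∈ T, ee (x y) v = ee (∑ y ∈ T, x y) v := by
  classical
  induction T using Finset.induction_on with
  | empty => simp [ee_zero]
  | insert i S hi ih => rw [Finset.prod_insert hi, Finset.sum_insert hi, ee_add, ih]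

theorem ee_neg (t v : ℝ) : ee (-t) v = (starRingEnd ℂ) (ee t v) := by
  unfold ee
  rw [← Complex.exp_conj]
  congr 1
  simp

/-- product of cosines -/
noncomputable def cc (φ : ℝ → ℝ) (S : Finset ℝ) (v : ℝ) : ℂ := ∏ y ∈ S, ((Real.cos (y * v + φ y) : ℝ) : ℂ)

theorem cos_eq (φ y v : ℝ) : ((Real.cos (y * v + φ) : ℝ) : ℂ) =
    (cexp (φ * I) / 2) * ee (-y) v + (cexp (-(φ * I)) / 2) * ee y v := by
  rw [Complex.ofReal_cos, Complex.cos]
  unfold ee
  rw [div_mul_eq_mul_div, div_mul_eq_mul_div, ← Complex.exp_add, ← Complex.exp_add, ← add_div]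
  congr 2
  · congr 1
    push_cast
    ring
  · congr 1
    push_cast
    ring

theorem cc_expand (φ : ℝ → ℝ) (S : Finset ℝ) (v : ℝ) : cc φ S v = ∑ T ∈ S.powerset,
    ((∏ y ∈ T, cexp (φ y * I) / 2) * (∏ y ∈ S \ T, cexp (-(φ y * I)) / 2)) *
      ee (∑ y ∈ S, (if y ∈ T then (-1 : ℝ) else 1) * y) v := by
  unfold cc
  simp only [cos_eq]
  rw [Finset.prod_add]
  refine Finset.sum_congr rfl fun T hT => ?_
  have hTS := Finset.mem_powerset.1 hT
  rw [Finset.prod_mul_distrib, Finset.prod_mul_distrib, ee_sum, ee_sum]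
  have h1 : ∑ y ∈ S, (if y ∈ T then (-1 : ℝ) else 1) * y = (∑ y ∈ T, -y) + ∑ y ∈ S \ T, y := by
    rw [← Finset.sum_sdiff hTS, add_comm]
    congr 1
    · refine Finset.sum_congr rfl fun y hy => ?_
      rw [if_pos hy]
      ring
    · refine Finset.sum_congr rfl fun y hy => ?_
      rw [if_neg (Finset.mem_sdiff.1 hy).2]
      ring
  rw [h1, ee_add]
  ring

variable (h : ∀ w > (1 / 2 : ℝ), LInt g w)
  (hs : ∀ t : ℝ, riemannZeta (pt t) = 0 → deriv riemannZeta (pt t) ≠ 0)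

include h hs

theorem cf_neg (t : ℝ) : cf (-t) = (starRingEnd ℂ) (cf t) := by
  have h1 := (HM_ee h t (hs t)).conj
  have h2 : (fun v => (starRingEnd ℂ) (ee t v)) = ee (-t) := by
    funext v
    rw [ee_neg]
  rw [h2] at h1
  exact (HM_ee h (-t) (hs _)).unique h1

theorem HM_cc (φ : ℝ → ℝ) (S : Finset ℝ) : HM (cc φ S) (∑ T ∈ S.powerset,
    ((∏ y ∈ T, cexp (φ y * I) / 2) * (∏ y ∈ S \ T, cexp (-(φ y * I)) / 2)) *
      cf (∑ y ∈ S, (if y ∈ T then (-1 : ℝ) else 1) * y)) := by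
  have h1 : cc φ S = fun v => ∑ T ∈ S.powerset,
    ((∏ y ∈ T, cexp (φ y * I) / 2) * (∏ y ∈ S \ T, cexp (-(φ y * I)) / 2)) *
      ee (∑ y ∈ S, (if y ∈ T then (-1 : ℝ) else 1) * y) v := by
    funext v
    exact cc_expand φ S v
  rw [h1]
  exact HM.sum h _ fun T _ => (HM_ee h _ (hs _)).const_mul _

theorem HM_cc_one (y : ℝ) : HM (cc (fun y => (cf y).arg) {y}) (‖cf y‖ : ℝ) := by
  have h1 : cc (fun y => (cf y).arg) {y} = fun v =>
      (cexp ((cf y).arg * I) / 2) * ee (-y) v + (cexp (-((cf y).arg * I)) / 2) * ee y v := by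
    funext v
    unfold cc
    rw [Finset.prod_singleton, cos_eq]
  have h2 := ((HM_ee h (-y) (hs _)).const_mul (cexp ((cf y).arg * I) / 2)).add h
    ((HM_ee h y (hs _)).const_mul (cexp (-((cf y).arg * I)) / 2))
  rw [h1]
  refine Eq.subst (motive := fun l => HM _ l) ?_ h2
  rw [cf_neg h hs]
  have h3 := Complex.norm_mul_exp_arg_mul_I (cf y)
  have h4 : (starRingEnd ℂ) (cf y) = (‖cf y‖ : ℂ) * cexp (-((cf y).arg * I)) := by
    conv_lhs => rw [← h3]
    rw [map_mul, conj_ofReal, ← Complex.exp_conj]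
    congr 2
    simp
  have h5 : cexp ((cf y).arg * I) * cexp (-((cf y).arg * I)) = 1 := by
    rw [← Complex.exp_add, add_neg_cancel, Complex.exp_zero]
  rw [h4]
  linear_combination (‖cf y‖ : ℂ) * h5 - cexp (-((cf y).arg * I)) / 2 * h3

theorem riesz {E : Finset ℝ} (hE : NoOdd (E : Set ℝ)) {a0 : ℝ}
    (ha : ∀ ε : ℝ, 0 < ε → ∃ᶠ δ in 𝓝[>] (0 : ℝ), N δ ≤ a0 + ε) (a : ℝ → ℝ) :
    ∑ y ∈ E, a y * ‖cf y‖ ≤ Real.exp ((∑ y ∈ E, a y ^ 2) / 2) * a0 := by
  classical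
  set φ : ℝ → ℝ := fun y => (cf y).arg with hφ
  have hex : ∀ S : Finset ℝ, ∃ l : ℂ, HM (cc φ S) l ∧ l.im = 0 ∧
      (S ⊆ E → Odd S.card → 3 ≤ S.card → l = 0) ∧ (∀ y, S = {y} → l = (‖cf y‖ : ℝ)) := by
    intro S
    refine ⟨_, HM_cc h hs φ S, ?_, ?_, ?_⟩
    · refine (HM_cc h hs φ S).im_zero fun v => ?_
      unfold cc
      rw [← Complex.ofReal_prod, Complex.ofReal_im]
    · intro hS h1 h2
      refine Finset.sum_eq_zero fun T _ => ?_
      have h3 := hE S (fun y => if y ∈ T then (-1 : ℝ) else 1) (by exact_mod_cast hS) (fun y => by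
        by_cases hy : y ∈ T
        · right; simp [hy]
        · left; simp [hy]) h1 h2
      unfold cf
      rw [if_neg h3, mul_zero]
    · rintro y rfl
      exact (HM_cc h hs φ {y}).unique (HM_cc_one h hs y)
  choose l hl1 hl2 hl3 hl4 using hex
  have hP : HM (fun v => ∑ S ∈ E.powerset, (∏ y ∈ S, (I * (a y : ℂ))) * cc φ S v)
      (∑ S ∈ E.powerset, (∏ y ∈ S, (I * (a y : ℂ))) * l S) :=
    HM.sum h _ fun S _ => (hl1 S).const_mul _
  have hPeq : (fun v => ∑ S ∈ E.powerset, (∏ y ∈ S, (I * (a y : ℂ))) * cc φ S v) =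
      fun v => ∏ y ∈ E, (1 + (I * (a y : ℂ)) * ((Real.cos (y * v + φ y) : ℝ) : ℂ)) := by
    funext v
    rw [Finset.prod_one_add]
    refine Finset.sum_congr rfl fun S _ => ?_
    unfold cc
    rw [← Finset.prod_mul_distrib]
  have hb : ∀ v, ‖(fun v => ∑ S ∈ E.powerset, (∏ y ∈ S, (I * (a y : ℂ))) * cc φ S v) v‖ ≤
      Real.exp ((∑ y ∈ E, a y ^ 2) / 2) := by
    intro v
    rw [hPeq]
    simp only []
    rw [norm_prod, Finset.sum_div, Real.exp_sum]
    refine Finset.prod_le_prod (fun _ _ => norm_nonneg _) fun y _ => ?_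
    have e1 : (1 + (I * (a y : ℂ)) * ((Real.cos (y * v + φ y) : ℝ) : ℂ)) =
        ((1 : ℝ) : ℂ) + ((a y * Real.cos (y * v + φ y) : ℝ) : ℂ) * I := by
      push_cast
      ring
    rw [e1, Complex.norm_add_mul_I]
    rw [Real.sqrt_le_left (Real.exp_pos _).le, ← Real.exp_nat_mul]
    have h3 : (a y * Real.cos (y * v + φ y)) ^ 2 ≤ a y ^ 2 := by
      rw [mul_pow]
      have := Real.cos_sq_le_one (y * v + φ y)
      nlinarith [sq_nonneg (a y)]
    have h4 := Real.add_one_le_exp (a y ^ 2)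
    rw [show ((2 : ℕ) : ℝ) * (a y ^ 2 / 2) = a y ^ 2 by push_cast; ring]
    linarith
  have hbd := hP.bound h hb ha
  have him : (∑ S ∈ E.powerset, (∏ y ∈ S, (I * (a y : ℂ))) * l S).im = ∑ y ∈ E, a y * ‖cf y‖ := by
    rw [Complex.im_sum]
    have hsub : E.map ⟨_, Finset.singleton_injective⟩ ⊆ E.powerset := by
      intro S hS
      rw [Finset.mem_map] at hS
      obtain ⟨y, hy, rfl⟩ := hS
      rw [Finset.mem_powerset]
      exact Finset.singleton_subset_iff.2 hy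
    rw [← Finset.sum_subset hsub]
    · rw [Finset.sum_map]
      refine Finset.sum_congr rfl fun y _ => ?_
      simp only [Function.Embedding.coeFn_mk]
      rw [Finset.prod_singleton, hl4 {y} y rfl]
      rw [show I * (a y : ℂ) * ((‖cf y‖ : ℝ) : ℂ) = ((a y * ‖cf y‖ : ℝ) : ℂ) * I by push_cast; ring]
      simp
    · intro S hS hS2
      have hSE := Finset.mem_powerset.1 hS
      rcases Nat.even_or_odd S.card with he | ho
      · obtain ⟨k, hk⟩ := he
        rw [Finset.prod_mul_distrib, Finset.prod_const, hk, ← two_mul, pow_mul, Complex.I_sq,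
          ← Complex.ofReal_prod]
        have h5 : l S = (((l S).re : ℝ) : ℂ) := by
          apply Complex.ext
          · simp
          · simp [hl2 S]
        rw [h5, show (-1 : ℂ) ^ k * ((∏ y ∈ S, a y : ℝ) : ℂ) * ((l S).re : ℂ) =
          (((-1 : ℝ) ^ k * (∏ y ∈ S, a y) * (l S).re : ℝ) : ℂ) by push_cast; ring]
        exact Complex.ofReal_im _
      · have h6 : S.card ≠ 1 := by
          intro h7
          obtain ⟨y, hy⟩ := Finset.card_eq_one.1 h7
          apply hS2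
          rw [Finset.mem_map]
          refine ⟨y, hSE (by rw [hy]; exact Finset.mem_singleton_self y), ?_⟩
          rw [hy]
          rfl
        have h7 : 3 ≤ S.card := by
          obtain ⟨k, hk⟩ := ho
          omega
        rw [hl3 S hSE ho h7, mul_zero, Complex.zero_im]
  rw [← him]
  exact (Complex.im_le_norm _).trans hbd

theorem riesz_sq {E : Finset ℝ} (hE : NoOdd (E : Set ℝ)) {a0 : ℝ}
    (ha : ∀ ε : ℝ, 0 < ε → ∃ᶠ δ in 𝓝[>] (0 : ℝ), N δ ≤ a0 + ε) :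
    ∑ y ∈ E, ‖cf y‖ ^ 2 ≤ Real.exp 1 * a0 ^ 2 := by
  set Q : ℝ := ∑ y ∈ E, ‖cf y‖ ^ 2 with hQ
  have hQ0 : 0 ≤ Q := Finset.sum_nonneg fun _ _ => by positivity
  rcases hQ0.eq_or_lt with h0 | h0
  · rw [← h0]
    positivity
  have hR : 0 < Real.sqrt Q := Real.sqrt_pos.2 h0
  have h1 := riesz h hs hE ha (fun y => ‖cf y‖ / Real.sqrt Q)
  have h2 : ∑ y ∈ E, (‖cf y‖ / Real.sqrt Q) ^ 2 = 1 := by
    simp only [div_pow, Real.sq_sqrt hQ0]
    rw [← Finset.sum_div, ← hQ, div_self h0.ne']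
  have h3 : ∑ y ∈ E, ‖cf y‖ / Real.sqrt Q * ‖cf y‖ = Real.sqrt Q := by
    have : ∀ y ∈ E, ‖cf y‖ / Real.sqrt Q * ‖cf y‖ = ‖cf y‖ ^ 2 / Real.sqrt Q := fun y _ => by ring
    rw [Finset.sum_congr rfl this, ← Finset.sum_div, ← hQ, Real.div_sqrt]
  rw [h2, h3] at h1
  calc Q = Real.sqrt Q ^ 2 := (Real.sq_sqrt hQ0).symm
    _ ≤ (Real.exp (1 / 2) * a0) ^ 2 := pow_le_pow_left₀ hR.le h1 2
    _ = Real.exp 1 * a0 ^ 2 := by
      rw [mul_pow, ← Real.exp_nat_mul]
      norm_num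

end Pool.Agent.Y853.HM
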