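import Pool.Agent.W150.WM.Inv
import Pool.Agent.Y21.FW.Zeros
import Pool.Agent.TH988.RB.Lan

set_option autoImplicit false

/-! The Laplace transform of the Mertens function and one-sided bounds. -/

namespace Pool.Agent.Y853.HM

open Filter Topology Set MeasureTheory
open Pool.Agent.W263.BSD Pool.Agent.W120.WM

theorem isOpen_half (s : ℝ) : IsOpen {z : ℂ | s < z.re} :=
  isOpen_lt continuous_const Complex.continuous_re

theorem preconn_half (s : ℝ) : IsPreconnected {z : ℂ | s < z.re} :=
  (convex_halfSpace_re_gt s).isPreconnected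

/-- `M(e^v)` -/
noncomputable def g (v : ℝ) : ℝ := Mx (Real.exp v)

theorem g_meas : Measurable g := Pool.Agent.W150.WM.mx_meas

theorem g_abs (v : ℝ) : |g v| ≤ Real.exp v :=
  (Pool.Agent.W150.WM.mx_abs_le _).trans (Nat.floor_le (Real.exp_pos _).le)

theorem lint_exp {c w : ℝ} (h : c < w) : LInt (fun v => Real.exp (c * v)) w := by
  unfold LInt
  have e : (fun u : ℝ => Real.exp (c * u) * Real.exp (-(w * u))) = fun u => Real.exp (-(w - c) * u) := by
    funext u
    rw [← Real.exp_add]
    congr 1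
    ring
  rw [e]
  exact exp_neg_integrableOn_Ioi 0 (by linarith)

theorem g_lint {w : ℝ} (hw : 1 < w) : LInt g w := by
  have h := lint_exp hw
  unfold LInt at *
  refine Integrable.mono h ?_ ?_
  · exact (g_meas.mul (by fun_prop)).aestronglyMeasurable
  · refine Eventually.of_forall fun v => ?_
    rw [norm_mul, norm_mul, Real.norm_of_nonneg (Real.exp_pos (1 * v)).le]
    refine mul_le_mul_of_nonneg_right ?_ (norm_nonneg _)
    rw [one_mul]
    exact g_abs v

theorem g_eq {z : ℂ} (hz : 1 < z.re) : z * riemannZeta₁ z * lapC g z = z - 1 := by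
  have h := Pool.Agent.W150.WM.inv_zeta z hz
  have h2 : lapC g z = ∫ y : ℝ, ((Mx (Real.exp y) : ℝ) : ℂ) * Complex.exp (-(z * y)) := by
    unfold lapC
    rw [← integral_Ici_eq_integral_Ioi]
    apply setIntegral_eq_integral_of_forall_compl_eq_zero
    intro y hy
    have hy' : y < 0 := by
      rw [mem_Ici, not_le] at hy
      exact hy
    show ((Mx (Real.exp y) : ℝ) : ℂ) * _ = 0
    rw [Pool.Agent.W150.WM.mx_zero hy', Complex.ofReal_zero, zero_mul]
  rw [h2, ← h]
  have hz1 : z ≠ 1 := by
    rintro rfl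
    simp at hz
  have hz0 : z ≠ 0 := by
    rintro rfl
    simp at hz
    linarith
  have h3 : riemannZeta z ≠ 0 := riemannZeta_ne_zero_of_one_le_re hz.le
  have h4 : riemannZeta₁ z = (z - 1) * riemannZeta z := by
    have h1 : z - 1 ≠ 0 := sub_ne_zero.2 hz1
    rw [riemannZeta_eq_inv_sub_mul hz1]
    field_simp
  rw [h4]
  field_simp

/-- the identity extends to the half plane of absolute convergence -/
theorem g_ext {a : ℝ} (h : ∀ w > a, LInt g w) {z : ℂ} (hz : a < z.re) :
    z * riemannZeta₁ z * lapC g z = z - 1 := by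
  have hd : DifferentiableOn ℂ (fun z => z * riemannZeta₁ z * lapC g z) {z : ℂ | a < z.re} := by
    intro z hz
    have hz' : a < z.re := hz
    exact ((differentiableAt_id.mul (differentiable_riemannZeta₁ z)).mul
      (lapC_differentiableAt g_meas h hz')).differentiableWithinAt
  have h1 : AnalyticOnNhd ℂ (fun z : ℂ => z - 1) {z : ℂ | a < z.re} :=
    (differentiableOn_id.sub_const 1).analyticOnNhd (isOpen_half a)
  have h2 := hd.analyticOnNhd (isOpen_half a)
  have hz0 : a < (((max a 1 + 1 : ℝ) : ℂ)).re := by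
    rw [Complex.ofReal_re]
    have := le_max_left a 1
    linarith
  have h3 := h2.eqOn_of_preconnected_of_eventuallyEq h1 (preconn_half a) hz0 ?_
  · exact h3 hz
  · have hz1 : 1 < (((max a 1 + 1 : ℝ) : ℂ)).re := by
      rw [Complex.ofReal_re]
      have := le_max_right a 1
      linarith
    filter_upwards [(isOpen_half 1).mem_nhds hz1] with z hz
    exact g_eq hz

theorem zeta1_eq {s : ℂ} (hs : s ≠ 1) : riemannZeta₁ s = (s - 1) * riemannZeta s := by
  have h1 : s - 1 ≠ 0 := sub_ne_zero.2 hs
  rw [riemannZeta_eq_inv_sub_mul hs]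
  field_simp

theorem zeta1_real {w : ℝ} (hw : 0 < w) : riemannZeta₁ (w : ℂ) ≠ 0 := by
  by_cases h : w = 1
  · rw [h, Complex.ofReal_one, riemannZeta₁_one]
    exact one_ne_zero
  · have h' : (w : ℂ) ≠ 1 := by exact_mod_cast h
    rw [zeta1_eq h']
    refine mul_ne_zero (sub_ne_zero.2 h') ?_
    rcases lt_or_gt_of_ne h with h2 | h2
    · exact Pool.Agent.Y21.FW.real_ne hw h2
    · exact riemannZeta_ne_zero_of_one_le_re (by rw [Complex.ofReal_re]; exact h2.le)

lemma re_analytic {f : ℂ → ℂ} {x : ℝ} (hf : AnalyticAt ℂ f x) :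
    AnalyticAt ℝ (fun x : ℝ => (f x).re) x := by
  have h1 : AnalyticAt ℝ f (x : ℂ) := hf.restrictScalars
  have h2 : AnalyticAt ℝ (fun x : ℝ => (x : ℂ)) x := Complex.ofRealCLM.analyticAt x
  have h3 : AnalyticAt ℝ (fun z : ℂ => z.re) (f x) := Complex.reCLM.analyticAt _
  exact AnalyticAt.fun_comp h3 (AnalyticAt.fun_comp h1 h2)

/-- one side gives the other side -/
theorem other_side {e : ℝ} (h : ∀ w > (1 / 2 : ℝ), LInt (fun u => max (e * g u) 0) w) :
    ∀ w > (1 / 2 : ℝ), LInt (fun u => max (-(e * g u)) 0) w := by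
  have hme : Measurable (fun u => e * g u) := g_meas.const_mul e
  obtain ⟨G, hG⟩ : ∃ G : ℝ → ℝ, G = fun w : ℝ =>
      (lapC (fun u => max (e * g u) 0) (w : ℂ) - (e : ℂ) * (((w : ℂ) - 1) / ((w : ℂ) * riemannZeta₁ w))).re :=
    ⟨_, rfl⟩
  have hlan := TH988.RB.landau_lap (f := fun u => max (-(e * g u)) 0)
    (hme.neg.max measurable_const) (fun u _ => le_max_right _ _) (a := 1 / 2) (w1 := 1)
    (fun w hw => by
      have h1 := ((g_lint hw).const_mul e).neg
      exact LInt.posPart (hme.neg) h1)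
    (g := G) (fun w hw => ?_) (fun w hw hw2 => ?_)
  · exact hlan.1
  · rw [hG]
    refine re_analytic (f := fun z : ℂ => lapC (fun u => max (e * g u) 0) z -
      (e : ℂ) * ((z - 1) / (z * riemannZeta₁ z))) ?_
    have hw0 : (0 : ℝ) < w := by linarith
    have h1 : AnalyticAt ℂ (fun z : ℂ => lapC (fun u => max (e * g u) 0) z) (w : ℂ) := by
      have hdiff : DifferentiableOn ℂ (fun z : ℂ => lapC (fun u => max (e * g u) 0) z)
          {z : ℂ | (1 / 2 : ℝ) < z.re} := by
        intro z hz
        exact (lapC_differentiableAt (hme.max measurable_const) h hz).differentiableWithinAt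
      exact hdiff.analyticAt ((isOpen_half (1 / 2)).mem_nhds
        (by show (1 / 2 : ℝ) < (w : ℂ).re; rw [Complex.ofReal_re]; exact hw))
    have h2 : AnalyticAt ℂ (fun z : ℂ => (z - 1) / (z * riemannZeta₁ z)) (w : ℂ) := by
      refine (analyticAt_id.sub analyticAt_const).div (analyticAt_id.mul
        (differentiable_riemannZeta₁.analyticAt _)) ?_
      exact mul_ne_zero (by exact_mod_cast hw0.ne') (zeta1_real hw0)
    exact h1.sub (analyticAt_const.mul h2)
  · have hw0 : (0 : ℝ) < w := by linarith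
    have h1 := g_lint hw
    have h2 := h w hw2
    have h3 : (fun u => max (-(e * g u)) 0) = fun u => max (e * g u) 0 - e * g u := by
      funext u
      rcases le_total 0 (e * g u) with h4 | h4
      · rw [max_eq_right (by linarith), max_eq_left h4, sub_self]
      · rw [max_eq_left (by linarith), max_eq_right h4, zero_sub]
    have h5 : (((w : ℂ) - 1) / ((w : ℂ) * riemannZeta₁ w)) = lapC g w := by
      have h6 := g_eq (z := (w : ℂ)) (by rw [Complex.ofReal_re]; exact hw)
      rw [← h6, mul_div_cancel_left₀]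
      exact mul_ne_zero (by exact_mod_cast hw0.ne') (zeta1_real hw0)
    rw [h3, lap_sub h2 (h1.const_mul e), lap_const_mul, hG]
    simp only []
    rw [h5, lapC_ofReal, lapC_ofReal]
    rw [← Complex.ofReal_mul, ← Complex.ofReal_sub, Complex.ofReal_re]

theorem lint_abs {f : ℝ → ℝ} {w : ℝ} (h1 : LInt (fun u => max (f u) 0) w)
    (h2 : LInt (fun u => max (-f u) 0) w) : LInt (fun u => |f u|) w := by
  have := h1.add h2
  have e : (fun u => |f u|) = fun u => max (f u) 0 + max (-f u) 0 := by
    funext u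
    rcases le_total 0 (f u) with h | h
    · rw [abs_of_nonneg h, max_eq_left h, max_eq_right (by linarith), add_zero]
    · rw [abs_of_nonpos h, max_eq_right h, max_eq_left (by linarith), zero_add]
  rw [e]
  exact this

theorem lint_of_abs {f : ℝ → ℝ} (hf : Measurable f) {w : ℝ} (h : LInt (fun u => |f u|) w) : LInt f w := by
  unfold LInt at *
  refine Integrable.mono h ?_ ?_
  · exact (hf.mul (by fun_prop)).aestronglyMeasurable
  · refine Eventually.of_forall fun v => ?_
    rw [norm_mul, norm_mul, Real.norm_eq_abs, Real.norm_eq_abs (|f v|), abs_abs]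

/-- no zeros to the right of the critical line -/
theorem no_zero (h : ∀ w > (1 / 2 : ℝ), LInt g w) {ρ : ℂ} (hρ : 1 / 2 < ρ.re) : riemannZeta ρ ≠ 0 := by
  intro h0
  by_cases h1 : ρ = 1
  · rw [h1] at h0
    exact riemannZeta_one_ne_zero h0
  have h2 := g_ext h hρ
  rw [zeta1_eq h1, h0, mul_zero, mul_zero, zero_mul] at h2
  exact h1 (sub_eq_zero.1 h2.symm)

theorem rh (h : ∀ w > (1 / 2 : ℝ), LInt g w) {ρ : ℂ} (h0 : riemannZeta ρ = 0) (h1 : 0 < ρ.re) (h2 : ρ.re < 1) :
    ρ.re = 1 / 2 := by
  by_contra hne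
  rcases lt_or_gt_of_ne hne with h3 | h3
  · have hn : ∀ n : ℕ, ρ ≠ -n := by
      intro n hn
      rw [hn] at h1
      simp at h1
      have : (0 : ℝ) ≤ n := n.cast_nonneg
      linarith
    have hρ1 : ρ ≠ 1 := by
      rintro rfl
      simp at h2
    have h4 := riemannZeta_one_sub hn hρ1
    rw [h0, mul_zero] at h4
    refine no_zero h (ρ := 1 - ρ) ?_ h4
    rw [Complex.sub_re, Complex.one_re]
    linarith
  · exact no_zero h h3 h0

end Pool.Agent.Y853.HM
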